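import Mathlib.Algebra.MvPolynomial.Basic
import Mathlib.RingTheory.Algebraic.Defs
import Mathlib.FieldTheory.IntermediateField.Adjoin.Defs
import Mathlib.Analysis.Complex.Exponential
import Mathlib.Analysis.InnerProductSpace.Basic
import Mathlib.Analysis.Calculus.FDeriv.Defs
import Mathlib.Analysis.Analytic.Basic
import Mathlib.Analysis.CStarAlgebra.Classes

/-! Abelian varieties over the algebraic numbers in their normalised theta model
`exp_A : ℂ^g → A(ℂ) ⊂ ℙ^N(ℂ)`, `z ↦ (Θ_0(z) : … : Θ_N(z))`, with periods and quasi-periods. -/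

namespace Pool.Agent.CMQ

open MvPolynomial

/-- `Θ` is the exponential map of an abelian variety `A ⊂ ℙ^N` over the algebraic numbers,
written in an algebraic basis of its Lie algebra, `Λ` is the lattice of periods and `η l` is the
linear part of the factor of automorphy, so that `η l (e_j)` is the quasi-period of
`ζ_j = ∂_j log Θ_0` along `l`. -/
structure IsTheta {g N : ℕ} (Θ : Fin (N + 1) → (Fin g → ℂ) → ℂ) (Λ : AddSubgroup (Fin g → ℂ))
    (η : (Fin g → ℂ) → (Fin g → ℂ) →ₗ[ℂ] ℂ) : Prop where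
  /-- the `Θ i` are entire -/
  hol : ∀ i z, AnalyticAt ℂ (Θ i) z
  /-- without common zero -/
  ne : ∀ z, ∃ i, Θ i z ≠ 0
  /-- `Λ` is a lattice -/
  lat : ∃ b : Module.Basis (Fin (2 * g)) ℝ (Fin g → ℂ), Λ = AddSubgroup.closure (Set.range b)
  /-- the `Θ i` are theta functions of one type for `Λ` -/
  quasi : ∀ l ∈ Λ, ∃ c : ℂ, ∀ i z, Θ i (z + l) = Complex.exp (η l z + c) * Θ i z
  /-- the addition formula, of bidegree `(2, 2)` with algebraic coefficients -/
  law : ∀ i j, ∃ a : Fin (N + 1) → Fin (N + 1) → Fin (N + 1) → Fin (N + 1) → ℂ,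
    (∀ p q r s, IsAlgebraic ℚ (a p q r s)) ∧ ∀ z w, Θ i (z + w) * Θ j (z - w) =
      ∑ p, ∑ q, ∑ r, ∑ s, a p q r s * (Θ p z * Θ q z * (Θ r w * Θ s w))
  /-- the origin lies in the chart `X₀ ≠ 0` -/
  ne0 : Θ 0 0 ≠ 0
  /-- the values at the origin are algebraic -/
  jet0 : ∀ i, IsAlgebraic ℚ (Θ i 0)
  /-- so are the first derivatives -/
  jet1 : ∀ i j, IsAlgebraic ℚ (fderiv ℂ (Θ i) 0 (Pi.single j 1))
  /-- and the second derivatives -/
  jet2 : ∀ i j k, IsAlgebraic ℚ
    (fderiv ℂ (fun z => fderiv ℂ (Θ i) z (Pi.single j 1)) 0 (Pi.single k 1))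
  /-- the differential at the origin is injective -/
  imm : Function.Injective (fderiv ℂ (fun z i => Θ i z / Θ 0 z) 0)

/-- the periods of the first and second kind: the integrals of `dz_j` and `dζ_j` along `Λ` -/
def Per {g : ℕ} (Λ : AddSubgroup (Fin g → ℂ)) (η : (Fin g → ℂ) → (Fin g → ℂ) →ₗ[ℂ] ℂ) : Set ℂ :=
  {x | ∃ l ∈ Λ, ∃ j, x = l j ∨ x = η l (Pi.single j 1)}

/-- the field generated by the quotients of two periods -/
noncomputable def ratioField {g : ℕ} (Λ : AddSubgroup (Fin g → ℂ))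
    (η : (Fin g → ℂ) → (Fin g → ℂ) →ₗ[ℂ] ℂ) : IntermediateField ℚ ℂ :=
  IntermediateField.adjoin ℚ {x | ∃ y ∈ Per Λ η, ∃ z ∈ Per Λ η, x = y / z}

end Pool.Agent.CMQ
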