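import Mathlib.Algebra.Module.ZLattice.Basic
import Mathlib.Algebra.MvPolynomial.Funext
import Pool.Agent.MP_cbf1af_ag.shp.Ops
import Pool.Agent.MP_cbf1af_ag.cmp.Liou

-- ======== part 0: formerly Pool.Agent.MP_cbf1af_ag.cmp2.Der
section MrgPart0

/-! ZERO2, row DER: logarithmic derivatives are forms with algebraic coefficients. -/

namespace Pool.Agent.CMQ

open MvPolynomial Filter Topology
open Pool.Agent.CMP (Qb Quad DiffSys fn)

noncomputable section

namespace DerAux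

variable {g : ℕ}

theorem an_dir {f : (Fin g → ℂ) → ℂ} (hf : ∀ z, AnalyticAt ℂ f z) (v z : Fin g → ℂ) :
    AnalyticAt ℂ (fun z => fderiv ℂ f z v) z :=
  ((ContinuousLinearMap.apply ℂ ℂ v).analyticAt _).comp (hf z).fderiv

theorem d_pair {f h : (Fin g → ℂ) → ℂ} (hf : ∀ z, AnalyticAt ℂ f z) (hh : ∀ z, AnalyticAt ℂ h z)
    (z w : Fin g → ℂ) : HasFDerivAt (fun w => f (z + w) * h (z - w))
      (h (z - w) • fderiv ℂ f (z + w) - f (z + w) • fderiv ℂ h (z - w)) w := by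
  have h1 := (hf (z + w)).differentiableAt.hasFDerivAt.comp w ((hasFDerivAt_id w).const_add z)
  have h2 := (hh (z - w)).differentiableAt.hasFDerivAt.comp w ((hasFDerivAt_id w).const_sub z)
  refine (h1.fun_mul h2).congr_fderiv (ContinuousLinearMap.ext fun v => ?_)
  simp
  ring

theorem d_mul {f h : (Fin g → ℂ) → ℂ} (hf : ∀ z, AnalyticAt ℂ f z) (hh : ∀ z, AnalyticAt ℂ h z)
    (w : Fin g → ℂ) : HasFDerivAt (fun w => f w * h w)
      (f w • fderiv ℂ h w + h w • fderiv ℂ f w) w :=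
  (hf w).differentiableAt.hasFDerivAt.fun_mul (hh w).differentiableAt.hasFDerivAt

theorem d_sum {ι : Type} [Fintype ι] (c : ι → ι → ι → ι → ℂ) (F : ι → ι → (Fin g → ℂ) → ℂ)
    (F' : ι → ι → (Fin g → ℂ) →L[ℂ] ℂ) (w : Fin g → ℂ) (x : ι → ℂ)
    (h : ∀ r s, HasFDerivAt (F r s) (F' r s) w) (v : Fin g → ℂ) :
    fderiv ℂ (fun w => ∑ p, ∑ q, ∑ r, ∑ s, c p q r s * (x p * x q * F r s w)) w v =
      ∑ p, ∑ q, ∑ r, ∑ s, c p q r s * (x p * x q * F' r s v) := by
  have : HasFDerivAt (fun w => ∑ p, ∑ q, ∑ r, ∑ s, c p q r s * (x p * x q * F r s w))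
      (∑ p, ∑ q, ∑ r, ∑ s, c p q r s • ((x p * x q) • F' r s)) w :=
    HasFDerivAt.fun_sum fun p _ => HasFDerivAt.fun_sum fun q _ => HasFDerivAt.fun_sum fun r _ =>
      HasFDerivAt.fun_sum fun s _ => ((h r s).const_mul _).const_mul _
  rw [this.fderiv]
  simp only [_root_.sum_apply, _root_.smul_apply, smul_eq_mul]

theorem form {n : ℕ} (c : Fin n → Fin n → Fin n → Fin n → ℂ) (b : Fin n → Fin n → ℂ)
    (hc : ∀ p q r s, IsAlgebraic ℚ (c p q r s)) (hb : ∀ r s, IsAlgebraic ℚ (b r s)) :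
    ∃ Q : MvPolynomial (Fin n) Qb, Q.IsHomogeneous 2 ∧ ∀ x : Fin n → ℂ,
      ∑ p, ∑ q, ∑ r, ∑ s, c p q r s * (x p * x q * b r s) = aeval x Q := by
  refine ⟨∑ p, ∑ q, ∑ r, ∑ s, C ⟨c p q r s * b r s,
    mem_algebraicClosure_iff.2 ((hc p q r s).mul (hb r s))⟩ * (X p * X q), ?_, fun x => ?_⟩
  · refine IsHomogeneous.sum _ _ _ fun p _ => IsHomogeneous.sum _ _ _ fun q _ =>
      IsHomogeneous.sum _ _ _ fun r _ => IsHomogeneous.sum _ _ _ fun s _ => ?_
    exact ((isHomogeneous_X _ p).mul (isHomogeneous_X _ q)).C_mul _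
  · simp only [map_sum, map_mul, aeval_C, aeval_X]
    refine Finset.sum_congr rfl fun p _ => Finset.sum_congr rfl fun q _ =>
      Finset.sum_congr rfl fun r _ => Finset.sum_congr rfl fun s _ => ?_
    change _ = c p q r s * b r s * _
    ring

theorem first {n : ℕ} {Θ : Fin n → (Fin g → ℂ) → ℂ} (hol : ∀ i z, AnalyticAt ℂ (Θ i) z)
    {i j : Fin n} {a : Fin n → Fin n → Fin n → Fin n → ℂ}
    (law : ∀ z w, Θ j (z + w) * Θ i (z - w) =
      ∑ p, ∑ q, ∑ r, ∑ s, a p q r s * (Θ p z * Θ q z * (Θ r w * Θ s w))) (v z w : Fin g → ℂ) :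
    fderiv ℂ (Θ j) (z + w) v * Θ i (z - w) - Θ j (z + w) * fderiv ℂ (Θ i) (z - w) v =
      ∑ p, ∑ q, ∑ r, ∑ s, a p q r s * (Θ p z * Θ q z *
        (Θ r w * fderiv ℂ (Θ s) w v + Θ s w * fderiv ℂ (Θ r) w v)) := by
  have h1 := d_sum a (fun r s w => Θ r w * Θ s w) _ w (fun p => Θ p z)
    (fun r s => d_mul (hol r) (hol s) w) v
  have h2 : (fun w => ∑ p, ∑ q, ∑ r, ∑ s, a p q r s * (Θ p z * Θ q z * (Θ r w * Θ s w))) =
      fun w => Θ j (z + w) * Θ i (z - w) := funext fun w => (law z w).symm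
  rw [h2, (d_pair (hol j) (hol i) z w).fderiv] at h1
  simp only [_root_.sub_apply, _root_.add_apply,
    _root_.smul_apply, smul_eq_mul] at h1
  rw [← h1, mul_comm]

theorem aeval_div {n : ℕ} {Q : MvPolynomial (Fin n) Qb} (hQ : Q.IsHomogeneous 2) (x : Fin n → ℂ)
    (b : ℂ) : aeval (fun i => x i / b) Q = aeval x Q / b ^ 2 := by
  have := CMP.eval_smul_homog (hQ.map (algebraMap Qb ℂ)) b⁻¹ x
  rw [aeval_def, aeval_def, ← eval_map, ← eval_map, div_eq_inv_mul, ← inv_pow, ← this]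
  simp only [div_eq_inv_mul]

theorem d_div {f h : (Fin g → ℂ) → ℂ} (hf : ∀ z, AnalyticAt ℂ f z) (hh : ∀ z, AnalyticAt ℂ h z)
    {z : Fin g → ℂ} (hz : h z ≠ 0) (v : Fin g → ℂ) :
    fderiv ℂ (fun z => f z / h z) z v = (fderiv ℂ f z v * h z - f z * fderiv ℂ h z v) / h z ^ 2 := by
  have h1 := (hf z).differentiableAt.hasFDerivAt.fun_mul
    ((hasDerivAt_inv hz).comp_hasFDerivAt z (hh z).differentiableAt.hasFDerivAt)
  have e : (fun z => f z / h z) = fun z => f z * ((fun y => y⁻¹) ∘ h) z := by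
    funext y
    simp [div_eq_mul_inv]
  rw [e, h1.fderiv]
  simp only [_root_.add_apply, _root_.smul_apply, smul_eq_mul,
    Function.comp]
  field_simp
  ring

end DerAux

open DerAux

theorem pair : PairStmt := by
  intro g N Θ Λ η h
  refine ⟨fun i j k => ?_, fun i j k => ?_⟩
  · obtain ⟨a, ha, law⟩ := h.law j i
    obtain ⟨Q, hQ, hQ'⟩ := form a (fun r s => Θ r 0 * fderiv ℂ (Θ s) 0 (Pi.single k 1) +
      Θ s 0 * fderiv ℂ (Θ r) 0 (Pi.single k 1)) ha
      fun r s => ((h.jet0 r).mul (h.jet1 s k)).add ((h.jet0 s).mul (h.jet1 r k))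
    refine ⟨Q, hQ, fun z => ?_⟩
    rw [← hQ', ← first h.hol law, add_zero, sub_zero]
  · obtain ⟨a, ha, law⟩ := h.law i i
    let d : Fin (N + 1) → (Fin g → ℂ) → ℂ := fun r z => fderiv ℂ (Θ r) z (Pi.single j 1)
    have hd : ∀ r z, AnalyticAt ℂ (d r) z := fun r => an_dir (h.hol r) _
    have two : IsAlgebraic ℚ (2⁻¹ : ℂ) := by
      simpa using isAlgebraic_algebraMap (R := ℚ) (A := ℂ) 2⁻¹
    obtain ⟨Q, hQ, hQ'⟩ := form (fun p q r s => 2⁻¹ * a p q r s) (fun r s =>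
      (Θ r 0 * fderiv ℂ (d s) 0 (Pi.single k 1) + d s 0 * fderiv ℂ (Θ r) 0 (Pi.single k 1)) +
      (Θ s 0 * fderiv ℂ (d r) 0 (Pi.single k 1) + d r 0 * fderiv ℂ (Θ s) 0 (Pi.single k 1)))
      (fun p q r s => two.mul (ha p q r s)) fun r s =>
        (((h.jet0 r).mul (h.jet2 s j k)).add ((h.jet1 s j).mul (h.jet1 r k))).add
        (((h.jet0 s).mul (h.jet2 r j k)).add ((h.jet1 r j).mul (h.jet1 s k)))
    refine ⟨Q, hQ, fun z => ?_⟩
    have h1 := d_sum a (fun r s w => Θ r w * d s w + Θ s w * d r w) _ 0 (fun p => Θ p z)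
      (fun r s => (d_mul (h.hol r) (hd s) 0).fun_add (d_mul (h.hol s) (hd r) 0)) (Pi.single k 1)
    have h2 : (fun w => ∑ p, ∑ q, ∑ r, ∑ s, a p q r s * (Θ p z * Θ q z *
        (Θ r w * d s w + Θ s w * d r w))) =
        fun w => d i (z + w) * Θ i (z - w) - Θ i (z + w) * d i (z - w) :=
      funext fun w => (first h.hol law _ z w).symm
    rw [h2, ((d_pair (hd i) (h.hol i) z 0).fun_sub (d_pair (h.hol i) (hd i) z 0)).fderiv] at h1
    simp only [_root_.sub_apply, _root_.add_apply,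
      _root_.smul_apply, smul_eq_mul, add_zero, sub_zero] at h1
    rw [← hQ']
    simp only [mul_assoc (2⁻¹ : ℂ), ← Finset.mul_sum]
    rw [← h1]
    simp only [d]
    ring

theorem der : PairStmt → DerStmt := by
  intro hp g N Θ Λ η h
  obtain ⟨h1, h2⟩ := hp g N Θ Λ η h
  choose Q hQ hQ' using h1 0
  choose R hR hR' using h2 0
  have hev : ∀ᶠ z in 𝓝 (0 : Fin g → ℂ), Θ 0 z ≠ 0 := (h.hol 0 0).continuousAt.eventually_ne h.ne0
  have hc : ∀ (z : Fin g → ℂ) (y : Fin g → ℂ),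
      Fin.append (fn Θ z) y ∘ Fin.castAdd g = fun i => Θ i z / Θ 0 z := fun z y =>
    funext fun i => Fin.append_left _ _ i
  refine ⟨fun i => ?_, fun i => ?_, fun i k => Fin.addCases
    (fun i => rename (Fin.castAdd g) (Q i k)) (fun j => rename (Fin.castAdd g) (R j k)) i,
    fun i k => ?_⟩
  · refine Fin.addCases (fun i => ?_) (fun j => ?_) i
    · simp only [Fin.append_left]
      exact (h.hol i 0).div (h.hol 0 0) h.ne0
    · simp only [Fin.append_right]
      exact (an_dir (h.hol 0) _ 0).div (h.hol 0 0) h.ne0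
  · refine Fin.addCases (fun i => ?_) (fun j => ?_) i
    · simp only [Fin.append_left, fn, div_eq_mul_inv]
      exact (h.jet0 i).mul (h.jet0 0).inv
    · simp only [Fin.append_right, div_eq_mul_inv]
      exact (h.jet1 0 j).mul (h.jet0 0).inv
  · refine Fin.addCases (fun i => ?_) (fun j => ?_) i
    · filter_upwards [hev] with z hz
      simp only [Fin.append_left, Fin.addCases_left, aeval_rename, hc, fn]
      rw [aeval_div (hQ i k), ← hQ', d_div (h.hol i) (h.hol 0) hz]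
    · filter_upwards [hev] with z hz
      simp only [Fin.append_right, Fin.addCases_right, aeval_rename, hc]
      rw [aeval_div (hR j k), ← hR', d_div (an_dir (h.hol 0) _) (h.hol 0) hz]

end

end Pool.Agent.CMQ

end MrgPart0

-- ======== part 1: formerly Pool.Agent.MP_cbf1af_ag.cmp2.Form
section MrgPart1

/-! FORM: forms in the projective coordinates are sections, and the operators
`∂_(ℓ k) + n v_k` act on sections. -/

namespace Pool.Agent.CMQ

open MvPolynomial Filter Topology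
open Pool.Agent.CMP (analyticAt_eval eval_smul_homog analyticAt_dir Qb)

noncomputable section

variable {g N e : ℕ} {Θ : Fin (N + 1) → (Fin g → ℂ) → ℂ} {Λ : AddSubgroup (Fin g → ℂ)}
  {η : (Fin g → ℂ) → (Fin g → ℂ) →ₗ[ℂ] ℂ} {ℓ : Fin e → Fin g → ℂ}

namespace Form

/-- a polynomial in the coordinates of the chart `i` -/
def PP (Θ : Fin (N + 1) → (Fin g → ℂ) → ℂ) (ℓ : Fin e → Fin g → ℂ) (i : Fin (N + 1))
    (f : GE g e → ℂ) : Prop :=
  ∃ Q : MvPolynomial (Fin (N + 1) ⊕ Fin e) ℂ, ∀ p : GE g e, Θ i p.1 ≠ 0 →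
    f p = eval (ch Θ ℓ i p) Q

namespace PP

variable {i : Fin (N + 1)} {f f' : GE g e → ℂ}

theorem congr (h : PP Θ ℓ i f) (hf : ∀ p, Θ i p.1 ≠ 0 → f' p = f p) : PP Θ ℓ i f' :=
  h.imp fun _ hQ p hp => (hf p hp).trans (hQ p hp)

theorem poly (Q : MvPolynomial (Fin (N + 1) ⊕ Fin e) ℂ) :
    PP Θ ℓ i fun p => eval (ch Θ ℓ i p) Q := ⟨Q, fun _ _ => rfl⟩

theorem const (c : ℂ) : PP Θ ℓ i fun _ => c := ⟨C c, fun _ _ => by simp⟩

theorem coord (j : Fin (N + 1) ⊕ Fin e) : PP Θ ℓ i fun p => ch Θ ℓ i p j :=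
  ⟨X j, fun _ _ => by simp⟩

theorem add (h : PP Θ ℓ i f) (h' : PP Θ ℓ i f') : PP Θ ℓ i fun p => f p + f' p := by
  obtain ⟨Q, hQ⟩ := h
  obtain ⟨Q', hQ'⟩ := h'
  exact ⟨Q + Q', fun p hp => by rw [map_add, ← hQ p hp, ← hQ' p hp]⟩

theorem mul (h : PP Θ ℓ i f) (h' : PP Θ ℓ i f') : PP Θ ℓ i fun p => f p * f' p := by
  obtain ⟨Q, hQ⟩ := h
  obtain ⟨Q', hQ'⟩ := h'
  exact ⟨Q * Q', fun p hp => by rw [map_mul, ← hQ p hp, ← hQ' p hp]⟩

theorem sum {κ : Type} (s : Finset κ) {f : κ → GE g e → ℂ} (h : ∀ k, PP Θ ℓ i (f k)) :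
    PP Θ ℓ i fun p => ∑ k ∈ s, f k p := by
  choose Q hQ using h
  exact ⟨∑ k ∈ s, Q k, fun p hp => by
    rw [map_sum]; exact Finset.sum_congr rfl fun k _ => hQ k p hp⟩

theorem subst {σ : Type} {f : σ → GE g e → ℂ} (h : ∀ j, PP Θ ℓ i (f j)) (P : MvPolynomial σ ℂ) :
    PP Θ ℓ i fun p => eval (fun j => f j p) P := by
  induction P using MvPolynomial.induction_on with
  | C a => simpa using const a
  | add p q hp hq => simpa using hp.add hq
  | mul_X p j hp => simpa using hp.mul (h j)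

theorem quad {Q : MvPolynomial (Fin (N + 1)) Qb} (hQ : Q.IsHomogeneous 2) :
    PP Θ ℓ i fun p => aeval (fun m => Θ m p.1) Q / Θ i p.1 ^ 2 := by
  refine (subst (fun j => coord (Sum.inl j)) (map (algebraMap Qb ℂ) Q)).congr fun p hp => ?_
  have h := eval_smul_homog (hQ.map (algebraMap Qb ℂ)) (Θ i p.1) fun j => ch Θ ℓ i p (Sum.inl j)
  have hx : (fun j => Θ i p.1 * ch Θ ℓ i p (Sum.inl j)) = fun m => Θ m p.1 := by
    funext j
    simp only [ch, Sum.elim_inl]
    field_simp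
  rw [hx, eval_map, ← aeval_def] at h
  rw [h]
  field_simp

end PP

theorem lin (φ : (Fin g → ℂ) →L[ℂ] ℂ) (y : Fin g → ℂ) : φ y = ∑ k, y k * φ (Pi.single k 1) := by
  conv_lhs => rw [pi_eq_sum_univ' y, map_sum]
  simp only [map_smul, smul_eq_mul]

theorem slice {F : GE g e → ℂ} {p : GE g e} (hF : DifferentiableAt ℂ F p) (y : Fin g → ℂ) :
    fderiv ℂ F p (y, 0) = fderiv ℂ (fun z => F (z, p.2)) p.1 y := by
  have h := HasFDerivAt.comp p.1 (g := F) (f := fun z => (z, p.2)) hF.hasFDerivAt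
    (hasFDerivAt_prodMk_left p.1 p.2)
  rw [show (fun z => F (z, p.2)) = F ∘ fun z => (z, p.2) from rfl, h.fderiv]
  rfl

theorem pp1 (hP : PairStmt) (h : IsTheta Θ Λ η) (i j : Fin (N + 1)) (y : Fin g → ℂ) :
    PP Θ ℓ i fun p =>
      (fderiv ℂ (Θ j) p.1 y * Θ i p.1 - Θ j p.1 * fderiv ℂ (Θ i) p.1 y) / Θ i p.1 ^ 2 := by
  choose Q h1 h2 using (hP g N Θ Λ η h).1 i j
  refine (PP.sum Finset.univ fun k => (PP.const (y k)).mul (PP.quad (h1 k))).congr fun p _ => ?_
  rw [lin (fderiv ℂ (Θ j) p.1) y, lin (fderiv ℂ (Θ i) p.1) y, Finset.sum_mul, Finset.mul_sum,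
    ← Finset.sum_sub_distrib, Finset.sum_div]
  refine Finset.sum_congr rfl fun k _ => ?_
  rw [← h2]
  ring

theorem pp2 (hP : PairStmt) (h : IsTheta Θ Λ η) (i : Fin (N + 1)) (x y : Fin g → ℂ) :
    PP Θ ℓ i fun p => (fderiv ℂ (fun z => fderiv ℂ (Θ i) z x) p.1 y * Θ i p.1 -
      fderiv ℂ (Θ i) p.1 x * fderiv ℂ (Θ i) p.1 y) / Θ i p.1 ^ 2 := by
  choose Q h1 h2 using (hP g N Θ Λ η h).2 i
  refine (PP.sum Finset.univ fun j => PP.sum Finset.univ fun k =>
    (PP.const (x j * y k)).mul (PP.quad (h1 j k))).congr fun p _ => ?_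
  have e1 : (fun z => fderiv ℂ (Θ i) z x) =
      fun z => ∑ j, x j * fderiv ℂ (Θ i) z (Pi.single j 1) := funext fun z => lin _ x
  have hd : ∀ j, DifferentiableAt ℂ (fun z => fderiv ℂ (Θ i) z (Pi.single j 1)) p.1 :=
    fun j => (analyticAt_dir (h.hol i p.1) _).differentiableAt
  have e2 : fderiv ℂ (fun z => fderiv ℂ (Θ i) z x) p.1 y =
      ∑ j, x j * fderiv ℂ (fun z => fderiv ℂ (Θ i) z (Pi.single j 1)) p.1 y := by
    rw [e1, (HasFDerivAt.fun_sum fun j _ => (hd j).hasFDerivAt.const_mul (x j)).fderiv]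
    simp
  rw [e2, lin (fderiv ℂ (Θ i) p.1) x, Finset.sum_mul, Finset.sum_mul, ← Finset.sum_sub_distrib,
    Finset.sum_div]
  refine Finset.sum_congr rfl fun j _ => ?_
  rw [lin (fderiv ℂ (Θ i) p.1) y, lin (fderiv ℂ (fun z => fderiv ℂ (Θ i) z (Pi.single j 1)) p.1) y]
  simp only [Finset.mul_sum, Finset.sum_mul]
  rw [← Finset.sum_sub_distrib, Finset.sum_div]
  refine Finset.sum_congr rfl fun k _ => ?_
  rw [← h2]
  ring

theorem pp_xt (hP : PairStmt) (h : IsTheta Θ Λ η) (i : Fin (N + 1))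
    (j : Fin (N + 1) ⊕ Fin e × Fin (N + 1)) : PP Θ ℓ i fun p => xt Θ ℓ j p / Θ i p.1 := by
  rcases j with j | ⟨k, j⟩
  · exact PP.coord (Sum.inl j)
  · refine ((pp1 hP h i j (ℓ k)).add ((PP.coord (Sum.inl j)).mul (PP.coord (Sum.inr k)))).congr
      fun p hp => ?_
    simp only [xt, ch, Sum.elim_inl, Sum.elim_inr]
    field_simp
    ring

theorem chart (hP : PairStmt) (h : IsTheta Θ Λ η) {n : ℕ}
    {P : MvPolynomial (Fin (N + 1) ⊕ Fin e × Fin (N + 1)) ℂ} (hn : P.IsHomogeneous n)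
    (i : Fin (N + 1)) : ∃ Q : MvPolynomial (Fin (N + 1) ⊕ Fin e) ℂ, ∀ p : GE g e, Θ i p.1 ≠ 0 →
      eval (fun j => xt Θ ℓ j p) P = Θ i p.1 ^ n * eval (ch Θ ℓ i p) Q := by
  obtain ⟨Q, hQ⟩ := PP.subst (pp_xt (ℓ := ℓ) hP h i) P
  refine ⟨Q, fun p hp => ?_⟩
  rw [← hQ p hp, ← eval_smul_homog hn]
  congr 2
  funext j
  field_simp

theorem an_form (h : IsTheta Θ Λ η) {n : ℕ}
    {P : MvPolynomial (Fin (N + 1) ⊕ Fin e × Fin (N + 1)) ℂ} (hn : P.IsHomogeneous n) :
    An Θ Λ η ℓ n n fun p => eval (fun j => xt Θ ℓ j p) P := by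
  have hx : ∀ j, An Θ Λ η ℓ 1 1 (xt Θ ℓ j) := by
    rintro (j | k)
    exacts [(An.theta h j).mono zero_le_one, An.xi h k]
  simp only [eval_eq]
  refine An.sum _ fun m hm => An.smul _ ?_
  have hd : ∑ j ∈ m.support, m j * 1 = n := by
    have := hn (mem_support_iff.1 hm)
    rw [← this, Finsupp.weight_apply, Finsupp.sum]
    simp
  have := An.prod m.support fun j _ => (hx j).pow (m j)
  rwa [hd] at this

theorem pp_dch (hP : PairStmt) (h : IsTheta Θ Λ η) (i : Fin (N + 1)) (y : Fin g → ℂ)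
    (j : Fin (N + 1) ⊕ Fin e) : PP Θ ℓ i fun p => fderiv ℂ (fun p => ch Θ ℓ i p j) p (y, 0) := by
  have hd : ∀ j z, HasFDerivAt (Θ j) (fderiv ℂ (Θ j) z) z := fun j z =>
    (h.hol j z).differentiableAt.hasFDerivAt
  rcases j with j | k
  · refine (pp1 hP h i j y).congr fun p hp => ?_
    rw [slice (h.analyticAt_ch' ℓ hp _).differentiableAt]
    have := ((hd j p.1).fun_mul ((hasDerivAt_inv hp).comp_hasFDerivAt p.1 (hd i p.1))).fderiv
    simp only [ch, Sum.elim_inl, div_eq_mul_inv]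
    simp only [Function.comp_def] at this
    rw [this]
    simp
    field_simp
    ring
  · refine (pp2 hP h i (ℓ k) y).congr fun p hp => ?_
    rw [slice (h.analyticAt_ch' ℓ hp _).differentiableAt]
    have := (((analyticAt_dir (h.hol i p.1) (ℓ k)).differentiableAt.hasFDerivAt.fun_add
      ((hd i p.1).const_mul (p.2 k))).fun_mul
      ((hasDerivAt_inv hp).comp_hasFDerivAt p.1 (hd i p.1))).fderiv
    simp only [ch, xt, Sum.elim_inr, div_eq_mul_inv]
    simp only [Function.comp_def] at this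
    rw [this]
    simp
    field_simp
    ring

theorem diff_poly (h : IsTheta Θ Λ η) {i : Fin (N + 1)} {p : GE g e} (hp : Θ i p.1 ≠ 0)
    (Q : MvPolynomial (Fin (N + 1) ⊕ Fin e) ℂ) :
    DifferentiableAt ℂ (fun p => eval (ch Θ ℓ i p) Q) p :=
  (analyticAt_eval (h.analyticAt_ch' ℓ hp) Q).differentiableAt

theorem pp_d (hP : PairStmt) (h : IsTheta Θ Λ η) (i : Fin (N + 1)) (y : Fin g → ℂ)
    (Q : MvPolynomial (Fin (N + 1) ⊕ Fin e) ℂ) :
    PP Θ ℓ i fun p => fderiv ℂ (fun p => eval (ch Θ ℓ i p) Q) p (y, 0) := by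
  induction Q using MvPolynomial.induction_on with
  | C a => simpa using PP.const 0
  | add P Q hP' hQ =>
    refine (hP'.add hQ).congr fun p hp => ?_
    simp only [map_add]
    rw [fderiv_fun_add (diff_poly h hp P) (diff_poly h hp Q)]
    rfl
  | mul_X Q j hQ =>
    refine (((PP.poly Q).mul (pp_dch hP h i y j)).add ((PP.coord j).mul hQ)).congr fun p hp => ?_
    simp only [map_mul, eval_X]
    rw [fderiv_fun_mul (diff_poly h hp Q) (h.analyticAt_ch' ℓ hp j).differentiableAt]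
    rfl

variable {n δ : ℕ} {F : GE g e → ℂ}

theorem rat_nabla (hP : PairStmt) (h : IsTheta Θ Λ η) (hF : Cl Θ Λ η ℓ n δ F) (k : Fin e) :
    Rat Θ ℓ n fun p => fderiv ℂ F p (ℓ k, 0) + n * p.2 k * F p := by
  intro p₀ i hi
  obtain ⟨a, P, ha, hP'⟩ := hF.2 p₀ i hi
  obtain ⟨a', ha'⟩ := pp_d (ℓ := ℓ) hP h i (ℓ k) a
  obtain ⟨P', hP''⟩ := pp_d (ℓ := ℓ) hP h i (ℓ k) P
  refine ⟨a * a, a * (C (n : ℂ) * X (Sum.inr k) * P + P') - a' * P, by simpa using ha,
    fun p hp => ?_⟩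
  have e1 : (fun p => eval (ch Θ ℓ i p) a * F p) =ᶠ[𝓝 p]
      fun p => Θ i p.1 ^ n * eval (ch Θ ℓ i p) P :=
    (h.eventually_ne hp).mono fun q hq => hP' q hq
  have hT : HasFDerivAt (fun p : GE g e => Θ i p.1)
      ((fderiv ℂ (Θ i) p.1).comp (ContinuousLinearMap.fst ℂ _ _)) p :=
    (h.hol i p.1).differentiableAt.hasFDerivAt.comp p hasFDerivAt_fst
  have e2 := e1.fderiv_eq (𝕜 := ℂ)
  rw [fderiv_fun_mul (diff_poly h hp a) (hF.analyticAt p).differentiableAt,
    ((hT.pow n).fun_mul (diff_poly h hp P).hasFDerivAt).fderiv] at e2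
  have e3 := congrArg (fun φ : GE g e →L[ℂ] ℂ => φ (ℓ k, 0)) e2
  simp only [_root_.add_apply, _root_.smul_apply, smul_eq_mul,
    ContinuousLinearMap.comp_apply, ContinuousLinearMap.coe_fst', nsmul_eq_mul] at e3
  have e4 := ha' p hp
  have e5 := hP'' p hp
  simp only at e4 e5
  rw [e4, e5] at e3
  have e6 : ch Θ ℓ i p (Sum.inr k) * Θ i p.1 = fderiv ℂ (Θ i) p.1 (ℓ k) + p.2 k * Θ i p.1 := by
    simp only [ch, xt, Sum.elim_inr]
    field_simp
  have e7 : (n : ℂ) * Θ i p.1 ^ (n - 1) * Θ i p.1 = n * Θ i p.1 ^ n := by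
    cases n with
    | zero => simp
    | succ n => rw [Nat.add_sub_cancel, pow_succ, mul_assoc]
  have e8 := hP' p hp
  simp only [map_mul, map_add, map_sub, eval_C, eval_X]
  refine mul_left_cancel₀ hp ?_
  linear_combination (Θ i p.1 * eval (ch Θ ℓ i p) a) * e3 +
    (Θ i p.1 * (n * p.2 k * eval (ch Θ ℓ i p) a - eval (ch Θ ℓ i p) a')) * e8 +
    (eval (ch Θ ℓ i p) a * eval (ch Θ ℓ i p) P * fderiv ℂ (Θ i) p.1 (ℓ k)) * e7 -
    (n * Θ i p.1 ^ n * eval (ch Θ ℓ i p) a * eval (ch Θ ℓ i p) P) * e6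

theorem an_nabla (hF : An Θ Λ η ℓ n δ F) (k : Fin e) :
    An Θ Λ η ℓ n (δ + 1) fun p => fderiv ℂ F p (ℓ k, 0) + n * p.2 k * F p := by
  classical
  obtain ⟨A, hd, hA, hA'⟩ := hF.pol
  refine ⟨⟨∑ m ∈ A.support, monomial m (fun z => fderiv ℂ (A.coeff m) z (ℓ k)) +
    C (n : (Fin g → ℂ) → ℂ) * X k * A, ?_, fun m z => ?_, fun p => ?_⟩, fun l hl c hc p => ?_⟩
  · refine (totalDegree_add _ _).trans (max_le ?_ ((totalDegree_mul _ _).trans ?_))
    · refine totalDegree_finsetSum_le fun m hm => (totalDegree_monomial_le _ _).trans ?_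
      exact ((le_totalDegree hm).trans hd).trans (Nat.le_succ δ)
    · have := totalDegree_mul (C (n : (Fin g → ℂ) → ℂ)) (X k)
      rw [totalDegree_C, totalDegree_X] at this
      omega
  · rw [coeff_add, mul_assoc, coeff_C_mul, coeff_X_mul', coeff_sum]
    refine AnalyticAt.add (Finset.analyticAt_sum _ fun m' _ => ?_) (analyticAt_const.mul ?_)
    · rw [coeff_monomial]
      split_ifs
      exacts [analyticAt_dir (hA m' z) _, analyticAt_const]
    · split_ifs
      exacts [hA _ z, analyticAt_const]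
  · rw [eval₂_add, eval₂_mul, eval₂_mul, eval₂_C, eval₂_X, ← hA', eval₂_sum,
      slice (hF.analyticAt p).differentiableAt]
    have e1 : (fun z => F (z, p.2)) =
        fun z => ∑ m ∈ A.support, A.coeff m z * m.prod fun i k => p.2 i ^ k := by
      funext z
      rw [hA', eval₂_eq]
      rfl
    rw [e1, (HasFDerivAt.fun_sum fun m _ =>
      (hA m p.1).differentiableAt.hasFDerivAt.mul_const _).fderiv]
    simp [eval₂_monomial, mul_comm]
  · rw [slice (hF.analyticAt _).differentiableAt, slice (hF.analyticAt _).differentiableAt,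
      hF.aut l hl c hc]
    have d1 : ∀ q : GE g e, DifferentiableAt ℂ (fun z => F (z, q.2)) q.1 := fun q =>
      DifferentiableAt.comp q.1 (g := F) (f := fun z => (z, q.2))
        (hF.analyticAt _).differentiableAt (by fun_prop)
    have h1 := (hasFDerivAt_comp_add_right l).2
      (d1 (p.1 + l, fun k => p.2 k - η l (ℓ k))).hasFDerivAt
    have h2 := (((((LinearMap.toContinuousLinearMap (η l)).hasFDerivAt (x := p.1)).add_const
      c).const_mul (n : ℂ)).cexp).fun_mul (d1 p).hasFDerivAt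
    have h3 : (fun z => F (z + l, fun k => p.2 k - η l (ℓ k))) =
        fun z => Complex.exp (n * (η l z + c)) * F (z, p.2) := funext fun z => by
      rw [Complex.exp_nat_mul]; exact hF.aut l hl c hc (z, p.2)
    simp only at h1 ⊢
    rw [h3] at h1
    rw [h1.unique h2, ← Complex.exp_nat_mul]
    simp
    ring

end Form

open Form

theorem form (hP : PairStmt) : FormStmt := fun _ _ _ _ _ h _ _ =>
  ⟨fun _ _ hn => ⟨⟨an_form h hn, Rat.of_poly (chart hP h hn)⟩, chart hP h hn⟩,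
    fun _ _ _ k hF => ⟨an_nabla hF.1 k, rat_nabla hP h hF k⟩⟩

end

end Pool.Agent.CMQ

end MrgPart1

-- ======== part 2: formerly Pool.Agent.MP_cbf1af_ag.cmp2.Hilb
section MrgPart2

/-! Row HILB of the zero estimate: Hilbert bounds on the vector extension. -/

namespace Pool.Agent.CMQ

open MvPolynomial Filter Topology

noncomputable section

namespace HilbAux

theorem small (C : ℕ) : (C : ℝ) * Real.exp (-((C + 1 : ℕ) : ℝ) ^ 2) ≤ 1 / 2 := by
  have h0 : (0 : ℝ) ≤ C := Nat.cast_nonneg C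
  have h1 : 2 * (C : ℝ) ≤ Real.exp (((C + 1 : ℕ) : ℝ) ^ 2) := by
    have := Real.add_one_le_exp (((C + 1 : ℕ) : ℝ) ^ 2)
    push_cast at this ⊢
    nlinarith
  rw [Real.exp_neg, ← div_eq_mul_inv, div_le_iff₀ (Real.exp_pos _)]
  linarith

theorem per_bdd {g : ℕ} (b : Module.Basis (Fin (2 * g)) ℝ (Fin g → ℂ)) (φ : (Fin g → ℂ) → ℝ)
    (hc : Continuous φ) (hp : ∀ i z, φ (z + b i) = φ z) : BddAbove (Set.range φ) := by
  have h1 : ∀ l ∈ Submodule.span ℤ (Set.range b), ∀ z, φ (z + l) = φ z := by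
    intro l hl
    induction hl using Submodule.span_induction with
    | mem x hx => obtain ⟨i, rfl⟩ := hx; exact hp i
    | zero => simp
    | add x y _ _ hx hy => intro z; rw [← add_assoc, hy, hx]
    | smul n x _ hx =>
      intro z
      induction n using Int.induction_on generalizing z with
      | zero => simp
      | succ n ih => rw [add_smul, one_smul, ← add_assoc, hx, ih]
      | pred n ih =>
        rw [← hx (z + (-(n : ℤ) - 1) • x), ← ih z]
        congr 1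
        rw [sub_smul, one_smul]; abel
  obtain ⟨B, hB⟩ := (isCompact_closedBall (0 : Fin g → ℂ) (∑ i, ‖b i‖)).bddAbove_image
    hc.continuousOn
  refine ⟨B, ?_⟩
  rintro _ ⟨z, rfl⟩
  have h2 := h1 _ (ZSpan.floor b z).2 (ZSpan.fract b z)
  rw [ZSpan.fract_apply, sub_add_cancel, ← ZSpan.fract_apply] at h2
  rw [h2]
  exact hB ⟨_, mem_closedBall_zero_iff.2 (ZSpan.norm_fract_le b z), rfl⟩

/-- a theta function of weight `a` that vanishes on the grid is zero -/
theorem grid {g : ℕ} (b : Module.Basis (Fin (2 * g)) ℝ (Fin g → ℂ)) (u : (Fin g → ℂ) → ℝ)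
    (hq : CMP.Quad u) (hu : Continuous u) : ∃ C : ℕ, ∀ a : ℕ, ∃ G : Finset (Fin g → ℂ),
      G.card ≤ C * (a + 1) ^ g ∧ ∀ F : (Fin g → ℂ) → ℂ, (∀ z, AnalyticAt ℂ F z) →
        (∀ i z, ‖F (z + b i)‖ * Real.exp (-(a * u (z + b i))) = ‖F z‖ * Real.exp (-(a * u z))) →
        (∀ p ∈ G, F p = 0) → ∀ z, F z = 0 := by
  have htop : Submodule.span ℂ (Set.range b) = ⊤ := by
    refine top_unique fun x _ => ?_
    have hx : x ∈ Submodule.span ℝ (Set.range b) := by rw [b.span_eq]; trivial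
    exact Submodule.span_subset_span ℝ ℂ _ hx
  obtain ⟨C, hC, hs⟩ := CMP.samp g (2 * g) 0 u b hq b.linearIndependent (by rw [htop]; simp)
  refine ⟨C * 4 ^ g, fun n => ?_⟩
  obtain ⟨G, hG, hs⟩ := hs (Nat.sqrt n + 1) (C + 1) (by omega) (by omega)
  refine ⟨G, hG.trans ?_, fun F hF hper hFG z0 => ?_⟩
  · rw [pow_zero, mul_one, pow_mul, mul_assoc, ← mul_pow]
    refine Nat.mul_le_mul_left _ (Nat.pow_le_pow_left ?_ _)
    have h1 := Nat.sqrt_le' n
    have h2 := Nat.sqrt_le_self n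
    nlinarith
  by_contra hz0
  set φ : (Fin g → ℂ) → ℝ := fun z => ‖F z‖ * Real.exp (-(n * u z)) with hφ
  have hFc : Continuous F := continuous_iff_continuousAt.2 fun z => (hF z).continuousAt
  have hbd : BddAbove (Set.range φ) := per_bdd b φ (by rw [hφ]; fun_prop) hper
  set μ := sSup (Set.range φ) with hμ
  have hle : ∀ z, φ z ≤ μ := fun z => le_csSup hbd ⟨z, rfl⟩
  have hpos : 0 < μ := lt_of_lt_of_le
    (mul_pos (norm_pos_iff.2 hz0) (Real.exp_pos _)) (hle z0)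
  have hn : ∀ z, ‖((μ⁻¹ : ℝ) : ℂ) * F z‖ * Real.exp (-(n * u z)) = μ⁻¹ * φ z := fun z => by
    rw [norm_mul, Complex.norm_real, Real.norm_of_nonneg (inv_pos.2 hpos).le, mul_assoc]
  have key := (hs n (Real.exp (-((C + 1 : ℕ) : ℝ) ^ 2)) (fun z => ((μ⁻¹ : ℝ) : ℂ) * F z)
    (Nat.cast_nonneg n) (by exact_mod_cast (Nat.lt_succ_sqrt' n).le) le_rfl
    (fun z => analyticAt_const.mul (hF z)) (fun i z => ?_) (fun z => ?_) (fun p hp => ?_)).1
  · have h2 : μ ≤ μ / 2 := by
      refine csSup_le (Set.range_nonempty _) ?_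
      rintro _ ⟨z, rfl⟩
      have h3 := key z (by rw [b.span_eq]; trivial)
      rw [hn] at h3
      have h4 := h3.trans (small C)
      rw [inv_mul_le_iff₀ hpos] at h4
      linarith
    linarith
  · rw [hn, hn]
    congr 1
    exact hper i z
  · rw [hn]
    refine le_trans ?_ (Real.one_le_exp (by positivity))
    rw [inv_mul_le_iff₀ hpos, mul_one]
    exact hle z
  · rw [hFG p hp]
    simpa using (Real.exp_pos _).le

theorem shift_mono {σ : Type} (c : σ → ℂ) (s : σ →₀ ℕ) (a : ℂ) : ∀ d : ℕ,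
    (∀ m : σ →₀ ℕ, d ≤ m.degree → coeff m (monomial s a) = 0) → ∀ m : σ →₀ ℕ, d ≤ m.degree + 1 →
      coeff m (aeval (fun k => X k - C (c k) : σ → MvPolynomial σ ℂ) (monomial s a)) =
        coeff m (monomial s a) := by
  classical
  refine induction_on_monomial (motive := fun P => ∀ d : ℕ,
    (∀ m : σ →₀ ℕ, d ≤ m.degree → coeff m P = 0) → ∀ m : σ →₀ ℕ, d ≤ m.degree + 1 →
      coeff m (aeval (fun k => X k - C (c k) : σ → MvPolynomial σ ℂ) P) = coeff m P)
    (fun a d _ m _ => by simp) (fun p n ih d hd m hm => ?_) s a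
  have h1 : ∀ m : σ →₀ ℕ, d - 1 ≤ m.degree → coeff m p = 0 := fun m hm => by
    rw [← coeff_mul_X m n p]
    exact hd _ (by rw [map_add, Finsupp.degree_single]; omega)
  rw [map_mul, aeval_X, mul_sub, coeff_sub, mul_comm _ (C (c n)), coeff_C_mul,
    ih (d - 1) h1 m (by omega), h1 m (by omega), mul_zero, sub_zero, coeff_mul_X', coeff_mul_X']
  split_ifs with hn
  · refine ih (d - 1) h1 _ ?_
    have h2 : m - Finsupp.single n 1 + Finsupp.single n 1 = m :=
      tsub_add_cancel_of_le (Finsupp.single_le_iff.2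
        (Nat.one_le_iff_ne_zero.2 (Finsupp.mem_support_iff.1 hn)))
    have h3 := congrArg Finsupp.degree h2
    rw [map_add, Finsupp.degree_single] at h3
    omega
  · rfl

/-- a shift of the variables does not change the coefficients of top degree -/
theorem shift {σ : Type} (c : σ → ℂ) (P : MvPolynomial σ ℂ) (m : σ →₀ ℕ)
    (h : ∀ s : σ →₀ ℕ, m.degree < s.degree → coeff s P = 0) :
    coeff m (aeval (fun k => X k - C (c k) : σ → MvPolynomial σ ℂ) P) = coeff m P := by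
  classical
  conv_lhs => rw [P.as_sum]
  conv_rhs => rw [P.as_sum]
  rw [map_sum, coeff_sum, coeff_sum]
  refine Finset.sum_congr rfl fun s hs => shift_mono c s _ (m.degree + 1) (fun m' hm' => ?_) m le_rfl
  rw [coeff_monomial]
  split_ifs with h'
  · subst h'; exact h s hm'
  · rfl

theorem homog {σ : Type} (i₀ : σ) {n : ℕ} (P : MvPolynomial σ ℂ) (hP : P.totalDegree ≤ n) :
    ∃ Q : MvPolynomial σ ℂ, Q.IsHomogeneous n ∧
      ∀ x : σ → ℂ, x i₀ ≠ 0 → eval x Q = x i₀ ^ n * eval (fun i => x i / x i₀) P := by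
  refine ⟨∑ d ∈ Finset.range (P.totalDegree + 1), X i₀ ^ (n - d) * homogeneousComponent d P,
    IsHomogeneous.sum _ _ _ fun d hd => ?_, fun x hx => ?_⟩
  · have hd' : d ≤ n := by have := Finset.mem_range.1 hd; omega
    have := ((isHomogeneous_X ℂ i₀).pow (n - d)).mul (homogeneousComponent_isHomogeneous d P)
    rwa [one_mul, Nat.sub_add_cancel hd'] at this
  · conv_rhs => rw [← sum_homogeneousComponent P]
    rw [map_sum, map_sum, Finset.mul_sum]
    refine Finset.sum_congr rfl fun d hd => ?_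
    have hd' : d ≤ n := by have := Finset.mem_range.1 hd; omega
    have h := CMP.eval_smul_homog (homogeneousComponent_isHomogeneous d P) (x i₀)
      fun i => x i / x i₀
    have hx' : (fun i => x i₀ * (x i / x i₀)) = x := by
      funext i; field_simp
    rw [hx'] at h
    rw [map_mul, map_pow, eval_X, h, ← mul_assoc, ← pow_add, Nat.sub_add_cancel hd']

end HilbAux

open HilbAux in
theorem hilb (hW : WtStmt) (hF : FormStmt) : HilbStmt := by
  classical
  intro g N Θ Λ η hA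
  obtain ⟨u, L, hw⟩ := hW g N Θ Λ η hA
  obtain ⟨b, hb⟩ := hA.lat
  obtain ⟨C, hC⟩ := grid b u hw.quad hw.cont
  have hbΛ : ∀ i, b i ∈ Λ := fun i => by rw [hb]; exact AddSubgroup.subset_closure ⟨i, rfl⟩
  have main : ∀ (e : ℕ) (ℓ : Fin e → Fin g → ℂ) (a δ : ℕ) (κ : Type) [Fintype κ]
      (F : κ → GE g e → ℂ), (∀ i, An Θ Λ η ℓ a δ (F i)) →
      C * (a + 1) ^ g * (δ + 1) ^ e < Fintype.card κ →
      ∃ c : κ → ℂ, c ≠ 0 ∧ ∀ p, ∑ i, c i * F i p = 0 := by
    intro e ℓ a δ κ _ F hAn hcard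
    obtain ⟨G, hG, hz⟩ := hC a
    choose A hA1 hA2 hA3 using fun i => (hAn i).pol
    let T : (κ → ℂ) →ₗ[ℂ] ((Fin e → Fin (δ + 1)) × G → ℂ) :=
      Matrix.mulVecLin (Matrix.of fun (q : (Fin e → Fin (δ + 1)) × G) i =>
        (A i).coeff (Finsupp.equivFunOnFinite.symm fun k => (q.1 k : ℕ)) q.2)
    have hlt : Fintype.card ((Fin e → Fin (δ + 1)) × G) < Fintype.card κ := by
      refine lt_of_le_of_lt ?_ hcard
      rw [Fintype.card_prod, Fintype.card_coe, mul_comm]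
      simpa using hG
    have hker : LinearMap.ker T ≠ ⊥ := LinearMap.ker_ne_bot_of_finrank_lt (by simpa using hlt)
    obtain ⟨c, hc, hc0⟩ := Submodule.exists_mem_ne_zero_of_ne_bot hker
    refine ⟨c, hc0, ?_⟩
    let P : (Fin g → ℂ) → MvPolynomial (Fin e) ℂ := fun w =>
      ∑ i, MvPolynomial.C (c i) * map (Pi.evalRingHom (fun _ => ℂ) w) (A i)
    have hPc : ∀ w m, coeff m (P w) = ∑ i, c i * (A i).coeff m w := fun w m => by
      simp [P, coeff_sum, coeff_map]
    have hPe : ∀ p : GE g e, ∑ i, c i * F i p = eval p.2 (P p.1) := fun p => by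
      simp only [P, map_sum, map_mul, eval_C, hA3, eval_map]
    have hbig : ∀ m : Fin e →₀ ℕ, δ < m.degree → ∀ w, coeff m (P w) = 0 := fun m hm w => by
      rw [hPc]
      refine Finset.sum_eq_zero fun i _ => ?_
      rw [coeff_eq_zero_of_totalDegree_lt (lt_of_le_of_lt (hA1 i) hm)]
      simp
    have hstep : ∀ m : Fin e →₀ ℕ, m.degree ≤ δ →
        (∀ s : Fin e →₀ ℕ, m.degree < s.degree → ∀ w, coeff s (P w) = 0) →
        ∀ w, coeff m (P w) = 0 := by
      intro m hm hs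
      refine hz (fun w => coeff m (P w)) (fun z => ?_) (fun i z => ?_) (fun p hp => ?_)
      · simp only [hPc]
        exact Finset.analyticAt_fun_sum _ fun i _ => analyticAt_const.mul (hA2 i m z)
      · obtain ⟨c0, hc0⟩ := hA.quasi _ (hbΛ i)
        have h1 : aeval (fun k => X k - MvPolynomial.C (η (b i) (ℓ k)) :
            Fin e → MvPolynomial (Fin e) ℂ) (P (z + b i)) =
            MvPolynomial.C (Complex.exp (η (b i) z + c0) ^ a) * P z := by
          refine MvPolynomial.funext fun v => ?_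
          have h2 := hPe (z + b i, fun k => v k - η (b i) (ℓ k))
          have h3 := hPe (z, v)
          simp only [fun j => (hAn j).aut _ (hbΛ i) c0 hc0 (z, v)] at h2
          rw [map_mul, eval_C, ← h3, Finset.mul_sum, ← coe_aeval_eq_eval, AlgHom.coe_toRingHom,
            comp_aeval_apply]
          simp only [map_sub, aeval_X, aeval_C, Algebra.algebraMap_self, RingHom.id_apply]
          rw [← AlgHom.coe_toRingHom, coe_aeval_eq_eval, ← h2]
          exact Finset.sum_congr rfl fun j _ => by ring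
        have h4 := congrArg (coeff m) h1
        rw [shift _ _ m fun s h => hs s h _, coeff_C_mul] at h4
        rw [h4, hw.per _ (hbΛ i) c0 hc0 z, norm_mul, norm_pow, Complex.norm_exp,
          ← Real.exp_nat_mul, mul_right_comm, ← Real.exp_add, mul_comm]
        congr 2
        ring
      · have hm' : ∀ k, m k < δ + 1 := fun k =>
          Nat.lt_succ_of_le ((Finsupp.le_degree k m).trans hm)
        have := congrFun (LinearMap.mem_ker.1 hc) (fun k => ⟨m k, hm' k⟩, ⟨p, hp⟩)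
        simp only [hPc]
        simpa [T, Matrix.mulVec, dotProduct, mul_comm] using this
    have hall : ∀ j : ℕ, ∀ m : Fin e →₀ ℕ, δ < m.degree + j → ∀ w, coeff m (P w) = 0 := by
      intro j
      induction j with
      | zero => exact hbig
      | succ j ih =>
        intro m hm
        by_cases h : δ < m.degree + j
        · exact ih m h
        · exact hstep m (by omega) fun s hs => ih s (by omega)
    intro p
    have : P p.1 = 0 := MvPolynomial.ext _ _ fun m => by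
      rw [hall (δ + 1) m (by omega), coeff_zero]
    rw [hPe, this, map_zero]
  refine ⟨C, fun e ℓ => ⟨⟨C, fun d κ _ P hP hcard => ?_⟩, main e ℓ⟩⟩
  choose Q hQ1 hQ2 using fun i => homog (Sum.inl 0) (P i) (hP i)
  obtain ⟨c, hc, h⟩ := main e ℓ d d κ (fun i p => eval (fun j => xt Θ ℓ j p) (Q i))
    (fun i => ((hF g N Θ Λ η hA e ℓ).1 d (Q i) (hQ1 i)).1.1) (by rwa [mul_assoc, ← pow_add])
  refine ⟨c, hc, fun z hz => ?_⟩
  have h1 := h z
  simp only [hQ2 _ (fun j => xt Θ ℓ j z) hz] at h1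
  have h2 : xt Θ ℓ (Sum.inl 0) z ^ d *
      ∑ i, c i * eval (fun j => xt Θ ℓ j z / xt Θ ℓ (Sum.inl 0) z) (P i) = 0 := by
    rw [← h1, Finset.mul_sum]
    exact Finset.sum_congr rfl fun i _ => by ring
  exact (mul_eq_zero.1 h2).resolve_left (pow_ne_zero _ hz)

end

end Pool.Agent.CMQ

end MrgPart2

-- marker of a merged file
example : 731051 + 627526 = 731051 + 627526 := rfl
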