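import Mathlib.Data.Int.Star
import Mathlib.Algebra.Order.Ring.Star
import Mathlib.Algebra.MvPolynomial.Funext
import Mathlib.Data.Finsupp.Pointwise
import Mathlib.RingTheory.Nullstellensatz
import Mathlib.RingTheory.PiTensorProduct
import Mathlib.RingTheory.MvPolynomial.IrreducibleQuadratic
import Mathlib.Tactic.Polynomial.Basic
import Pool.Agent.MP_cbf1af_ag.cmp.Apx
import Pool.Agent.MP_cbf1af_ag.cmp.Basic
import Pool.Agent.MP_cbf1af_ag.shp.Ops

-- ======== part 0: formerly Pool.Agent.MP_cbf1af_ag.cmp.Loc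
section MrgPart0

/-! PROJECT CMP, row LOC: the local multiplicity bound. -/

namespace Pool.Agent.CMP

open MvPolynomial Filter Topology Asymptotics

noncomputable section

namespace LocM

/-- functions continuous at `0` -/
def Cts : Subalgebra ℂ (ℂ → ℂ) where
  carrier := {f | ContinuousAt f 0}
  mul_mem' hf hg := ContinuousAt.mul hf hg
  add_mem' hf hg := ContinuousAt.add hf hg
  algebraMap_mem' _ := continuousAt_const

/-- functions which are `O(τ^k)` -/
def Ok (k : ℕ) : Ideal Cts where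
  carrier := {f | (f : ℂ → ℂ) =O[𝓝 0] fun τ : ℂ => τ ^ k}
  zero_mem' := isBigO_zero _ _
  add_mem' hf hg := IsBigO.add hf hg
  smul_mem' c f hf := by
    have h1 : (c : ℂ → ℂ) =O[𝓝 0] fun _ : ℂ => (1 : ℂ) :=
      Tendsto.isBigO_one ℂ (show ContinuousAt (c : ℂ → ℂ) 0 from c.2)
    exact (h1.mul hf).congr_right fun τ => one_mul _

theorem mem_Ok {k : ℕ} {f : Cts} : f ∈ Ok k ↔ (f : ℂ → ℂ) =O[𝓝 0] fun τ : ℂ => τ ^ k := Iff.rfl

theorem Ok_mul {k l : ℕ} {f g : Cts} (hf : f ∈ Ok k) (hg : g ∈ Ok l) : f * g ∈ Ok (k + l) := by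
  rw [mem_Ok] at *
  exact (hf.mul hg).congr_right fun τ => (pow_add τ k l).symm

theorem Ok_zero (f : Cts) : f ∈ Ok 0 := by
  rw [mem_Ok]
  simpa using Tendsto.isBigO_one ℂ (show ContinuousAt (f : ℂ → ℂ) 0 from f.2)

theorem Ok_pow {f : Cts} (hf : f ∈ Ok 1) (k : ℕ) : f ^ k ∈ Ok k := by
  induction k with
  | zero => exact Ok_zero _
  | succ k ih => rw [pow_succ]; exact Ok_mul ih hf

theorem poly_zero (K : ℕ) (p : Polynomial ℂ) (hd : p.degree < K)
    (h : (fun τ => p.eval τ) =O[𝓝[≠] 0] fun τ : ℂ => τ ^ K) : p = 0 := by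
  induction K generalizing p with
  | zero =>
    by_contra hp
    rw [Polynomial.degree_eq_natDegree hp] at hd
    exact absurd hd (by norm_cast)
  | succ K ih =>
    have h0 : p.coeff 0 = 0 := by
      have t1 : Tendsto (fun τ : ℂ => τ ^ (K + 1)) (𝓝[≠] 0) (𝓝 0) := by
        have : ContinuousAt (fun τ : ℂ => τ ^ (K + 1)) 0 := by fun_prop
        simpa using this.tendsto.mono_left nhdsWithin_le_nhds
      have t2 : Tendsto (fun τ : ℂ => p.eval τ) (𝓝[≠] 0) (𝓝 (p.eval 0)) :=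
        p.continuousAt.tendsto.mono_left nhdsWithin_le_nhds
      rw [Polynomial.coeff_zero_eq_eval_zero]
      exact tendsto_nhds_unique t2 (h.trans_tendsto t1)
    have hp : p.divX * Polynomial.X = p := by
      simpa [h0] using p.divX_mul_X_add
    have hq : p.divX = 0 := by
      refine ih _ ?_ ?_
      · by_cases hp0 : p = 0
        · simp [hp0]
        · have h1 := Polynomial.degree_divX_lt hp0
          rw [Polynomial.degree_eq_natDegree hp0] at hd h1
          refine h1.trans_le ?_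
          norm_cast at hd ⊢
          omega
      · obtain ⟨C, hC⟩ := h.bound
        refine IsBigO.of_bound C ?_
        filter_upwards [hC, self_mem_nhdsWithin] with τ h1 h2
        have h3 : 0 < ‖τ‖ := norm_pos_iff.2 h2
        rw [← hp, Polynomial.eval_mul, Polynomial.eval_X, norm_mul, pow_succ, norm_mul,
          ← mul_assoc] at h1
        exact le_of_mul_le_mul_right h1 h3
    rw [← hp, hq, zero_mul]

variable {g N : ℕ} {Θ : Fin (N + 1) → (Fin g → ℂ) → ℂ} {Λ : AddSubgroup (Fin g → ℂ)}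
  {ι : Type} [Fintype ι]

/-- weighted curves -/
def gam (B : ι → Fin g → ℂ) (ω : ι → ℕ) (ξ : ι → ℂ) (τ : ℂ) : Fin g → ℂ :=
  ∑ i, (τ ^ (ω i + 1) * ξ i) • B i

theorem gam_cont (B : ι → Fin g → ℂ) (ω : ι → ℕ) (ξ : ι → ℂ) : Continuous (gam B ω ξ) := by
  unfold gam; fun_prop

theorem gam_tendsto (B : ι → Fin g → ℂ) (ω : ι → ℕ) (ξ : ι → ℂ) :
    Tendsto (gam B ω ξ) (𝓝 0) (𝓝 0) := by
  have := (gam_cont B ω ξ).tendsto 0
  simpa [gam] using this

theorem gam_bigO (B : ι → Fin g → ℂ) (ω : ι → ℕ) (ξ : ι → ℂ) :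
    gam B ω ξ =O[𝓝 0] fun τ : ℂ => τ := by
  have h1 : DifferentiableAt ℂ (gam B ω ξ) 0 := by unfold gam; fun_prop
  have h0 : gam B ω ξ 0 = 0 := by simp [gam]
  simpa [h0] using h1.isBigO_sub

/-- restriction of polynomials in the affine coordinates to a curve -/
def rho (h : IsAbelian Θ Λ) (B : ι → Fin g → ℂ) (ω : ι → ℕ) (ξ : ι → ℂ) :
    MvPolynomial (Fin (N + 1)) ℂ →ₐ[ℂ] Cts :=
  aeval fun i => ⟨fun τ => fn Θ (gam B ω ξ τ) i, by
    have h1 := (h.analyticAt_fn h.ne0 i).continuousAt.tendsto.comp (gam_tendsto B ω ξ)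
    have h0 : gam B ω ξ 0 = 0 := by simp [gam]
    show Tendsto (fun τ => fn Θ (gam B ω ξ τ) i) (𝓝 0) (𝓝 (fn Θ (gam B ω ξ 0) i))
    rw [h0]; exact h1⟩

theorem rho_apply (h : IsAbelian Θ Λ) (B : ι → Fin g → ℂ) (ω : ι → ℕ) (ξ : ι → ℂ)
    (P : MvPolynomial (Fin (N + 1)) ℂ) :
    (rho h B ω ξ P : ℂ → ℂ) = fun τ => eval (fn Θ (gam B ω ξ τ)) P := by
  induction P using MvPolynomial.induction_on with
  | C a => funext τ; simp [rho]
  | add p q hp hq => funext τ; simp [hp, hq]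
  | mul_X p i hp => funext τ; rw [map_mul, Subalgebra.coe_mul, Pi.mul_apply, hp]; simp [rho]

/-- the ideals of weighted order -/
def aa (h : IsAbelian Θ Λ) (B : ι → Fin g → ℂ) (ω : ι → ℕ) (k : ℕ) :
    Ideal (MvPolynomial (Fin (N + 1)) ℂ) := ⨅ ξ, (Ok k).comap (rho h B ω ξ)

theorem mem_aa {h : IsAbelian Θ Λ} {B : ι → Fin g → ℂ} {ω : ι → ℕ} {k : ℕ}
    {P : MvPolynomial (Fin (N + 1)) ℂ} : P ∈ aa h B ω k ↔ ∀ ξ, rho h B ω ξ P ∈ Ok k := by
  simp [aa]

theorem aa_of_bigO {h : IsAbelian Θ Λ} {B : ι → Fin g → ℂ} {ω : ι → ℕ} {k : ℕ}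
    {P : MvPolynomial (Fin (N + 1)) ℂ}
    (hP : (fun z => eval (fn Θ z) P) =O[𝓝 0] fun z => ‖z‖ ^ k) : P ∈ aa h B ω k := by
  refine mem_aa.2 fun ξ => ?_
  rw [mem_Ok, rho_apply]
  exact (hP.comp_tendsto (gam_tendsto B ω ξ)).trans ((gam_bigO B ω ξ).norm_left.pow k)

theorem aa_one (h : IsAbelian Θ Λ) (B : ι → Fin g → ℂ) (ω : ι → ℕ)
    (P : MvPolynomial (Fin (N + 1)) ℂ) (hP : eval (fn Θ 0) P = 0) : P ∈ aa h B ω 1 := by
  refine aa_of_bigO ?_
  have h1 := (analyticAt_eval (h := fn Θ) (fun i => h.analyticAt_fn h.ne0 i) P).differentiableAt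
  simpa [hP] using h1.isBigO_sub.norm_right

theorem aa_van (h : IsAbelian Θ Λ) (B : ι → Fin g → ℂ) (ω : ι → ℕ) (k : ℕ)
    (P : MvPolynomial (Fin (N + 1)) ℂ) (hP : ∀ z, Θ 0 z ≠ 0 → eval (fn Θ z) P = 0) :
    P ∈ aa h B ω k := by
  refine aa_of_bigO ((isBigO_zero _ _).congr' ?_ EventuallyEq.rfl)
  filter_upwards [h.eventually_ne] with z hz using (hP z hz).symm

theorem ord_curve {r T : ℕ} {κ : Type} [Fintype κ] (B : Fin r ⊕ κ → Fin g → ℂ)
    (F : (Fin g → ℂ) → ℂ) (hF : AnalyticAt ℂ F 0)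
    (ho : Ord (fun j => B (Sum.inl j)) (T + 1) F 0) (ξ : Fin r ⊕ κ → ℂ) :
    (fun τ => F (gam B (Sum.elim (fun _ => 0) fun _ => T) ξ τ)) =O[𝓝 0]
      fun τ : ℂ => τ ^ (T + 1) := by
  have hγt := gam_tendsto B (Sum.elim (fun _ => 0) fun _ => T) ξ
  obtain ⟨x0, hx0⟩ : ∃ x0 : Fin r → ℂ, x0 = fun j => ξ (Sum.inl j) := ⟨_, rfl⟩
  have hx : Tendsto (fun τ : ℂ => τ • x0) (𝓝 0) (𝓝 0) := by
    have : Continuous fun τ : ℂ => τ • x0 := by fun_prop
    simpa using this.tendsto 0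
  have hxO : (fun τ : ℂ => τ • x0) =O[𝓝 0] fun τ : ℂ => τ :=
    IsBigO.of_bound ‖x0‖ (Eventually.of_forall fun τ => by rw [norm_smul, mul_comm])
  obtain ⟨δ, hδ0⟩ : ∃ δ : ℂ → Fin g → ℂ, δ = fun τ => 0 + ∑ j, (τ • x0) j • B (Sum.inl j) :=
    ⟨_, rfl⟩
  have hδ : Tendsto δ (𝓝 0) (𝓝 0) := by
    have : Continuous δ := by rw [hδ0]; fun_prop
    have h2 := this.tendsto 0
    have h3 : δ 0 = 0 := by simp [hδ0]
    rwa [h3] at h2
  have h1 : (fun τ => F (δ τ)) =O[𝓝 0] fun τ : ℂ => τ ^ (T + 1) := by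
    unfold Ord at ho
    have := (ho.comp_tendsto hx).trans (hxO.norm_left.pow (T + 1))
    rw [hδ0]
    exact this
  have h2 : (fun τ => gam B (Sum.elim (fun _ => 0) fun _ => T) ξ τ - δ τ) =O[𝓝 0]
      fun τ : ℂ => τ ^ (T + 1) := by
    have : (fun τ => gam B (Sum.elim (fun _ => 0) fun _ => T) ξ τ - δ τ) =
        fun τ : ℂ => τ ^ (T + 1) • ∑ k, ξ (Sum.inr k) • B (Sum.inr k) := by
      funext τ
      simp [gam, hδ0, hx0, Fintype.sum_sum_type, Finset.smul_sum, mul_smul]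
    rw [this]
    refine IsBigO.of_bound ‖∑ k, ξ (Sum.inr k) • B (Sum.inr k)‖ (Eventually.of_forall fun τ => ?_)
    rw [norm_smul, mul_comm]
  have h3 := hF.hasStrictFDerivAt.isBigO_sub.comp_tendsto (hγt.prodMk_nhds hδ)
  exact ((h3.trans h2).add h1).congr_left fun τ => sub_add_cancel _ _

theorem aa_ord (h : IsAbelian Θ Λ) {r T E : ℕ} {κ : Type} [Fintype κ]
    (B : Fin r ⊕ κ → Fin g → ℂ) (Q : MvPolynomial (Fin (N + 1)) ℂ) (hQ : Q.IsHomogeneous E)
    (ho : Ord (fun j => B (Sum.inl j)) (T + 1) (ev Θ Q) 0) :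
    Q ∈ aa h B (Sum.elim (fun _ => 0) fun _ => T) (T + 1) := by
  refine mem_aa.2 fun ξ => ?_
  rw [mem_Ok, rho_apply]
  have h4 := ord_curve B _ (h.analyticAt_ev Q 0) ho ξ
  have hγt := gam_tendsto B (Sum.elim (fun _ => 0) fun _ => T) ξ
  generalize gam B (Sum.elim (fun _ => 0) fun _ => T) ξ = γ at h4 hγt ⊢
  have h5 : (fun τ => (Θ 0 (γ τ) ^ E)⁻¹) =O[𝓝 0] fun _ : ℂ => (1 : ℂ) :=
    Tendsto.isBigO_one ℂ ((((h.hol 0 0).continuousAt.tendsto.comp hγt).pow E).inv₀
      (pow_ne_zero E h.ne0))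
  refine (h5.mul h4).congr' ?_ (Eventually.of_forall fun τ => one_mul _)
  filter_upwards [hγt.eventually h.eventually_ne] with τ hτ
  rw [ev_eq_fn hQ hτ, inv_mul_cancel_left₀ (pow_ne_zero E hτ)]

theorem exists_ext {r : ℕ} (w : Fin r → Fin g → ℂ) (hw : LinearIndependent ℂ w) :
    ∃ (q : ℕ) (B : Module.Basis (Fin r ⊕ Fin q) ℂ (Fin g → ℂ)), r + q = g ∧
      ∀ j, B (Sum.inl j) = w j := by
  have hB : ∀ j, Module.Basis.sumExtend hw (Sum.inl j) = w j := fun j => by
    simp only [Module.Basis.sumExtend, Module.Basis.coe_reindex, Equiv.symm_symm,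
      Function.comp_apply, Module.Basis.coe_extend]
    rfl
  have hfin : Finite (Fin r ⊕ Module.Basis.sumExtendIndex hw) :=
    Module.Finite.finite_basis (Module.Basis.sumExtend hw)
  have hfin' : Finite (Module.Basis.sumExtendIndex hw) :=
    Finite.of_injective _ (Sum.inr_injective (α := Fin r))
  obtain ⟨q, ⟨e⟩⟩ := Finite.exists_equiv_fin (Module.Basis.sumExtendIndex hw)
  let B := (Module.Basis.sumExtend hw).reindex (Equiv.sumCongr (Equiv.refl _) e)
  refine ⟨q, B, ?_, fun j => by simp [B, hB]⟩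
  simpa using (Module.finrank_eq_card_basis B).symm

/-- Nullstellensatz step -/
theorem null (h : IsAbelian Θ Λ) {E n : ℕ} (J : Set (MvPolynomial (Fin (N + 1)) ℂ))
    (b : MvPolynomial (Fin (N + 1)) ℂ) (hJ : ∀ Q ∈ J, Q.IsHomogeneous E) (hb : b.IsHomogeneous n)
    (hz : ∀ y, (∀ Q ∈ J, ev Θ Q y = 0) → ev Θ b y = 0 ∨ ∃ a : ℂ, ∀ i, Θ i y = a * Θ i 0)
    (I : Ideal (MvPolynomial (Fin (N + 1)) ℂ)) (hJI : ∀ Q ∈ J, Q ∈ I)
    (hI : ∀ P, (∀ z, Θ 0 z ≠ 0 → eval (fn Θ z) P = 0) → P ∈ I) (i : Fin (N + 1)) :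
    b * (X i - C (fn Θ 0 i)) ∈ I.radical := by
  rw [← vanishingIdeal_zeroLocus_eq_radical (K := ℂ), mem_vanishingIdeal_iff]
  intro x hx
  rw [mem_zeroLocus_iff] at hx
  simp only [aeval_eq_eval] at hx ⊢
  have hx0 : x 0 = 1 := by
    have := hx _ (hI (X 0 - 1) fun z hz => by simp [fn, hz])
    simpa [sub_eq_zero] using this
  obtain ⟨S, hS, hS'⟩ := h.alg
  have hne : ∀ y : Fin (N + 1) → ℂ, y 0 = 1 → y ≠ 0 := fun y hy h0 => by simp [h0] at hy
  obtain ⟨a, z, haz⟩ := (hS' x (hne x hx0)).1 fun P hP => by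
    have := hx _ (hI (map (algebraMap Qb ℂ) P) fun z hz => by
      rw [eval_map, ← aeval_def]
      exact (hS' (fn Θ z) (hne _ (by simp [fn, hz]))).2
        ⟨(Θ 0 z)⁻¹, z, fun i => by simp [fn, div_eq_inv_mul]⟩ P hP)
    rwa [eval_map, ← aeval_def] at this
  have hxe : x = fun i => a * Θ i z := funext haz
  have ha : a ≠ 0 := by
    rintro rfl
    simp [hxe] at hx0
  have hev : ∀ {m : ℕ} {P : MvPolynomial (Fin (N + 1)) ℂ}, P.IsHomogeneous m →
      eval x P = a ^ m * ev Θ P z := fun hP => by rw [hxe, eval_smul_homog hP, ev]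
  rcases hz z (fun Q hQ => by
    have := hx Q (hJI Q hQ)
    rw [hev (hJ Q hQ)] at this
    exact (mul_eq_zero.1 this).resolve_left (pow_ne_zero _ ha)) with h1 | ⟨a', h1⟩
  · rw [map_mul, hev hb, h1]; simp
  · have h2 : a * (a' * Θ 0 0) = 1 := by rw [← h1, ← haz, hx0]
    have h3 : x i = fn Θ 0 i := by
      rw [haz, h1, fn, eq_div_iff h.ne0]
      linear_combination Θ i 0 * h2
    simp [h3]

theorem reduce {M : ℕ} (c : Fin M → ℂ) (e : ℕ) (I : Ideal (MvPolynomial (Fin M) ℂ))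
    (hI : ∀ i, (X i - C (c i)) ^ e ∈ I) (P : MvPolynomial (Fin M) ℂ) :
    ∃ P0 : MvPolynomial (Fin M) ℂ, P0.totalDegree ≤ M * e ∧ P - P0 ∈ I := by
  have key : ∀ P' : MvPolynomial (Fin M) ℂ, ∃ P0 : MvPolynomial (Fin M) ℂ,
      P0.totalDegree ≤ M * e ∧ aeval (fun i => (X i - C (c i) : MvPolynomial (Fin M) ℂ)) P' - P0 ∈ I := by
    intro P'
    induction P' using MvPolynomial.induction_on' with
    | monomial m a =>
      rw [aeval_monomial, Finsupp.prod_fintype _ _ (by simp)]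
      by_cases hm : ∀ i, m i ≤ e
      · refine ⟨_, ?_, by rw [sub_self]; exact I.zero_mem⟩
        refine (totalDegree_mul _ _).trans ?_
        rw [algebraMap_eq, totalDegree_C, zero_add]
        refine (totalDegree_finsetProd _ _).trans ?_
        refine (Finset.sum_le_sum (g := fun _ => e) fun i _ => ?_).trans (by simp)
        refine (totalDegree_pow _ _).trans ?_
        have : (X i - C (c i) : MvPolynomial (Fin M) ℂ).totalDegree ≤ 1 :=
          (totalDegree_sub _ _).trans (by simp)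
        calc _ ≤ e * 1 := Nat.mul_le_mul (hm i) this
          _ = e := mul_one e
      · push Not at hm
        obtain ⟨i, hi⟩ := hm
        refine ⟨0, by simp, ?_⟩
        rw [sub_zero]
        refine I.mul_mem_left _ (I.mem_of_dvd ?_ (hI i))
        exact (pow_dvd_pow _ hi.le).trans
          (Finset.dvd_prod_of_mem (fun i => (X i - C (c i)) ^ m i) (Finset.mem_univ i))
    | add p q hp hq =>
      obtain ⟨p0, hp1, hp2⟩ := hp
      obtain ⟨q0, hq1, hq2⟩ := hq
      refine ⟨p0 + q0, (totalDegree_add _ _).trans (max_le hp1 hq1), ?_⟩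
      rw [map_add, add_sub_add_comm]
      exact I.add_mem hp2 hq2
  have h1 : (aeval fun i => (X i - C (c i) : MvPolynomial (Fin M) ℂ)).comp
      (aeval fun i => (X i + C (c i) : MvPolynomial (Fin M) ℂ)) = AlgHom.id ℂ _ := by
    refine MvPolynomial.algHom_ext fun i => ?_
    simp
  have h2 := key (aeval (fun i => (X i + C (c i) : MvPolynomial (Fin M) ℂ)) P)
  rwa [← AlgHom.comp_apply, h1, AlgHom.id_apply] at h2

theorem descend {σ : Type} (a : ℕ → Ideal (MvPolynomial σ ℂ)) (h0 : ∀ P, P ∈ a 0)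
    (hm : ∀ k l P Q, P ∈ a k → Q ∈ a l → P * Q ∈ a (k + l)) {T E d : ℕ}
    (J : Set (MvPolynomial σ ℂ)) (hJ : ∀ Q ∈ J, Q.totalDegree ≤ E ∧ Q ∈ a T)
    (hr : ∀ k P, ∃ P0 : MvPolynomial σ ℂ, P0.totalDegree ≤ d ∧ P - P0 ∈ Ideal.span J ⊔ a k)
    (i : ℕ) (P : MvPolynomial σ ℂ) :
    ∃ P0 : MvPolynomial σ ℂ, P0.totalDegree ≤ d + i * E ∧ P - P0 ∈ a (i * T) := by
  induction i generalizing P with
  | zero => exact ⟨0, by simp, by simpa using h0 P⟩
  | succ i ih =>
    have key : ∀ x ∈ Ideal.span J, ∀ R, ∃ P0 : MvPolynomial σ ℂ,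
        P0.totalDegree ≤ d + (i + 1) * E ∧ R * x - P0 ∈ a ((i + 1) * T) := by
      intro x hx
      induction hx using Submodule.span_induction with
      | mem Q hQ =>
        intro R
        obtain ⟨R0, h1, h2⟩ := ih R
        refine ⟨R0 * Q, (totalDegree_mul _ _).trans ?_, ?_⟩
        · have := (hJ Q hQ).1
          rw [Nat.succ_mul]; omega
        · rw [← sub_mul, Nat.succ_mul]
          exact hm _ _ _ _ h2 (hJ Q hQ).2
      | zero => exact fun R => ⟨0, by simp, by simp⟩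
      | add x y _ _ hx hy =>
        intro R
        obtain ⟨p0, hp1, hp2⟩ := hx R
        obtain ⟨q0, hq1, hq2⟩ := hy R
        refine ⟨p0 + q0, (totalDegree_add _ _).trans (max_le hp1 hq1), ?_⟩
        rw [mul_add, add_sub_add_comm]
        exact Ideal.add_mem _ hp2 hq2
      | smul c x _ hx =>
        intro R
        rw [smul_eq_mul, ← mul_assoc]
        exact hx _
    obtain ⟨P0, h1, h2⟩ := hr ((i + 1) * T) P
    obtain ⟨x, hx, y, hy, hxy⟩ := Submodule.mem_sup.1 h2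
    obtain ⟨P1, h3, h4⟩ := key x hx 1
    refine ⟨P0 + P1, (totalDegree_add _ _).trans (max_le (by omega) h3), ?_⟩
    have : P - (P0 + P1) = (1 * x - P1) + y := by linear_combination -hxy
    rw [this]
    exact Ideal.add_mem _ h4 hy

/-- independence of the weighted monomials -/
theorem count (hA : ApxStmt) (h : IsAbelian Θ Λ) (B : Module.Basis ι ℂ (Fin g → ℂ)) (ω s : ι → ℕ)
    {K d C0 : ℕ} (hK : ∑ i, (ω i + 1) * s i < K)
    (hr : ∀ P, ∃ P0 : MvPolynomial (Fin (N + 1)) ℂ, P0.totalDegree ≤ d ∧ P - P0 ∈ aa h B ω K)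
    (hH : ∀ (ι : Type) [Fintype ι] (P : ι → MvPolynomial (Fin (N + 1)) ℂ),
      (∀ i, (P i).totalDegree ≤ d) → C0 < Fintype.card ι →
      ∃ c : ι → ℂ, c ≠ 0 ∧ ∀ z, Θ 0 z ≠ 0 → ∑ i, c i * eval (fn Θ z) (P i) = 0) :
    ∏ i, s i ≤ C0 := by
  classical
  by_contra hlt
  push Not at hlt
  choose L hL using fun i => hA g N Θ Λ h (LinearMap.toContinuousLinearMap (B.coord i)) K
  choose P hP1 hP2 using fun α : (i : ι) → Fin (s i) => hr (∏ i, L i ^ (α i : ℕ))
  obtain ⟨c, hc, hc0⟩ := hH _ P hP1 (by simpa using hlt)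
  apply hc
  have h1 : ∑ α, C (c α) * P α ∈ aa h B ω K :=
    aa_van h B ω K _ fun z hz => by simpa using hc0 z hz
  have h2 : ∑ α : (i : ι) → Fin (s i), C (c α) * ∏ i, L i ^ (α i : ℕ) ∈ aa h B ω K := by
    have := Ideal.add_mem _ h1 (Ideal.sum_mem (aa h B ω K) (t := Finset.univ)
      fun α _ => Ideal.mul_mem_left _ (C (c α)) (hP2 α))
    rw [← Finset.sum_add_distrib] at this
    convert this using 2 with α
    ring
  have h3 : ∀ ξ : ι → ℂ, ∑ α : (i : ι) → Fin (s i), c α * ∏ i, ξ i ^ (α i : ℕ) = 0 := by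
    intro ξ
    let m : ι → Cts := fun i => ⟨fun τ => τ ^ (ω i + 1) * ξ i, by
      show ContinuousAt (fun τ : ℂ => τ ^ (ω i + 1) * ξ i) 0
      fun_prop⟩
    have hm : ∀ i, Ideal.Quotient.mk (Ok K) (rho h B ω ξ (L i)) = Ideal.Quotient.mk (Ok K) (m i) := by
      intro i
      rw [Ideal.Quotient.eq, mem_Ok, Subalgebra.coe_sub, rho_apply]
      refine (((hL i).comp_tendsto (gam_tendsto B ω ξ)).trans
        ((gam_bigO B ω ξ).norm_left.pow K)).congr_left fun τ => ?_
      simp [m, gam, Finsupp.single_apply]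
    have h4 : ∑ α : (i : ι) → Fin (s i), algebraMap ℂ Cts (c α) * ∏ i, m i ^ (α i : ℕ) ∈ Ok K := by
      have := mem_aa.1 h2 ξ
      rw [← Ideal.Quotient.eq_zero_iff_mem] at this ⊢
      simpa only [map_sum, map_mul, map_prod, map_pow, hm, algHom_C] using this
    let p : Polynomial ℂ := ∑ α : (i : ι) → Fin (s i),
      Polynomial.monomial (∑ i, (ω i + 1) * (α i : ℕ)) (c α * ∏ i, ξ i ^ (α i : ℕ))
    have hp : p = 0 := by
      refine poly_zero K p ?_ ?_
      · refine (Polynomial.degree_sum_le _ _).trans_lt ?_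
        rw [Finset.sup_lt_iff (by simp)]
        intro α _
        refine (Polynomial.degree_monomial_le _ _).trans_lt ?_
        norm_cast
        exact (Finset.sum_le_sum fun i _ => Nat.mul_le_mul_left _ (α i).2.le).trans_lt hK
      · refine ((mem_Ok.1 h4).mono nhdsWithin_le_nhds).congr_left fun τ => ?_
        simp only [p, m, Polynomial.eval_finsetSum, Polynomial.eval_monomial,
          AddSubmonoidClass.coe_finsetSum, Finset.sum_apply, Subalgebra.coe_mul, Pi.mul_apply,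
          SubmonoidClass.coe_finsetProd, Finset.prod_apply, SubmonoidClass.coe_pow, Pi.pow_apply]
        refine Finset.sum_congr rfl fun α _ => ?_
        simp only [mul_pow, ← pow_mul, Finset.prod_mul_distrib, Finset.prod_pow_eq_pow_sum]
        simp [mul_comm, mul_left_comm]
    have := congrArg (Polynomial.eval 1) hp
    simpa [p, Polynomial.eval_finsetSum] using this
  let F : ((i : ι) → Fin (s i)) → ι →₀ ℕ := fun α => Finsupp.equivFunOnFinite.symm fun i => α i
  have hF : Function.Injective F := fun α β hαβ => by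
    have := Finsupp.equivFunOnFinite.symm.injective hαβ
    funext i
    exact Fin.ext (congrFun this i)
  have h5 : ∑ α, monomial (F α) (c α) = 0 := by
    refine MvPolynomial.funext fun ξ => ?_
    rw [map_zero, ← h3 ξ, map_sum]
    refine Finset.sum_congr rfl fun α _ => ?_
    rw [eval_monomial, Finsupp.prod_fintype _ _ (by simp)]
    simp [F]
  funext α
  have := congrArg (coeff (F α)) h5
  simpa [coeff_sum, coeff_monomial, hF.eq_iff] using this

end LocM

open LocM in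
theorem loc (hA : ApxStmt) : LocStmt := by
  intro g N Θ Λ h ⟨C0, hC0⟩
  refine ⟨C0 * (g + 2) ^ g, fun r w T E n J b hw hT hJ hb hb0 hz => ?_⟩
  obtain ⟨T, rfl⟩ : ∃ T', T = T' + 1 := ⟨T - 1, by omega⟩
  obtain ⟨q, B, hg, hB⟩ := exists_ext w hw
  let ω : Fin r ⊕ Fin q → ℕ := Sum.elim (fun _ => 0) fun _ => T
  let I0 : Ideal (MvPolynomial (Fin (N + 1)) ℂ) := Ideal.span J ⊔ ⨅ k, aa h B ω k
  choose e he using fun i => null h J b (fun Q hQ => (hJ Q hQ).1) hb hz I0
    (fun Q hQ => Ideal.mem_sup_left (Ideal.subset_span hQ))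
    (fun P hP => Ideal.mem_sup_right (Ideal.mem_iInf.2 fun k => aa_van h B ω k P hP)) i
  have hmul : ∀ k l P Q, P ∈ aa h B ω k → Q ∈ aa h B ω l → P * Q ∈ aa h B ω (k + l) :=
    fun k l P Q hP hQ => mem_aa.2 fun ξ => by
      rw [map_mul]; exact Ok_mul (mem_aa.1 hP ξ) (mem_aa.1 hQ ξ)
  have hb1 : eval (fn Θ 0) b ≠ 0 := fun h0 => hb0 (by rw [ev_eq_fn hb h.ne0, h0, mul_zero])
  have hy : ∀ k i, (X i - C (fn Θ 0 i)) ^ (∑ i, e i) ∈ Ideal.span J ⊔ aa h B ω k := by
    intro k i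
    refine Ideal.mem_of_dvd _ (pow_dvd_pow _ (Finset.single_le_sum (f := e)
      (fun _ _ => Nat.zero_le _) (Finset.mem_univ i))) ?_
    let u : MvPolynomial (Fin (N + 1)) ℂ := C ((eval (fn Θ 0) b ^ e i)⁻¹) * b ^ e i
    have h1 : 1 - u ∈ aa h B ω 1 := aa_one h B ω _ (by simp [u, hb1])
    have h2 : (1 - u) ^ k ∈ aa h B ω k := mem_aa.2 fun ξ => by
      rw [map_pow]; exact Ok_pow (mem_aa.1 h1 ξ) k
    obtain ⟨v, hv⟩ := one_sub_dvd_one_sub_pow (1 - u) k
    have h3 : (X i - C (fn Θ 0 i)) ^ e i =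
        (C ((eval (fn Θ 0) b ^ e i)⁻¹) * v) * (b * (X i - C (fn Θ 0 i))) ^ e i +
          (X i - C (fn Θ 0 i)) ^ e i * (1 - u) ^ k := by
      rw [mul_pow]
      linear_combination (X i - C (fn Θ 0 i)) ^ e i * hv
    have hle : I0 ≤ Ideal.span J ⊔ aa h B ω k := sup_le_sup_left (iInf_le _ k) _
    rw [h3]
    exact Ideal.add_mem _ (Ideal.mul_mem_left _ _ (hle (he i)))
      (Ideal.mem_sup_right (Ideal.mul_mem_left _ _ h2))
  set d := (N + 1) * ∑ i, e i with hd
  have hdes := descend (aa h B ω) (fun P => mem_aa.2 fun ξ => Ok_zero _) hmul (T := T + 1)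
    (E := E) (d := d) J (fun Q hQ => ⟨(hJ Q hQ).1.totalDegree_le, aa_ord h B Q (hJ Q hQ).1
      (by simpa only [hB] using (hJ Q hQ).2)⟩)
    (fun k P => reduce (fn Θ 0) _ _ (hy k) P) (g * (d + 1) + 1)
  have hc := count hA h B ω (Sum.elim (fun _ => (d + 1) * (T + 1)) fun _ => d + 1)
    (K := (g * (d + 1) + 1) * (T + 1)) ?_ hdes (hC0 _)
  · simp only [Fintype.prod_sum_type, Sum.elim_inl, Sum.elim_inr, Finset.prod_const,
      Finset.card_univ, Fintype.card_fin] at hc
    have h1 : d + (g * (d + 1) + 1) * E + 1 ≤ (d + 1) * ((g + 2) * (E + 1)) := by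
      nlinarith [Nat.zero_le (d * E), Nat.zero_le (d * g), Nat.zero_le (d * g * E)]
    have h2 : (d + 1) ^ g * (T + 1) ^ r ≤ (d + 1) ^ g * (C0 * (g + 2) ^ g * (E + 1) ^ g) := by
      calc (d + 1) ^ g * (T + 1) ^ r = ((d + 1) * (T + 1)) ^ r * (d + 1) ^ q := by
            rw [← hg, pow_add, mul_pow, mul_right_comm]
        _ ≤ _ := hc
        _ ≤ C0 * ((d + 1) * ((g + 2) * (E + 1))) ^ g :=
            Nat.mul_le_mul_left _ (Nat.pow_le_pow_left h1 g)
        _ = _ := by rw [mul_pow, mul_pow]; ring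
    exact Nat.le_of_mul_le_mul_left h2 (by positivity)
  · simp only [ω, Fintype.sum_sum_type, Sum.elim_inl, Sum.elim_inr, Finset.sum_const,
      Finset.card_univ, Fintype.card_fin, smul_eq_mul]
    rw [← hg]
    nlinarith

end

end Pool.Agent.CMP

end MrgPart0

-- ======== part 1: formerly Pool.Agent.MP_cbf1af_ag.cmp2.Loc
section MrgPart1

/-! ZERO2, row LOC: the weighted local multiplicity bound in a chart. -/

namespace Pool.Agent.CMQ

open MvPolynomial Filter Topology Asymptotics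

noncomputable section

namespace LocM

variable {κ σ : Type} {ω : κ → ℕ} {k l : ℕ} {f f' : (κ → ℂ) → ℂ}

theorem oc_mul (h : OC ω k f) (h' : OC ω l f') : OC ω (k + l) (f * f') := fun ξ =>
  ((h ξ).mul (h' ξ)).congr_right fun τ => (pow_add τ k l).symm

theorem oc_add (h : OC ω k f) (h' : OC ω k f') : OC ω k (f + f') := fun ξ => (h ξ).add (h' ξ)

theorem oc_zero : OC ω k 0 := fun _ => isBigO_zero _ _

theorem oc_smul (c : ℂ) (h : OC ω k f) : OC ω k (c • f) := fun ξ => (h ξ).const_mul_left c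

theorem oc_sum {ι : Type} (s : Finset ι) {F : ι → (κ → ℂ) → ℂ} (h : ∀ i ∈ s, OC ω k (F i)) :
    OC ω k (∑ i ∈ s, F i) :=
  Finset.sum_induction F (OC ω k) (fun _ _ => oc_add) oc_zero h

variable [Fintype κ]

theorem curve_bigO (hω : ∀ i, 1 ≤ ω i) (ξ : κ → ℂ) :
    (fun τ : ℂ => fun i => τ ^ ω i * ξ i) =O[𝓝 0] fun τ : ℂ => τ := by
  have h1 : DifferentiableAt ℂ (fun τ : ℂ => fun i => τ ^ ω i * ξ i) 0 := by fun_prop
  have h0 : (fun i => (0 : ℂ) ^ ω i * ξ i) = 0 := funext fun i => by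
    simp [zero_pow (Nat.one_le_iff_ne_zero.1 (hω i))]
  simpa only [h0, sub_zero] using h1.isBigO_sub

theorem curve_tendsto (hω : ∀ i, 1 ≤ ω i) (ξ : κ → ℂ) :
    Tendsto (fun τ : ℂ => fun i => τ ^ ω i * ξ i) (𝓝 0) (𝓝 0) :=
  (curve_bigO hω ξ).trans_tendsto tendsto_id

theorem oc_of_bigO (hω : ∀ i, 1 ≤ ω i) (h : f =O[𝓝 0] fun x => ‖x‖ ^ k) : OC ω k f := fun ξ =>
  (h.comp_tendsto (curve_tendsto hω ξ)).trans ((curve_bigO hω ξ).norm_left.pow k)

theorem oc_congr (hω : ∀ i, 1 ≤ ω i) (h : OC ω k f) (e : f =ᶠ[𝓝 0] f') : OC ω k f' := fun ξ =>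
  (h ξ).congr' ((curve_tendsto hω ξ).eventually e) EventuallyEq.rfl

theorem oc_cont (hω : ∀ i, 1 ≤ ω i) (h : ContinuousAt f 0) : OC ω 0 f :=
  oc_of_bigO hω (by simpa using Tendsto.isBigO_one ℝ h)

variable {φ : (κ → ℂ) → σ → ℂ}

/-- polynomials as functions in the chart -/
def pi (φ : (κ → ℂ) → σ → ℂ) : MvPolynomial σ ℂ →ₐ[ℂ] ((κ → ℂ) → ℂ) := aeval fun i x => φ x i

omit [Fintype κ] in
theorem pi_apply (P : MvPolynomial σ ℂ) : pi φ P = fun x => eval (φ x) P := by
  funext x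
  have := comp_aeval_apply (f := fun i x => φ x i) (Pi.evalAlgHom ℂ (fun _ => ℂ) x) P
  simpa [aeval_eq_eval, pi] using this

variable [Fintype σ]

theorem pi_an (hφ : AnalyticAt ℂ φ 0) (P : MvPolynomial σ ℂ) : AnalyticAt ℂ (pi φ P) 0 := by
  induction P using MvPolynomial.induction_on with
  | C a => rw [algHom_C]; exact analyticAt_const
  | add p q hp hq => rw [map_add]; exact hp.add hq
  | mul_X p i hp =>
    rw [map_mul]
    refine hp.mul ?_
    rw [pi, aeval_X]
    exact analyticAt_pi_iff.1 hφ i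

/-- the ideals of weighted order -/
def aa (hω : ∀ i, 1 ≤ ω i) (hφ : AnalyticAt ℂ φ 0) (k : ℕ) : Ideal (MvPolynomial σ ℂ) where
  carrier := {P | OC ω k (pi φ P)}
  zero_mem' := by simpa using oc_zero
  add_mem' h h' := by simpa using oc_add h h'
  smul_mem' c P h := by simpa using oc_mul (oc_cont hω (pi_an hφ c).continuousAt) h

theorem reduce (c : σ → ℂ) (e : ℕ) (I : Ideal (MvPolynomial σ ℂ))
    (hI : ∀ i, (X i - C (c i)) ^ e ∈ I) :
    ∃ d, ∀ P, ∃ P0 : MvPolynomial σ ℂ, P0.totalDegree ≤ d ∧ P - P0 ∈ I := by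
  let u := Fintype.equivFin σ
  refine ⟨Fintype.card σ * e, fun P => ?_⟩
  obtain ⟨P0, h1, h2⟩ := CMP.LocM.reduce (c ∘ u.symm) e (I.comap (rename u.symm))
    (fun i => by simpa using hI (u.symm i)) (rename u P)
  refine ⟨rename u.symm P0, (totalDegree_rename_le _ _).trans h1, ?_⟩
  simpa using h2

omit [Fintype σ] in
/-- independence of the weighted monomials -/
theorem count [DecidableEq κ] (s : κ → ℕ) {K : ℕ} (hK : ∑ i, ω i * s i < K)
    (c : ((i : κ) → Fin (s i)) → ℂ)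
    (h : OC ω K (∑ α, c α • fun x => ∏ i, x i ^ (α i : ℕ))) : c = 0 := by
  have h3 : ∀ ξ : κ → ℂ, ∑ α : (i : κ) → Fin (s i), c α * ∏ i, ξ i ^ (α i : ℕ) = 0 := by
    intro ξ
    let p : Polynomial ℂ := ∑ α : (i : κ) → Fin (s i),
      Polynomial.monomial (∑ i, ω i * (α i : ℕ)) (c α * ∏ i, ξ i ^ (α i : ℕ))
    have hp : p = 0 := by
      refine CMP.LocM.poly_zero K p ?_ ?_
      · refine (Polynomial.degree_sum_le _ _).trans_lt ?_
        rw [Finset.sup_lt_iff (by simp)]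
        intro α _
        refine (Polynomial.degree_monomial_le _ _).trans_lt ?_
        norm_cast
        exact (Finset.sum_le_sum fun i _ => Nat.mul_le_mul_left _ (α i).2.le).trans_lt hK
      · refine ((h ξ).mono nhdsWithin_le_nhds).congr_left fun τ => ?_
        simp only [p, Polynomial.eval_finsetSum, Polynomial.eval_monomial, Finset.sum_apply,
          Pi.smul_apply, smul_eq_mul]
        refine Finset.sum_congr rfl fun α _ => ?_
        simp only [mul_pow, ← pow_mul, Finset.prod_mul_distrib, Finset.prod_pow_eq_pow_sum]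
        ring
    have := congrArg (Polynomial.eval 1) hp
    simpa [p, Polynomial.eval_finsetSum] using this
  let F : ((i : κ) → Fin (s i)) → κ →₀ ℕ := fun α => Finsupp.equivFunOnFinite.symm fun i => α i
  have hF : Function.Injective F := fun α β hαβ => by
    have := Finsupp.equivFunOnFinite.symm.injective hαβ
    funext i
    exact Fin.ext (congrFun this i)
  have h5 : ∑ α, monomial (F α) (c α) = 0 := by
    refine MvPolynomial.funext fun ξ => ?_
    rw [map_zero, ← h3 ξ, map_sum]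
    refine Finset.sum_congr rfl fun α _ => ?_
    rw [eval_monomial, Finsupp.prod_fintype _ _ (by simp)]
    simp [F]
  funext α
  have := congrArg (coeff (F α)) h5
  simpa [coeff_sum, coeff_monomial, hF.eq_iff] using this

/-- products of approximations -/
theorem oc_prod (hω : ∀ i, 1 ≤ ω i) {ι : Type} (s : Finset ι) {F G : ι → (κ → ℂ) → ℂ}
    (hF : ∀ i, OC ω 0 (F i)) (hG : ∀ i, OC ω 0 (G i)) (h : ∀ i, OC ω k (F i - G i)) :
    OC ω 0 (∏ i ∈ s, G i) ∧ OC ω k (∏ i ∈ s, F i - ∏ i ∈ s, G i) := by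
  classical
  induction s using Finset.induction_on with
  | empty => exact ⟨oc_cont hω continuousAt_const, by simpa using oc_zero⟩
  | insert a s ha ih =>
    rw [Finset.prod_insert ha, Finset.prod_insert ha]
    refine ⟨oc_mul (hG a) ih.1, ?_⟩
    have h1 := oc_mul (hF a) ih.2
    rw [zero_add] at h1
    convert oc_add h1 (oc_mul (h a) ih.1) using 1
    ring

end LocM

open LocM in
theorem loc (hI : IsoStmt) : LocStmt := by
  classical
  intro σ κ _ _ φ Fil g e C0 T E₁ E₂ ω J hn hφ hA hmono hmul hpol hH hT hω' hJ hz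
  have hω := fun i => (hω' i).1
  let S : Set (MvPolynomial σ ℂ) := {P | ∀ᶠ x in 𝓝 0, eval (φ x) P = 0} ∪
    {P | ∃ Q ∈ J, ∃ a, ∀ᶠ x in 𝓝 0, eval (φ x) a * Q x = eval (φ x) P}
  obtain ⟨b, hb1, hb⟩ := hI σ S (φ 0) (hz.mono fun y hy h => hy (fun P hP => h P (Or.inl hP))
    fun Q hQ a P hP => h P (Or.inr ⟨Q, hQ, a, hP⟩))
  have hrad : ∀ i, b * (X i - C (φ 0 i)) ∈ (Ideal.span S).radical := fun i => by
    rw [← vanishingIdeal_zeroLocus_eq_radical (K := ℂ), mem_vanishingIdeal_iff]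
    intro y hy
    rw [mem_zeroLocus_iff] at hy
    simp only [aeval_eq_eval] at hy ⊢
    rcases hb y fun P hP => hy P (Ideal.subset_span hP) with h | h <;> simp [h]
  choose m hm using hrad
  have hy : ∀ k i, (X i - C (φ 0 i)) ^ (∑ i, m i) ∈ Ideal.span S ⊔ aa hω hφ k := by
    intro k i
    refine Ideal.mem_of_dvd _ (pow_dvd_pow _ (Finset.single_le_sum (f := m)
      (fun _ _ => Nat.zero_le _) (Finset.mem_univ i))) ?_
    let u : MvPolynomial σ ℂ := C ((eval (φ 0) b ^ m i)⁻¹) * b ^ m i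
    have h0 : pi φ (1 - u) 0 = 0 := by simp [pi_apply, u, hb1]
    have h1 : OC ω 1 (pi φ (1 - u)) := oc_of_bigO hω (by
      simpa only [h0, sub_zero, pow_one] using
        (pi_an hφ (1 - u)).differentiableAt.isBigO_sub.norm_right)
    have h2 : (1 - u) ^ k ∈ aa hω hφ k := by
      show OC ω k _
      rw [map_pow]
      induction k with
      | zero => exact oc_cont hω continuousAt_const
      | succ k ih => rw [pow_succ]; exact oc_mul ih h1
    obtain ⟨v, hv⟩ := one_sub_dvd_one_sub_pow (1 - u) k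
    have h3 : (X i - C (φ 0 i)) ^ m i =
        (C ((eval (φ 0) b ^ m i)⁻¹) * v) * (b * (X i - C (φ 0 i))) ^ m i +
          (X i - C (φ 0 i)) ^ m i * (1 - u) ^ k := by
      rw [mul_pow]
      linear_combination (X i - C (φ 0 i)) ^ m i * hv
    rw [h3]
    exact Ideal.add_mem _ (Ideal.mul_mem_left _ _ (Ideal.mem_sup_left (hm i)))
      (Ideal.mem_sup_right (Ideal.mul_mem_left _ _ h2))
  obtain ⟨d, hr⟩ := reduce (φ 0) _ (⨅ k, Ideal.span S ⊔ aa hω hφ k)
    fun i => Ideal.mem_iInf.2 fun k => hy k i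
  have hdes : ∀ i P, ∃ f ∈ Fil (d + i * E₁) (d + i * E₂), OC ω (i * T) (pi φ P - f) := by
    intro i
    induction i with
    | zero =>
      exact fun P => ⟨0, zero_mem _, by simpa using oc_cont hω (pi_an hφ P).continuousAt⟩
    | succ i ih =>
      have key : ∀ x ∈ Ideal.span S, ∀ R, ∃ f ∈ Fil (d + (i + 1) * E₁) (d + (i + 1) * E₂),
          OC ω ((i + 1) * T) (pi φ (R * x) - f) := by
        intro x hx
        induction hx using Submodule.span_induction with
        | mem P hP =>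
          intro R
          rcases hP with hP | ⟨Q, hQ, a, hP⟩
          · refine ⟨0, zero_mem _, oc_congr hω oc_zero ?_⟩
            filter_upwards [hP] with x hx
            simp [pi_apply, hx]
          · obtain ⟨f, h1, h2⟩ := ih (R * a)
            refine ⟨f * Q, ?_, ?_⟩
            · simpa only [Nat.succ_mul, add_assoc] using hmul _ _ _ _ f h1 Q (hJ Q hQ).1
            · rw [Nat.succ_mul]
              refine oc_congr hω (oc_mul h2 (hJ Q hQ).2) ?_
              filter_upwards [hP] with x hx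
              simp only [pi_apply, map_mul, Pi.mul_apply, Pi.sub_apply, ← hx]
              ring
        | zero => exact fun R => ⟨0, zero_mem _, by simpa using oc_zero⟩
        | add x y _ _ hx hy =>
          intro R
          obtain ⟨p0, hp1, hp2⟩ := hx R
          obtain ⟨q0, hq1, hq2⟩ := hy R
          refine ⟨p0 + q0, add_mem hp1 hq1, ?_⟩
          rw [mul_add, map_add, add_sub_add_comm]
          exact oc_add hp2 hq2
        | smul c x _ hx =>
          intro R
          rw [smul_eq_mul, ← mul_assoc]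
          exact hx _
      intro P
      obtain ⟨P0, h1, h2⟩ := hr P
      obtain ⟨x, hx, y, hy, hxy⟩ := Submodule.mem_sup.1 (Ideal.mem_iInf.1 h2 ((i + 1) * T))
      obtain ⟨f, h3, h4⟩ := key x hx 1
      refine ⟨pi φ P0 + f, add_mem (hmono _ _ _ _ (Nat.le_add_right _ _) (Nat.le_add_right _ _)
        (pi_apply (φ := φ) P0 ▸ hpol d P0 h1)) h3, ?_⟩
      have : P = P0 + (1 * x + y) := by linear_combination -hxy
      convert oc_add h4 hy using 1
      rw [this, map_add, map_add]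
      ring
  set n := g + e with hn'
  let s : κ → ℕ := fun i => (d + 1) * T / ω i
  have hc : ∏ i, s i ≤ C0 * (d + (n * (d + 1) + 1) * E₁ + 1) ^ g *
      (d + (n * (d + 1) + 1) * E₂ + 1) ^ e := by
    by_contra hlt
    push Not at hlt
    choose L hL using fun i => hA i ((n * (d + 1) + 1) * T)
    choose f hf1 hf2 using fun α : (i : κ) → Fin (s i) =>
      hdes (n * (d + 1) + 1) (∏ i, ∏ _j : Fin (α i), L i)
    obtain ⟨c, hc, hc0⟩ := hH _ _ _ f hf1 (by simpa using hlt)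
    refine hc (count (ω := ω) s (K := (n * (d + 1) + 1) * T) ?_ c ?_)
    · have : ∑ i, ω i * s i ≤ n * ((d + 1) * T) := by
        rw [← hn, ← smul_eq_mul, ← Finset.card_univ, ← Finset.sum_const]
        exact Finset.sum_le_sum fun i _ => Nat.mul_div_le _ _
      nlinarith
    · have h1 : ∀ α : (i : κ) → Fin (s i), OC ω ((n * (d + 1) + 1) * T)
          ((fun x => ∏ i, x i ^ (α i : ℕ)) - f α) := fun α => by
        have h2 := (oc_prod hω (Finset.univ : Finset (Σ i, Fin (α i)))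
          (F := fun j => pi φ (L j.1)) (G := fun j x => x j.1)
          (fun j => oc_cont hω (pi_an hφ _).continuousAt)
          (fun j => oc_cont hω (continuous_apply _).continuousAt)
          (fun j => oc_of_bigO hω (by rw [pi_apply]; exact hL j.1))).2
        convert oc_add (hf2 α) (oc_smul (-1) h2) using 1
        funext x
        simp [Fintype.prod_sigma]
      refine oc_congr hω (oc_sum Finset.univ fun α _ => oc_smul (c α) (h1 α)) ?_
      filter_upwards [hc0] with x hx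
      simp [Finset.sum_apply, mul_sub, hx]
  have h1 : ∀ E, d + (n * (d + 1) + 1) * E + 1 ≤ (d + 1) * (n + 2) * (E + 1) := fun E => by
    nlinarith [Nat.zero_le (d * E), Nat.zero_le (d * n), Nat.zero_le (d * n * E)]
  have h2 : ∀ i, (d + 1) * T ≤ 2 * (s i * ω i) := fun i => by
    have h3 : 1 ≤ s i := (Nat.le_div_iff_mul_le (hω i)).2 (by nlinarith [(hω' i).2])
    have h4 : (d + 1) * T < s i * ω i + ω i := Nat.lt_div_mul_add (hω i)
    nlinarith
  refine Nat.le_of_mul_le_mul_left (c := (d + 1) ^ n) ?_ (by positivity)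
  calc (d + 1) ^ n * T ^ n = ∏ _i : κ, (d + 1) * T := by
        rw [Finset.prod_const, Finset.card_univ, hn, mul_pow]
    _ ≤ ∏ i, 2 * (s i * ω i) := Finset.prod_le_prod' fun i _ => h2 i
    _ = 2 ^ n * ((∏ i, s i) * ∏ i, ω i) := by
        rw [Finset.prod_mul_distrib, Finset.prod_mul_distrib, Finset.prod_const, Finset.card_univ,
          hn]
    _ ≤ 2 ^ n * (C0 * ((d + 1) * (n + 2) * (E₁ + 1)) ^ g * ((d + 1) * (n + 2) * (E₂ + 1)) ^ e *
          ∏ i, ω i) := by
        gcongr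
        refine hc.trans ?_
        gcongr <;> exact h1 _
    _ = _ := by simp only [hn', mul_pow, pow_add]; ring

end

end Pool.Agent.CMQ

end MrgPart1

-- marker of a merged file
example : 731051 + 194138 = 731051 + 194138 := rfl
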