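import Mathlib.Algebra.Module.ZLattice.Basic
import Mathlib.Topology.Algebra.Module.FiniteDimensionBilinear
import Pool.Agent.MP_cbf1af_ag.shp.Ops

/-! Row WT: the weight `u` and the real linear extension of the quasi-periods. -/

namespace Pool.Agent.CMQ

open Complex

namespace WtAux

variable {g N : ℕ} {Θ : Fin (N + 1) → (Fin g → ℂ) → ℂ}

/-- uniqueness of the factor of automorphy -/
theorem uniq (hne : ∀ z, ∃ i, Θ i z ≠ 0) {l : Fin g → ℂ} {φ φ' : (Fin g → ℂ) →ₗ[ℂ] ℂ} {c c' : ℂ}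
    (h : ∀ i z, Θ i (z + l) = exp (φ z + c) * Θ i z)
    (h' : ∀ i z, Θ i (z + l) = exp (φ' z + c') * Θ i z) : φ = φ' ∧ c.re = c'.re := by
  have h1 : ∀ z, (φ z).re + c.re = (φ' z).re + c'.re := fun z => by
    obtain ⟨i, hi⟩ := hne z
    have := congrArg (fun x => ‖x‖) (mul_right_cancel₀ hi ((h i z).symm.trans (h' i z)))
    simpa only [norm_exp, Real.exp_eq_exp, add_re] using this
  have h2 : c.re = c'.re := by simpa using h1 0
  refine ⟨LinearMap.ext fun z => Complex.ext (by linarith [h1 z]) ?_, h2⟩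
  have := h1 (I • z)
  simp only [map_smul, smul_eq_mul, mul_re, I_re, I_im, zero_mul, one_mul, zero_sub] at this
  linarith

/-- the Riemann relation -/
theorem two {F : (Fin g → ℂ) → ℂ} (h0 : F 0 ≠ 0) {l l' : Fin g → ℂ}
    {φ φ' : (Fin g → ℂ) →ₗ[ℂ] ℂ} {c c' : ℂ} (h : ∀ z, F (z + l) = exp (φ z + c) * F z)
    (h' : ∀ z, F (z + l') = exp (φ' z + c') * F z) : exp (φ l' - φ' l) = 1 := by
  have h1 := h l'
  have h2 := h' l
  have h3 := h' 0
  have h4 := h 0
  rw [zero_add, map_zero, zero_add] at h3 h4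
  rw [add_comm l', h2, h3, h4, ← mul_assoc, ← mul_assoc, ← exp_add, ← exp_add] at h1
  have h5 := mul_right_cancel₀ h0 h1
  have e : φ l' - φ' l = (φ l' + c + c') - (φ' l + c' + c) := by ring
  rw [e, exp_sub, h5, div_self (exp_ne_zero _)]

/-- a continuous periodic function is bounded -/
theorem bdd_of_per (b : Module.Basis (Fin (2 * g)) ℝ (Fin g → ℂ)) {F : (Fin g → ℂ) → ℝ}
    (hc : Continuous F) (hp : ∀ l ∈ AddSubgroup.closure (Set.range b), ∀ z, F (z + l) = F z) :
    ∃ C, ∀ z, F z ≤ C := by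
  obtain ⟨C, hC⟩ := (isCompact_closedBall (0 : Fin g → ℂ) (∑ i, ‖b i‖)).bddAbove_image
    hc.continuousOn
  refine ⟨C, fun z => ?_⟩
  have hm : (ZSpan.floor b z : Fin g → ℂ) ∈ AddSubgroup.closure (Set.range b) := by
    rw [← Submodule.span_int_eq_addSubgroupClosure]
    exact (ZSpan.floor b z).2
  have h1 := hp _ hm (ZSpan.fract b z)
  rw [ZSpan.fract_apply, sub_add_cancel, ← ZSpan.fract_apply] at h1
  rw [h1]
  exact hC ⟨ZSpan.fract b z, by simpa using ZSpan.norm_fract_le b z, rfl⟩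

/-- derivative of the functional equation -/
theorem dquasi {F : (Fin g → ℂ) → ℂ} (hF : ∀ z, AnalyticAt ℂ F z) {l : Fin g → ℂ}
    {φ : (Fin g → ℂ) →L[ℂ] ℂ} {c : ℂ} (h : ∀ z, F (z + l) = exp (φ z + c) * F z) (z : Fin g → ℂ) :
    fderiv ℂ F (z + l) = exp (φ z + c) • (fderiv ℂ F z + F z • φ) := by
  have h1 : HasFDerivAt (fun z => F (z + l)) (fderiv ℂ F (z + l)) z := by
    exact (hasFDerivAt_comp_add_right l).2 (hF (z + l)).differentiableAt.hasFDerivAt
  have h2 := ((φ.hasFDerivAt (x := z)).add_const c).cexp.mul (hF z).differentiableAt.hasFDerivAt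
  have h3 : (fun z => F (z + l)) = (fun z => exp (φ z + c)) * F := funext h
  rw [h3] at h1
  rw [h1.unique h2, smul_add, smul_smul, smul_smul, mul_comm]

/-- positivity of the Hermitian form -/
theorem pos_aux (hol : ∀ i z, AnalyticAt ℂ (Θ i) z) (ne0 : Θ 0 0 ≠ 0)
    (imm : Function.Injective (fderiv ℂ (fun z i => Θ i z / Θ 0 z) 0)) {y : Fin g → ℂ} {a b : ℂ}
    {C : ℝ} (h : ∀ i (τ : ℂ), ‖Θ i (τ • y)‖ * Real.exp (-(a * τ ^ 2 + b * τ).re) ≤ C) : y = 0 := by
  have hd : ∀ i, Differentiable ℂ (Θ i) := fun i z => (hol i z).differentiableAt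
  have h1 : ∀ i (τ : ℂ), Θ i (τ • y) * exp (-(a * τ ^ 2 + b * τ)) = Θ i 0 := fun i τ => by
    have e1 : Differentiable ℂ fun τ : ℂ => Θ i (τ • y) * exp (-(a * τ ^ 2 + b * τ)) := by
      have : Differentiable ℂ fun τ : ℂ => Θ i (τ • y) :=
        (hd i).comp (differentiable_id.smul_const y)
      fun_prop
    have e2 := e1.apply_eq_apply_of_bounded (isBounded_iff_forall_norm_le.2 ⟨C, by
      rintro _ ⟨τ, rfl⟩
      simpa only [norm_mul, norm_exp, neg_re] using h i τ⟩) τ 0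
    simpa using e2
  have h2 : ∀ τ : ℂ, (fun i => Θ i (τ • y) / Θ 0 (τ • y)) = fun i => Θ i 0 / Θ 0 0 := fun τ => by
    funext i
    rw [← h1 i τ, ← h1 0 τ, mul_div_mul_right _ _ (exp_ne_zero _)]
  have h3 : DifferentiableAt ℂ (fun z i => Θ i z / Θ 0 z) ((0 : ℂ) • y) := by
    rw [zero_smul]
    exact differentiableAt_pi.2 fun i => ((hol i 0).div (hol 0 0) ne0).differentiableAt
  have h4 := h3.hasFDerivAt.comp_hasDerivAt (0 : ℂ) ((hasDerivAt_id (0 : ℂ)).smul_const y)
  have h5 : ((fun z i => Θ i z / Θ 0 z) ∘ fun τ : ℂ => id τ • y) =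
      fun _ => fun i => Θ i 0 / Θ 0 0 := funext h2
  rw [h5] at h4
  have h6 := h4.unique (hasDerivAt_const _ _)
  rw [zero_smul, one_smul] at h6
  exact imm (h6.trans (map_zero _).symm)

end WtAux

open WtAux in
theorem wt : WtStmt := by
  intro g N Θ Λ η hA
  obtain ⟨b, hb⟩ := hA.lat
  have hbm : ∀ k, b k ∈ Λ := fun k => hb ▸ AddSubgroup.subset_closure ⟨k, rfl⟩
  choose c hL using fun k => hA.quasi (b k) (hbm k)
  let Lc : (Fin g → ℂ) →ₗ[ℝ] (Fin g → ℂ) →L[ℂ] ℂ :=
    b.constr ℝ fun k => LinearMap.toContinuousLinearMap (η (b k))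
  let L : (Fin g → ℂ) →ₗ[ℝ] (Fin g → ℂ) →ₗ[ℂ] ℂ := ContinuousLinearMap.coeLM ℝ ∘ₗ Lc
  have hLc : ∀ y z, L y z = Lc y z := fun _ _ => rfl
  have hLb : ∀ k z, L (b k) z = η (b k) z := fun k z => by simp [hLc, Lc]
  let β : (Fin g → ℂ) →ₗ[ℝ] (Fin g → ℂ) →ₗ[ℝ] ℝ :=
    LinearMap.mk₂ ℝ (fun y z => (L y z).re) (fun _ _ _ => by simp) (fun _ _ _ => by simp)
      (fun _ _ _ => by simp) (fun _ _ _ => by simp)
  have hβ : ∀ y z, β y z = (L y z).re := fun _ _ => rfl
  have hs0 : ∀ j k, β (b k) (b j) = β (b j) (b k) := by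
    intro j k
    have h1 := congrArg (fun x => ‖x‖) (two hA.ne0 (hL k 0) (hL j 0))
    simp only [norm_exp, norm_one, Real.exp_eq_one_iff, sub_re] at h1
    rw [hβ, hβ, hLb, hLb]
    linarith
  have hs : ∀ x y, β x y = β y x := by
    have : β = β.flip := b.ext fun k => b.ext fun j => by simpa using hs0 j k
    intro x y
    conv_lhs => rw [this]
    rfl
  let γ : (Fin g → ℂ) →ₗ[ℝ] ℝ := b.constr ℝ (fun k => (c k).re - β (b k) (b k) / 2)
  have hγ : ∀ k, γ (b k) = (c k).re - β (b k) (b k) / 2 := fun k => by simp [γ]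
  let B := β.toContinuousBilinearMap
  let u : (Fin g → ℂ) → ℝ := fun z => β z z / 2 + γ z
  have hu : ∀ p ζ, u (p + ζ) - u p = (β p ζ + γ ζ) + β ζ ζ / 2 := by
    intro p ζ
    simp only [u, map_add, LinearMap.add_apply, hs ζ p]; ring
  have per : ∀ l ∈ Λ, ∃ c : ℂ, (∀ i z, Θ i (z + l) = exp (L l z + c) * Θ i z) ∧
      ∀ z, u (z + l) = u z + (L l z + c).re := by
    intro l hl
    rw [hb] at hl
    induction hl using AddSubgroup.closure_induction with
    | mem x hx =>
      obtain ⟨k, rfl⟩ := hx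
      refine ⟨c k, fun i z => by rw [hLb, hL], fun z => ?_⟩
      have := hu z (b k)
      rw [hγ, hs z (b k), hβ (b k) z] at this
      rw [add_re]
      linarith
    | zero => exact ⟨0, by simp, by simp⟩
    | add x y _ _ hx hy =>
      obtain ⟨a, ha, ha'⟩ := hx
      obtain ⟨a', hb, hb'⟩ := hy
      refine ⟨L y x + a + a', fun i z => ?_, fun z => ?_⟩
      · rw [← add_assoc, hb, ha, ← mul_assoc, ← exp_add]
        simp only [map_add, LinearMap.add_apply]
        ring_nf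
      · rw [← add_assoc, hb', ha']
        simp only [map_add, LinearMap.add_apply, add_re]
        ring
    | neg x _ hx =>
      obtain ⟨a, ha, ha'⟩ := hx
      refine ⟨L x x - a, fun i z => ?_, fun z => ?_⟩
      · have := ha i (z + -x)
        rw [neg_add_cancel_right] at this
        rw [this, ← mul_assoc, ← exp_add]
        simp only [map_add, map_neg, LinearMap.neg_apply]
        ring_nf
        simp
      · have := ha' (z + -x)
        rw [neg_add_cancel_right] at this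
        rw [this]
        simp only [map_add, map_neg, LinearMap.neg_apply, add_re, neg_re, sub_re]
        ring
  have hcu : Continuous u := by
    have h0 : Continuous fun z => B z z := B.continuous.clm_apply continuous_id
    have h1 : Continuous fun z => β z z := h0
    exact (h1.div_const 2).add γ.continuous_of_finiteDimensional
  have hcΘ : ∀ i, Continuous (Θ i) := fun i =>
    continuous_iff_continuousAt.2 fun z => (hA.hol i z).continuousAt
  have hcD : ∀ i, Continuous (fderiv ℂ (Θ i)) := fun i =>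
    continuous_iff_continuousAt.2 fun z => (hA.hol i z).fderiv.continuousAt
  have hcL : Continuous Lc := Lc.continuous_of_finiteDimensional
  have hex : ∀ (w : ℂ) (r t : ℝ), ‖exp w‖ * r * Real.exp (-(t + w.re)) = r * Real.exp (-t) :=
    fun w r t => by
      rw [norm_exp, mul_right_comm, ← Real.exp_add, mul_comm]
      ring_nf
  obtain ⟨C, hC⟩ := bdd_of_per b (F := fun z => ∑ i,
      (‖Θ i z‖ * Real.exp (-u z) + ‖fderiv ℂ (Θ i) z - Θ i z • Lc z‖ * Real.exp (-u z)))
    (continuous_finsetSum _ fun i _ => ((hcΘ i).norm.mul hcu.neg.rexp).add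
      (((hcD i).sub ((hcΘ i).smul hcL)).norm.mul hcu.neg.rexp)) (fun l hl z => by
      obtain ⟨a, ha, ha'⟩ := per l (hb ▸ hl)
      refine Finset.sum_congr rfl fun i _ => ?_
      have e1 : fderiv ℂ (Θ i) (z + l) - Θ i (z + l) • Lc (z + l) =
          exp (L l z + a) • (fderiv ℂ (Θ i) z - Θ i z • Lc z) := by
        rw [dquasi (hA.hol i) (φ := Lc l) (c := a) (ha i) z, ha, map_add, ← hLc]
        module
      rw [e1, ha, ha', norm_mul, norm_smul, hex, hex])
  have hC' : ∀ i z, ‖Θ i z‖ * Real.exp (-u z) +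
      ‖fderiv ℂ (Θ i) z - Θ i z • Lc z‖ * Real.exp (-u z) ≤ C := fun i z =>
    (Finset.single_le_sum (f := fun i => ‖Θ i z‖ * Real.exp (-u z) +
      ‖fderiv ℂ (Θ i) z - Θ i z • Lc z‖ * Real.exp (-u z)) (fun i _ => by positivity)
      (Finset.mem_univ i)).trans (hC z)
  have hC1 : ∀ i z, ‖Θ i z‖ * Real.exp (-u z) ≤ C := fun i z =>
    (le_add_of_nonneg_right (by positivity)).trans (hC' i z)
  refine ⟨u, L, fun l hl => ?_, ⟨‖B‖ / 2, fun p => ?_⟩, hcu, fun l hl c' hc' z => ?_,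
    ⟨C, fun i z => ⟨hC1 i z, fun y => ?_⟩⟩, hs, fun l hl l' hl' => ?_, fun y hy => ?_⟩
  · obtain ⟨a, ha, -⟩ := per l hl
    obtain ⟨a', ha'⟩ := hA.quasi l hl
    exact (uniq hA.ne ha ha').1
  · refine ⟨StrongDual.extendRCLike (LinearMap.toContinuousLinearMap (β p + γ)), fun ζ => ?_⟩
    have h1 : ((StrongDual.extendRCLike (𝕜 := ℂ)
        (LinearMap.toContinuousLinearMap (β p + γ))) ζ).re = β p ζ + γ ζ :=
      StrongDual.re_extendRCLike_apply (𝕜 := ℂ) _ ζ
    rw [h1, hu, add_sub_cancel_left, abs_div, abs_two]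
    have := B.le_opNorm₂ ζ ζ
    rw [Real.norm_eq_abs] at this
    change |β ζ ζ| ≤ _ at this
    nlinarith
  · obtain ⟨a, ha, ha'⟩ := per l hl
    obtain ⟨e1, e2⟩ := uniq hA.ne ha hc'
    rw [ha', e1, add_re, add_re, e2]
  · have e1 := (fderiv ℂ (Θ i) z - Θ i z • Lc z).le_opNorm y
    have e2 : (fderiv ℂ (Θ i) z - Θ i z • Lc z) y = fderiv ℂ (Θ i) z y - L z y * Θ i z := by
      simp [hLc, mul_comm]
    rw [e2] at e1
    have e3 : ‖fderiv ℂ (Θ i) z - Θ i z • Lc z‖ * Real.exp (-u z) ≤ C :=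
      (le_add_of_nonneg_left (by positivity)).trans (hC' i z)
    calc _ ≤ ‖fderiv ℂ (Θ i) z - Θ i z • Lc z‖ * ‖y‖ * Real.exp (-u z) := by gcongr
      _ = ‖fderiv ℂ (Θ i) z - Θ i z • Lc z‖ * Real.exp (-u z) * ‖y‖ := by ring
      _ ≤ _ := by gcongr
  · obtain ⟨a, ha, -⟩ := per l hl
    obtain ⟨a', ha', -⟩ := per l' hl'
    exact exp_eq_one_iff.1 (two hA.ne0 (ha 0) (ha' 0))
  · by_contra hk
    rw [not_lt] at hk
    refine hy (pos_aux hA.hol hA.ne0 hA.imm (a := (L y y - I * L (I • y) y) / 4)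
      (b := γ y - I * γ (I • y)) (C := C) fun i τ => le_trans ?_ (hC1 i (τ • y)))
    refine mul_le_mul_of_nonneg_left (Real.exp_le_exp.2 (neg_le_neg ?_)) (norm_nonneg _)
    have e1 : τ • y = τ.re • y + τ.im • (I • y) := by
      funext j
      simp only [Pi.smul_apply, Pi.add_apply, smul_eq_mul, real_smul]
      conv_lhs => rw [← re_add_im τ]
      ring
    have e2 : L (τ • y) (τ • y) = τ * (τ.re * L y y + τ.im * L (I • y) y) := by
      rw [map_smul, smul_eq_mul]
      congr 1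
      rw [e1, map_add, map_smul, map_smul]
      simp
    have e3 : γ (τ • y) = τ.re * γ y + τ.im * γ (I • y) := by
      rw [e1, map_add, map_smul, map_smul]
      simp
    have e4 : u (τ • y) = ((L y y - I * L (I • y) y) / 4 * τ ^ 2 +
        (γ y - I * γ (I • y)) * τ).re +
        (L y y + I * L (I • y) y).re * (τ.re ^ 2 + τ.im ^ 2) / 4 := by
      simp only [u, hβ, e2, e3]
      generalize L y y = A
      generalize L (I • y) y = A'
      simp [pow_two]
      ring
    have e5 : (L y y + I * L (I • y) y).re * (τ.re ^ 2 + τ.im ^ 2) ≤ 0 :=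
      mul_nonpos_of_nonpos_of_nonneg hk (by positivity)
    linarith

end Pool.Agent.CMQ
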