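import Mathlib.RingTheory.Algebraic.Integral
import Mathlib.Topology.Algebra.Module.ModuleTopology
import Mathlib.Topology.GDelta.MetrizableSpace
import Mathlib.Analysis.Calculus.FDeriv.Mul
import Pool.Agent.MP_cbf1af_ag.cmp2.Defs
import Pool.Agent.MP_cbf1af_ag.shp.Ops
import Pool.Agent.MP_cbf1af_ag.cmp2.Wt
import Mathlib.Tactic.Polynomial.Basic
import Mathlib.AlgebraicTopology.FundamentalGroupoid.SimplyConnected
import Mathlib.Analysis.Convex.Contractible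
import Mathlib.RingTheory.RegularLocalRing.Defs
import Mathlib.SetTheory.ZFC.PSet
import Mathlib.Algebra.Order.Ring.Star
import Mathlib.Combinatorics.SimpleGraph.Basic
import Mathlib.RingTheory.MvPolynomial.IrreducibleQuadratic

-- ======== part 0: formerly Pool.Agent.MP_cbf1af_ag.shp.Segre
section MrgPart0

/-! The product of two theta models (Segre embedding). -/

namespace Pool.Agent.CMQ

open Filter Topology

noncomputable section

namespace Segre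

variable {g₁ g₂ N₁ N₂ : ℕ}

/-- first projection -/
def p₁ (g₁ g₂ : ℕ) : (Fin (g₁ + g₂) → ℂ) →L[ℂ] Fin g₁ → ℂ :=
  ContinuousLinearMap.pi fun i => ContinuousLinearMap.proj (Fin.castAdd g₂ i)

/-- second projection -/
def p₂ (g₁ g₂ : ℕ) : (Fin (g₁ + g₂) → ℂ) →L[ℂ] Fin g₂ → ℂ :=
  ContinuousLinearMap.pi fun i => ContinuousLinearMap.proj (Fin.natAdd g₁ i)

theorem eq_zero {v : Fin (g₁ + g₂) → ℂ} (h₁ : p₁ g₁ g₂ v = 0) (h₂ : p₂ g₁ g₂ v = 0) : v = 0 :=
  funext fun i => Fin.addCases (fun j => congrFun h₁ j) (fun j => congrFun h₂ j) i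

/-- a basis vector or zero -/
def Bv {g : ℕ} (v : Fin g → ℂ) : Prop := v = 0 ∨ ∃ j, v = Pi.single j 1

theorem bv_comp {g m : ℕ} (u : Fin m → Fin g) (hu : Function.Injective u) (j : Fin g) :
    Bv fun i => (Pi.single j 1 : Fin g → ℂ) (u i) := by
  by_cases h : ∃ i, u i = j
  · obtain ⟨i, rfl⟩ := h
    exact Or.inr ⟨i, funext fun k => by simp [Pi.single_apply, hu.eq_iff]⟩
  · exact Or.inl (funext fun k => Pi.single_eq_of_ne (fun hk => h ⟨k, hk⟩) _)

theorem jet1 {g N : ℕ} {Θ : Fin (N + 1) → (Fin g → ℂ) → ℂ} {Λ η} (h : IsTheta Θ Λ η) (i)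
    {v : Fin g → ℂ} (hv : Bv v) : IsAlgebraic ℚ (fderiv ℂ (Θ i) 0 v) := by
  rcases hv with rfl | ⟨j, rfl⟩
  · simpa using isAlgebraic_zero
  · exact h.jet1 i j

theorem jet2 {g N : ℕ} {Θ : Fin (N + 1) → (Fin g → ℂ) → ℂ} {Λ η} (h : IsTheta Θ Λ η) (i)
    {v w : Fin g → ℂ} (hv : Bv v) (hw : Bv w) :
    IsAlgebraic ℚ (fderiv ℂ (fun z => fderiv ℂ (Θ i) z v) 0 w) := by
  rcases hv with rfl | ⟨j, rfl⟩
  · simpa using isAlgebraic_zero
  rcases hw with rfl | ⟨k, rfl⟩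
  · simpa using isAlgebraic_zero
  · exact h.jet2 i j k

theorem an_d {g : ℕ} {A : (Fin g → ℂ) → ℂ} (hA : ∀ z, AnalyticAt ℂ A z) (v z : Fin g → ℂ) :
    AnalyticAt ℂ (fun z => fderiv ℂ A z v) z :=
  ((ContinuousLinearMap.apply ℂ ℂ v).analyticAt _).comp (hA z).fderiv

theorem hasD {A : (Fin g₁ → ℂ) → ℂ} {B : (Fin g₂ → ℂ) → ℂ} (hA : ∀ z, AnalyticAt ℂ A z)
    (hB : ∀ z, AnalyticAt ℂ B z) (z : Fin (g₁ + g₂) → ℂ) :
    AnalyticAt ℂ (fun z => A (p₁ g₁ g₂ z) * B (p₂ g₁ g₂ z)) z ∧ ∀ v,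
    fderiv ℂ (fun z => A (p₁ g₁ g₂ z) * B (p₂ g₁ g₂ z)) z v =
      fderiv ℂ A (p₁ g₁ g₂ z) (p₁ g₁ g₂ v) * B (p₂ g₁ g₂ z) +
        A (p₁ g₁ g₂ z) * fderiv ℂ B (p₂ g₁ g₂ z) (p₂ g₁ g₂ v) := by
  refine ⟨((hA _).comp ((p₁ g₁ g₂).analyticAt z)).mul ((hB _).comp ((p₂ g₁ g₂).analyticAt z)),
    fun v => ?_⟩
  have h := ((hA _).differentiableAt.hasFDerivAt.comp z (p₁ g₁ g₂).hasFDerivAt).mul
    ((hB _).differentiableAt.hasFDerivAt.comp z (p₂ g₁ g₂).hasFDerivAt)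
  rw [show fderiv ℂ (fun z => A (p₁ g₁ g₂ z) * B (p₂ g₁ g₂ z)) z = _ from h.fderiv]
  simp [mul_comm, add_comm]

theorem imm {g m N M : ℕ} {Θ : Fin (N + 1) → (Fin g → ℂ) → ℂ} {Λ η} (h : IsTheta Θ Λ η)
    (p : (Fin m → ℂ) →L[ℂ] Fin g → ℂ) (f : (Fin m → ℂ) → Fin M → ℂ)
    (hf : DifferentiableAt ℂ f 0) (u : Fin (N + 1) → Fin M)
    (hu : ∀ᶠ z in 𝓝 0, ∀ i, f z (u i) = Θ i (p z) / Θ 0 (p z)) {v : Fin m → ℂ}
    (hv : fderiv ℂ f 0 v = 0) : p v = 0 := by
  let q : (Fin M → ℂ) →L[ℂ] Fin (N + 1) → ℂ :=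
    ContinuousLinearMap.pi fun i => ContinuousLinearMap.proj (u i)
  have h1 : DifferentiableAt ℂ (fun z i => Θ i z / Θ 0 z) (p 0) := by
    rw [map_zero]
    exact differentiableAt_pi.2 fun i => ((h.hol i 0).div (h.hol 0 0) h.ne0).differentiableAt
  have h2 := (h1.hasFDerivAt.comp 0 p.hasFDerivAt).unique
    ((q.hasFDerivAt.comp 0 hf.hasFDerivAt).congr_of_eventuallyEq
      (hu.mono fun z hz => funext fun i => (hz i).symm))
  have h3 := congrArg (fun φ => φ v) h2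
  simp only [ContinuousLinearMap.comp_apply, hv, map_zero] at h3
  exact h.imm (h3.trans (map_zero _).symm)

theorem mem_lat {ι E : Type} [AddCommGroup E] [Module ℝ E] (b : Module.Basis ι ℝ E) (z : E) :
    z ∈ AddSubgroup.closure (Set.range b) ↔ ∀ i, b.repr z i ∈ Set.range (algebraMap ℤ ℝ) := by
  rw [← Submodule.span_int_eq_addSubgroupClosure, Submodule.mem_toAddSubgroup]
  exact b.mem_span_iff_repr_mem ℤ z

end Segre

open Segre in
theorem isTheta_prod {g₁ g₂ N₁ N₂ : ℕ} {Θ₁ : Fin (N₁ + 1) → (Fin g₁ → ℂ) → ℂ}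
    {Θ₂ : Fin (N₂ + 1) → (Fin g₂ → ℂ) → ℂ} {Λ₁ Λ₂ η₁ η₂} (h₁ : IsTheta Θ₁ Λ₁ η₁)
    (h₂ : IsTheta Θ₂ Λ₂ η₂) (Λ : AddSubgroup (Fin (g₁ + g₂) → ℂ))
    (η : (Fin (g₁ + g₂) → ℂ) → (Fin (g₁ + g₂) → ℂ) →ₗ[ℂ] ℂ)
    (hΛ : ∀ z, z ∈ Λ ↔ (fun i => z (Fin.castAdd g₂ i)) ∈ Λ₁ ∧ (fun i => z (Fin.natAdd g₁ i)) ∈ Λ₂)
    (hη : ∀ l ∈ Λ, ∀ z, η l z =
      η₁ (fun i => l (Fin.castAdd g₂ i)) (fun i => z (Fin.castAdd g₂ i)) +
        η₂ (fun i => l (Fin.natAdd g₁ i)) fun i => z (Fin.natAdd g₁ i)) :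
    ∃ (N : ℕ) (Θ : Fin (N + 1) → (Fin (g₁ + g₂) → ℂ) → ℂ), IsTheta Θ Λ η := by
  obtain ⟨N, e, he⟩ : ∃ (N : ℕ) (e : Fin (N + 1) ≃ Fin (N₁ + 1) × Fin (N₂ + 1)), e 0 = (0, 0) := by
    let e := (Fintype.equivFinOfCardEq (α := Fin (N₁ + 1) × Fin (N₂ + 1))
      (n := N₁ * N₂ + N₁ + N₂ + 1) (by simp; ring)).symm
    exact ⟨_, (Equiv.swap 0 (e.symm (0, 0))).trans e, by simp⟩
  have key : ∀ (F : Fin (N₁ + 1) → ℂ) (G : Fin (N₂ + 1) → ℂ),
      ∑ p, F (e p).1 * G (e p).2 = (∑ a, F a) * ∑ b, G b := fun F G => by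
    rw [e.sum_comp fun x => F x.1 * G x.2, Fintype.sum_prod_type, Finset.sum_mul_sum]
  have b₁ : ∀ j, Bv (p₁ g₁ g₂ (Pi.single j 1)) := bv_comp _ (Fin.castAdd_injective _ _)
  have b₂ : ∀ j, Bv (p₂ g₁ g₂ (Pi.single j 1)) := bv_comp _ (Fin.natAdd_injective _ _)
  have hol := fun k z => (hasD (h₁.hol (e k).1) (h₂.hol (e k).2) z).1
  have ne0 : Θ₁ (e 0).1 (p₁ g₁ g₂ 0) * Θ₂ (e 0).2 (p₂ g₁ g₂ 0) ≠ 0 := by
    simpa [he] using ⟨h₁.ne0, h₂.ne0⟩
  refine ⟨N, fun k z => Θ₁ (e k).1 (p₁ g₁ g₂ z) * Θ₂ (e k).2 (p₂ g₁ g₂ z), hol, fun z => ?_, ?_,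
    fun l hl => ?_, fun i j => ?_, ne0, fun i => ?_, fun i j => ?_, fun i j k => ?_, ?_⟩
  · obtain ⟨i, hi⟩ := h₁.ne (p₁ g₁ g₂ z)
    obtain ⟨j, hj⟩ := h₂.ne (p₂ g₁ g₂ z)
    exact ⟨e.symm (i, j), by simpa using ⟨hi, hj⟩⟩
  · obtain ⟨c₁, rfl⟩ := h₁.lat
    obtain ⟨c₂, rfl⟩ := h₂.lat
    let φ : (Fin (g₁ + g₂) → ℂ) ≃ₗ[ℝ] (Fin g₁ → ℂ) × (Fin g₂ → ℂ) :=
      (LinearEquiv.funCongrLeft ℝ ℂ finSumFinEquiv).trans
        (LinearEquiv.sumArrowLequivProdArrow _ _ ℝ ℂ)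
    let u : Fin (2 * g₁) ⊕ Fin (2 * g₂) ≃ Fin (2 * (g₁ + g₂)) :=
      finSumFinEquiv.trans (finCongr (by ring))
    refine ⟨((c₁.prod c₂).map φ.symm).reindex u, AddSubgroup.ext fun z => ?_⟩
    rw [hΛ, mem_lat, mem_lat, mem_lat, ← u.forall_congr_right, Sum.forall]
    simp only [Module.Basis.repr_reindex_apply, Equiv.symm_apply_apply, Module.Basis.map_repr,
      LinearEquiv.symm_symm, LinearEquiv.trans_apply, Module.Basis.prod_repr_inl,
      Module.Basis.prod_repr_inr]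
    rfl
  · obtain ⟨c₁, hc₁⟩ := h₁.quasi _ ((hΛ l).1 hl).1
    obtain ⟨c₂, hc₂⟩ := h₂.quasi _ ((hΛ l).1 hl).2
    refine ⟨c₁ + c₂, fun i z => ?_⟩
    rw [map_add, map_add, hη l hl, add_add_add_comm, Complex.exp_add, mul_mul_mul_comm]
    exact congrArg₂ (· * ·) (hc₁ _ _) (hc₂ _ _)
  · obtain ⟨a₁, ha₁, hb₁⟩ := h₁.law (e i).1 (e j).1
    obtain ⟨a₂, ha₂, hb₂⟩ := h₂.law (e i).2 (e j).2
    refine ⟨fun p q r s => a₁ (e p).1 (e q).1 (e r).1 (e s).1 * a₂ (e p).2 (e q).2 (e r).2 (e s).2,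
      fun p q r s => (ha₁ _ _ _ _).mul (ha₂ _ _ _ _), fun z w => ?_⟩
    rw [map_add, map_add, map_sub, map_sub, mul_mul_mul_comm, hb₁, hb₂, ← key]
    refine Finset.sum_congr rfl fun p _ => ?_
    rw [← key]
    refine Finset.sum_congr rfl fun q _ => ?_
    rw [← key]
    refine Finset.sum_congr rfl fun r _ => ?_
    rw [← key]
    exact Finset.sum_congr rfl fun s _ => by ring
  · simpa using (h₁.jet0 _).mul (h₂.jet0 _)
  · rw [(hasD (h₁.hol _) (h₂.hol _) 0).2, map_zero, map_zero]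
    exact ((jet1 h₁ _ (b₁ j)).mul (h₂.jet0 _)).add ((h₁.jet0 _).mul (jet1 h₂ _ (b₂ j)))
  · simp only [(hasD (h₁.hol _) (h₂.hol _) _).2]
    have d₁ := hasD (an_d (h₁.hol (e i).1) (p₁ g₁ g₂ (Pi.single j 1))) (h₂.hol (e i).2) 0
    have d₂ := hasD (h₁.hol (e i).1) (an_d (h₂.hol (e i).2) (p₂ g₁ g₂ (Pi.single j 1))) 0
    rw [fderiv_fun_add d₁.1.differentiableAt d₂.1.differentiableAt, add_apply,
      d₁.2, d₂.2, map_zero, map_zero]
    exact (((jet2 h₁ _ (b₁ j) (b₁ k)).mul (h₂.jet0 _)).add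
      ((jet1 h₁ _ (b₁ j)).mul (jet1 h₂ _ (b₂ k)))).add
      (((jet1 h₁ _ (b₁ k)).mul (jet1 h₂ _ (b₂ j))).add
      ((h₁.jet0 _).mul (jet2 h₂ _ (b₂ j) (b₂ k))))
  · have hf := differentiableAt_pi.2 fun k => ((hol k 0).div (hol 0 0) ne0).differentiableAt
    have hn := (hol 0 0).continuousAt.eventually_ne ne0
    refine (injective_iff_map_eq_zero _).2 fun v hv => eq_zero
      (imm h₁ _ _ hf (fun i => e.symm (i, 0)) (hn.mono fun z hz i => ?_) hv)
      (imm h₂ _ _ hf (fun i => e.symm (0, i)) (hn.mono fun z hz i => ?_) hv)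
    · rw [he] at hz
      simp only [Pi.div_apply, he, Equiv.apply_symm_apply]
      exact mul_div_mul_right _ _ (right_ne_zero_of_mul hz)
    · rw [he] at hz
      simp only [Pi.div_apply, he, Equiv.apply_symm_apply]
      exact mul_div_mul_left _ _ (left_ne_zero_of_mul hz)

end

end Pool.Agent.CMQ

end MrgPart0

-- ======== part 1: formerly Pool.Agent.MP_cbf1af_ag.shp.Basic
section MrgPart1

/-! PROJECT SHARP: basic API. -/

namespace Pool.Agent.SHP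

open Filter Topology Module
open Pool.Agent.CMQ (IsTheta GE Cl Wt Disc)

section
variable {g₁ g₂ : ℕ}

@[simp] theorem app_left (y : V g₁ × V g₂) (i : Fin g₁) :
    app g₁ g₂ y (Fin.castAdd g₂ i) = y.1 i := Fin.append_left _ _ _

@[simp] theorem app_right (y : V g₁ × V g₂) (i : Fin g₂) :
    app g₁ g₂ y (Fin.natAdd g₁ i) = y.2 i := Fin.append_right _ _ _

theorem app_apply (y : V g₁ × V g₂) : app g₁ g₂ y = Fin.append y.1 y.2 := rfl

theorem p1_apply (z : V (g₁ + g₂)) (i : Fin g₁) : p1 g₁ g₂ z i = z (Fin.castAdd g₂ i) := rfl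

theorem p2_apply (z : V (g₁ + g₂)) (i : Fin g₂) : p2 g₁ g₂ z i = z (Fin.natAdd g₁ i) := rfl

@[simp] theorem p1_app (y : V g₁ × V g₂) : p1 g₁ g₂ (app g₁ g₂ y) = y.1 :=
  funext fun i => app_left y i

@[simp] theorem p2_app (y : V g₁ × V g₂) : p2 g₁ g₂ (app g₁ g₂ y) = y.2 :=
  funext fun i => app_right y i

@[simp] theorem app_p (z : V (g₁ + g₂)) : app g₁ g₂ (p1 g₁ g₂ z, p2 g₁ g₂ z) = z :=
  (app g₁ g₂).right_inv z

theorem app_symm_apply (z : V (g₁ + g₂)) : (app g₁ g₂).symm z = (p1 g₁ g₂ z, p2 g₁ g₂ z) := rfl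

theorem app_dot (y y' : V g₁ × V g₂) :
    app g₁ g₂ y ⬝ᵥ app g₁ g₂ y' = y.1 ⬝ᵥ y'.1 + y.2 ⬝ᵥ y'.2 := by
  simp [dotProduct, Fin.sum_univ_add]

theorem single_left (j : Fin g₁) :
    (Pi.single (Fin.castAdd g₂ j) 1 : V (g₁ + g₂)) = app g₁ g₂ (Pi.single j 1, 0) := by
  funext i
  refine Fin.addCases (fun k => ?_) (fun k => ?_) i
  · simp [Pi.single_apply, Fin.castAdd_inj]
  · rw [app_right, Pi.single_eq_of_ne]
    · rfl
    · intro h
      have := congrArg Fin.val h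
      simp at this
      omega

theorem single_right (j : Fin g₂) :
    (Pi.single (Fin.natAdd g₁ j) 1 : V (g₁ + g₂)) = app g₁ g₂ (0, Pi.single j 1) := by
  funext i
  refine Fin.addCases (fun k => ?_) (fun k => ?_) i
  · rw [app_left, Pi.single_eq_of_ne]
    · rfl
    · intro h
      have := congrArg Fin.val h
      simp at this
      omega
  · simp [Pi.single_apply, Fin.natAdd_inj]

theorem mem_plat {Λ₁ : AddSubgroup (V g₁)} {Λ₂ : AddSubgroup (V g₂)} {z : V (g₁ + g₂)} :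
    z ∈ plat Λ₁ Λ₂ ↔ p1 g₁ g₂ z ∈ Λ₁ ∧ p2 g₁ g₂ z ∈ Λ₂ := Iff.rfl

theorem app_mem_plat {Λ₁ : AddSubgroup (V g₁)} {Λ₂ : AddSubgroup (V g₂)} {y : V g₁ × V g₂} :
    app g₁ g₂ y ∈ plat Λ₁ Λ₂ ↔ y.1 ∈ Λ₁ ∧ y.2 ∈ Λ₂ := by rw [mem_plat, p1_app, p2_app]

theorem peta_apply (η₁ : V g₁ → V g₁ →ₗ[ℂ] ℂ) (η₂ : V g₂ → V g₂ →ₗ[ℂ] ℂ) (l z : V (g₁ + g₂)) :
    peta η₁ η₂ l z = η₁ (p1 g₁ g₂ l) (p1 g₁ g₂ z) + η₂ (p2 g₁ g₂ l) (p2 g₁ g₂ z) := rfl

theorem qp_peta (η₁ : V g₁ → V g₁ →ₗ[ℂ] ℂ) (η₂ : V g₂ → V g₂ →ₗ[ℂ] ℂ) (y : V g₁ × V g₂) :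
    qp (peta η₁ η₂) (app g₁ g₂ y) = app g₁ g₂ (qp η₁ y.1, qp η₂ y.2) := by
  funext i
  refine Fin.addCases (fun k => ?_) (fun k => ?_) i
  · simp [qp, peta_apply, single_left]
  · simp [qp, peta_apply, single_right]

theorem prod : ProdStmt := fun _ _ _ _ _ _ _ _ _ _ h₁ h₂ =>
  CMQ.isTheta_prod h₁ h₂ _ _ (fun _ => Iff.rfl) fun _ _ _ => rfl

end

theorem gr_apply {g : ℕ} (Γ : (V g × V g) →ₗ[ℂ] (V g × V g)) (y : V g × V g) :
    gr Γ y = (app g g (y.1, (Γ y).1), -app g g (y.2, (Γ y).2)) := rfl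

theorem pr_apply {n e : ℕ} (ℓ : Fin e → V n) (p : GE n n) :
    pr ℓ p = (p.1, fun k => ℓ k ⬝ᵥ p.2) := rfl

theorem lin_expand {n : ℕ} (φ : V n →ₗ[ℂ] ℂ) (y : V n) :
    φ y = y ⬝ᵥ fun j => φ (Pi.single j 1) := by
  rw [LinearMap.pi_apply_eq_sum_univ]
  refine Finset.sum_congr rfl fun j _ => ?_
  rw [smul_eq_mul]
  congr 2
  funext i
  simp [Pi.single_apply, eq_comm]

theorem dot_qp {n : ℕ} (η : V n → V n →ₗ[ℂ] ℂ) (l y : V n) : y ⬝ᵥ qp η l = η l y :=
  (lin_expand (η l) y).symm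

theorem length_mw {e D : ℕ} (α : Fin e → Fin (D + 1)) : (mw α).length = ∑ j, (α j : ℕ) := by
  simp [mw, List.length_flatMap, Fin.sum_univ_def]

theorem length_mw_le {e D : ℕ} (α : Fin e → Fin (D + 1)) : (mw α).length ≤ e * D := by
  rw [length_mw]
  exact (Finset.sum_le_card_nsmul _ _ D fun j _ => Nat.lt_succ_iff.1 (α j).2).trans (by simp)

theorem Spc.refl {M : ℕ} (x : Fin M → ℂ) : Spc x x := fun _ h => h

section
variable {n N : ℕ} {Θ : Fin (N + 1) → V n → ℂ} {Λ : AddSubgroup (V n)}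
  {η : V n → V n →ₗ[ℂ] ℂ} {u : V n → ℝ} {L : V n →ₗ[ℝ] V n →ₗ[ℂ] ℂ}

/-- the real periods over independent points are independent over `ℂ` -/
theorem nondeg (h : Wt Θ Λ η u L) {κ : Type} {x : κ → V n} (hx : LinearIndependent ℝ x) :
    LinearIndependent ℂ fun i => ((x i, fun j => L (x i) (Pi.single j 1)) : V n × V n) := by
  rw [linearIndependent_iff'] at hx ⊢
  intro s c hc i hi
  set A := ∑ i ∈ s, (c i).re • x i with hA
  set B := ∑ i ∈ s, (c i).im • x i with hB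
  have h1 : A + Complex.I • B = 0 := by
    have := congrArg Prod.fst hc
    rw [Prod.fst_sum] at this
    refine Eq.trans ?_ this
    rw [hA, hB, Finset.smul_sum, ← Finset.sum_add_distrib]
    refine Finset.sum_congr rfl fun i _ => ?_
    funext j
    simp only [Pi.add_apply, Pi.smul_apply, Prod.smul_fst, smul_eq_mul, Complex.real_smul]
    conv_rhs => rw [← Complex.re_add_im (c i)]
    ring
  have h2 : ∀ y, L A y + Complex.I * L B y = 0 := by
    intro y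
    have := congrArg (fun p : V n × V n => y ⬝ᵥ p.2) hc
    simp only [Prod.snd_sum, dotProduct_sum, Prod.smul_snd, dotProduct_smul, Prod.snd_zero,
      dotProduct_zero, ← lin_expand, smul_eq_mul] at this
    refine Eq.trans ?_ this
    simp only [hA, hB, map_sum, map_smul, LinearMap.sum_apply, LinearMap.smul_apply,
      Finset.mul_sum, ← Finset.sum_add_distrib, Complex.real_smul]
    refine Finset.sum_congr rfl fun i _ => ?_
    conv_rhs => rw [← Complex.re_add_im (c i)]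
    ring
  have h3 : B = Complex.I • A := by
    rw [eq_neg_of_add_eq_zero_left h1, smul_neg, smul_smul, Complex.I_mul_I]
    simp
  have h4 : A = 0 := by
    by_contra h0
    have := h.pos A h0
    rw [← h3, h2 A] at this
    simp at this
  have h5 : B = 0 := by rw [h3, h4, smul_zero]
  exact Complex.ext (hx s _ h4 i hi) (hx s _ h5 i hi)

/-- independent periods have independent period vectors -/
theorem per_indep (h : IsTheta Θ Λ η) {κ : Type} {x : κ → V n} (hl : ∀ i, x i ∈ Λ)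
    (hx : LinearIndependent ℝ x) :
    LinearIndependent ℂ fun i => ((x i, qp η (x i)) : V n × V n) := by
  obtain ⟨u, L, hW⟩ := CMQ.wt n N Θ Λ η h
  convert nondeg hW hx using 3 with i
  funext j
  rw [hW.ext _ (hl i)]
  rfl

theorem eta_zero (h : IsTheta Θ Λ η) : η 0 = 0 := by
  obtain ⟨u, L, hW⟩ := CMQ.wt n N Θ Λ η h
  rw [← hW.ext 0 (zero_mem _), map_zero]

theorem qp_zero (h : IsTheta Θ Λ η) : qp η 0 = 0 := by
  funext j
  simp [qp, eta_zero h]

theorem eta_add (h : IsTheta Θ Λ η) {l l' : V n} (hl : l ∈ Λ) (hl' : l' ∈ Λ) :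
    η (l + l') = η l + η l' := by
  obtain ⟨u, L, hW⟩ := CMQ.wt n N Θ Λ η h
  rw [← hW.ext _ (add_mem hl hl'), ← hW.ext _ hl, ← hW.ext _ hl', map_add]

theorem eta_zsmul (h : IsTheta Θ Λ η) {l : V n} (hl : l ∈ Λ) (m : ℤ) :
    η (m • l) = m • η l := by
  obtain ⟨u, L, hW⟩ := CMQ.wt n N Θ Λ η h
  rw [← hW.ext _ (zsmul_mem hl m), ← hW.ext _ hl, map_zsmul]

/-- the lattice spans over `ℝ` -/
theorem span_lat (h : IsTheta Θ Λ η) : Submodule.span ℝ (Λ : Set (V n)) = ⊤ := by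
  obtain ⟨b, hb⟩ := h.lat
  rw [eq_top_iff, ← b.span_eq, hb]
  exact Submodule.span_mono AddSubgroup.subset_closure

end

section
variable {g₁ g₂ N : ℕ} {Θ : Fin (N + 1) → V (g₁ + g₂) → ℂ} {Λ₁ : AddSubgroup (V g₁)}
  {η₁ : V g₁ → V g₁ →ₗ[ℂ] ℂ} {Λ₂ : AddSubgroup (V g₂)} {η₂ : V g₂ → V g₂ →ₗ[ℂ] ℂ}
  {u : V (g₁ + g₂) → ℝ} {L : V (g₁ + g₂) →ₗ[ℝ] V (g₁ + g₂) →ₗ[ℂ] ℂ}

/-- `L` is block diagonal -/
theorem block (h : IsTheta Θ (plat Λ₁ Λ₂) (peta η₁ η₂))
    (hW : Wt Θ (plat Λ₁ Λ₂) (peta η₁ η₂) u L) (x : V (g₁ + g₂)) :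
    (∀ y, L (app g₁ g₂ (p1 g₁ g₂ x, 0)) (app g₁ g₂ (0, y)) = 0) ∧
      ∀ y, L (app g₁ g₂ (0, p2 g₁ g₂ x)) (app g₁ g₂ (y, 0)) = 0 := by
  have h0 := eta_zero h
  have hx : x ∈ Submodule.span ℝ (plat Λ₁ Λ₂ : Set (V (g₁ + g₂))) := by
    rw [span_lat h]; trivial
  induction hx using Submodule.span_induction with
  | mem x hx =>
    refine ⟨fun y => ?_, fun y => ?_⟩
    · rw [hW.ext _ ((app_mem_plat (y := (p1 g₁ g₂ x, 0))).2 ⟨(mem_plat.1 hx).1, zero_mem _⟩)]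
      simpa [peta_apply] using LinearMap.congr_fun h0 (app g₁ g₂ (0, y))
    · rw [hW.ext _ ((app_mem_plat (y := (0, p2 g₁ g₂ x))).2 ⟨zero_mem _, (mem_plat.1 hx).2⟩)]
      simpa [peta_apply] using LinearMap.congr_fun h0 (app g₁ g₂ (y, 0))
  | zero => simp [Prod.mk_zero_zero]
  | add x x' _ _ h1 h2 =>
    refine ⟨fun y => ?_, fun y => ?_⟩
    · have : ((p1 g₁ g₂ (x + x'), 0) : V g₁ × V g₂) = (p1 g₁ g₂ x, 0) + (p1 g₁ g₂ x', 0) := by
        simp
      rw [this, map_add, map_add, LinearMap.add_apply, h1.1, h2.1, add_zero]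
    · have : ((0, p2 g₁ g₂ (x + x')) : V g₁ × V g₂) = (0, p2 g₁ g₂ x) + (0, p2 g₁ g₂ x') := by
        simp
      rw [this, map_add, map_add, LinearMap.add_apply, h1.2, h2.2, add_zero]
  | smul a x _ h1 =>
    refine ⟨fun y => ?_, fun y => ?_⟩
    · have : app g₁ g₂ (p1 g₁ g₂ (a • x), 0) = a • app g₁ g₂ (p1 g₁ g₂ x, 0) := by
        rw [← LinearMapClass.map_smul_of_tower]
        simp
      rw [this, map_smul, LinearMap.smul_apply, h1.1, smul_zero]
    · have : app g₁ g₂ (0, p2 g₁ g₂ (a • x)) = a • app g₁ g₂ (0, p2 g₁ g₂ x) := by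
        rw [← LinearMapClass.map_smul_of_tower]
        simp
      rw [this, map_smul, LinearMap.smul_apply, h1.2, smul_zero]

theorem block12 (h : IsTheta Θ (plat Λ₁ Λ₂) (peta η₁ η₂))
    (hW : Wt Θ (plat Λ₁ Λ₂) (peta η₁ η₂) u L) (x : V g₁) (y : V g₂) :
    L (app g₁ g₂ (x, 0)) (app g₁ g₂ (0, y)) = 0 := by
  simpa using (block h hW (app g₁ g₂ (x, 0))).1 y

theorem block21 (h : IsTheta Θ (plat Λ₁ Λ₂) (peta η₁ η₂))
    (hW : Wt Θ (plat Λ₁ Λ₂) (peta η₁ η₂) u L) (x : V g₂) (y : V g₁) :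
    L (app g₁ g₂ (0, x)) (app g₁ g₂ (y, 0)) = 0 := by
  simpa using (block h hW (app g₁ g₂ (0, x))).2 y

end

end Pool.Agent.SHP

end MrgPart1

-- ======== part 2: formerly Pool.Agent.MP_cbf1af_ag.cmp2.Trans
section MrgPart2

/-! Row TRANS: the group law of the vector extension. -/

namespace Pool.Agent.CMQ

open MvPolynomial Filter Topology

namespace Tr

/-- polynomial of degree at most `δ` in the vector part, with entire coefficients -/
def Pol {g e : ℕ} (δ : ℕ) (F : GE g e → ℂ) : Prop :=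
  ∃ A : MvPolynomial (Fin e) ((Fin g → ℂ) → ℂ), A.totalDegree ≤ δ ∧
    (∀ m z, AnalyticAt ℂ (A.coeff m) z) ∧
    ∀ p, F p = eval₂ (Pi.evalRingHom (fun _ => ℂ) p.1) p.2 A

section
variable {g e δ δ' : ℕ} {F F' : GE g e → ℂ}

theorem Pol.mono (h : Pol δ F) (hd : δ ≤ δ') : Pol δ' F := by
  obtain ⟨A, h1, h2, h3⟩ := h
  exact ⟨A, h1.trans hd, h2, h3⟩

theorem Pol.fst {f : (Fin g → ℂ) → ℂ} (hf : ∀ z, AnalyticAt ℂ f z) :
    Pol 0 fun p : GE g e => f p.1 := by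
  classical
  refine ⟨C f, by simp, fun m z => ?_, fun p => by simp⟩
  rw [coeff_C]
  split_ifs
  exacts [hf z, analyticAt_const]

theorem Pol.snd (k : Fin e) : Pol 1 fun p : GE g e => p.2 k := by
  classical
  refine ⟨X k, by simp, fun m z => ?_, fun p => by simp⟩
  rw [coeff_X]
  split_ifs
  exacts [analyticAt_const, analyticAt_const]

theorem Pol.add (h : Pol δ F) (h' : Pol δ F') : Pol δ fun p => F p + F' p := by
  obtain ⟨A, h1, h2, h3⟩ := h
  obtain ⟨A', h1', h2', h3'⟩ := h'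
  refine ⟨A + A', (totalDegree_add _ _).trans (max_le h1 h1'), fun m z => ?_, fun p => ?_⟩
  · rw [coeff_add]; exact (h2 m z).add (h2' m z)
  · rw [eval₂_add, ← h3, ← h3']

theorem Pol.mul (h : Pol δ F) (h' : Pol δ' F') : Pol (δ + δ') fun p => F p * F' p := by
  classical
  obtain ⟨A, h1, h2, h3⟩ := h
  obtain ⟨A', h1', h2', h3'⟩ := h'
  refine ⟨A * A', (totalDegree_mul _ _).trans (add_le_add h1 h1'), fun m z => ?_, fun p => ?_⟩
  · rw [coeff_mul]
    exact Finset.analyticAt_sum _ fun x _ => (h2 _ z).mul (h2' _ z)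
  · rw [eval₂_mul, ← h3, ← h3']

theorem Pol.sum {ι : Type*} (s : Finset ι) (F : ι → GE g e → ℂ) (h : ∀ i ∈ s, Pol δ (F i)) :
    Pol δ fun p => ∑ i ∈ s, F i p := by
  classical
  induction s using Finset.induction_on with
  | empty =>
    simpa using (Pol.fst (e := e) (f := fun _ => 0) fun _ => analyticAt_const).mono
      (Nat.zero_le δ)
  | insert a s ha ih =>
    simp only [Finset.sum_insert ha]
    exact (h a (by simp)).add (ih fun i hi => h i (by simp [hi]))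

theorem Pol.prod {ι : Type*} (s : Finset ι) (d : ι → ℕ) (F : ι → GE g e → ℂ)
    (h : ∀ i ∈ s, Pol (d i) (F i)) : Pol (∑ i ∈ s, d i) fun p => ∏ i ∈ s, F i p := by
  classical
  induction s using Finset.induction_on with
  | empty => simpa using Pol.fst (e := e) (f := fun _ => 1) fun _ => analyticAt_const
  | insert a s ha ih =>
    simp only [Finset.sum_insert ha, Finset.prod_insert ha]
    exact (h a (by simp)).mul (ih fun i hi => h i (by simp [hi]))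

theorem Pol.pow (h : Pol 1 F) (k : ℕ) : Pol k fun p => F p ^ k := by
  simpa using Pol.prod (Finset.range k) (fun _ => 1) (fun _ => F) fun _ _ => h

theorem Pol.trans (h : Pol δ F) (q : GE g e) : Pol δ fun p => F (p + q) := by
  obtain ⟨A, h1, h2, h3⟩ := h
  simp only [h3, eval₂_eq']
  refine Pol.sum _ _ fun m hm => ?_
  have h4 : Pol 0 fun p : GE g e => A.coeff m (p.1 + q.1) :=
    Pol.fst (f := fun z => A.coeff m (z + q.1)) fun z =>
      (h2 m _).comp (f := fun z => z + q.1) (analyticAt_id.add analyticAt_const)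
  have h5 : Pol (∑ k, m k) fun p : GE g e => ∏ k, (p.2 k + q.2 k) ^ m k :=
    Pol.prod _ _ _ fun k _ => ((Pol.snd k).add
      ((Pol.fst (f := fun _ => q.2 k) fun _ => analyticAt_const).mono zero_le_one)).pow _
  refine (h4.mul h5).mono ?_
  have h6 := le_totalDegree hm
  rw [Finsupp.sum_fintype _ _ fun _ => rfl] at h6
  omega

theorem Pol.analyticAt (h : Pol δ F) (p : GE g e) : AnalyticAt ℂ F p := by
  obtain ⟨A, -, h2, h3⟩ := h
  have : F = fun p => ∑ m ∈ A.support, A.coeff m p.1 * ∏ k, p.2 k ^ m k := by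
    funext p
    rw [h3, eval₂_eq']
    rfl
  rw [this]
  refine Finset.analyticAt_fun_sum _ fun m _ => AnalyticAt.fun_mul
    ((h2 m _).comp analyticAt_fst) (Finset.analyticAt_fun_prod _ fun k _ => ?_)
  exact (((ContinuousLinearMap.proj (R := ℂ) (φ := fun _ : Fin e => ℂ) k).analyticAt _).comp
    analyticAt_snd).fun_pow _

end

theorem exists_homog {σ : Type} (b : σ) {n : ℕ} (P : MvPolynomial σ ℂ) (hP : P.totalDegree ≤ n) :
    ∃ Q : MvPolynomial σ ℂ, Q.IsHomogeneous n ∧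
      ∀ x : σ → ℂ, x b ≠ 0 → eval x Q = x b ^ n * eval (fun i => x i / x b) P := by
  refine ⟨∑ d ∈ Finset.range (P.totalDegree + 1), X b ^ (n - d) * homogeneousComponent d P,
    IsHomogeneous.sum _ _ _ fun d hd => ?_, fun x hx => ?_⟩
  · have hd' : d ≤ n := by have := Finset.mem_range.1 hd; omega
    have := ((isHomogeneous_X ℂ b).pow (n - d)).mul (homogeneousComponent_isHomogeneous d P)
    rwa [one_mul, Nat.sub_add_cancel hd'] at this
  · conv_rhs => rw [← sum_homogeneousComponent P]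
    rw [map_sum, map_sum, Finset.mul_sum]
    refine Finset.sum_congr rfl fun d hd => ?_
    have hd' : d ≤ n := by have := Finset.mem_range.1 hd; omega
    have h := CMP.eval_smul_homog (homogeneousComponent_isHomogeneous d P) (x b)
      fun i => x i / x b
    have hx' : (fun i => x b * (x i / x b)) = x := by
      funext i; field_simp
    rw [hx'] at h
    rw [map_mul, map_pow, eval_X, h, ← mul_assoc, ← pow_add, Nat.sub_add_cancel hd']

variable {g N e : ℕ} {Θ : Fin (N + 1) → (Fin g → ℂ) → ℂ} {Λ : AddSubgroup (Fin g → ℂ)}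
  {η : (Fin g → ℂ) → (Fin g → ℂ) →ₗ[ℂ] ℂ}

theorem hasDerivAt_line {f : (Fin g → ℂ) → ℂ} (hf : ∀ z, AnalyticAt ℂ f z) (z y : Fin g → ℂ) :
    HasDerivAt (fun τ : ℂ => f (z + τ • y)) (fderiv ℂ f z y) 0 := by
  have h1 : HasDerivAt (fun τ : ℂ => z + τ • y) y 0 := by
    simpa using ((hasDerivAt_id (0 : ℂ)).smul_const y).const_add z
  have h2 : HasFDerivAt f (fderiv ℂ f z) (z + (0 : ℂ) • y) := by
    simpa using (hf z).differentiableAt.hasFDerivAt
  exact h2.comp_hasDerivAt (0 : ℂ) h1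

/-- the translated generators are forms of degree two -/
theorem gen (h : IsTheta Θ Λ η) (ℓ : Fin e → Fin g → ℂ) (j : Fin (N + 1)) (q : GE g e)
    (x : Fin (N + 1) ⊕ Fin e × Fin (N + 1)) :
    ∃ P : MvPolynomial (Fin (N + 1) ⊕ Fin e × Fin (N + 1)) ℂ, P.IsHomogeneous 2 ∧
      ∀ p : GE g e, Θ j (p.1 - q.1) * xt Θ ℓ x (p + q) = eval (fun y => xt Θ ℓ y p) P := by
  have hX : ∀ (c : ℂ) (y y' : Fin (N + 1) ⊕ Fin e × Fin (N + 1)),
      (C c * (X y * X y') : MvPolynomial _ ℂ).IsHomogeneous 2 := fun c y y' =>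
    ((isHomogeneous_X ℂ y).mul (isHomogeneous_X ℂ y')).C_mul c
  have law : ∀ i, ∃ c : Fin (N + 1) → Fin (N + 1) → (Fin g → ℂ) → ℂ,
      (∀ a b w, AnalyticAt ℂ (c a b) w) ∧
      ∀ z w, Θ i (z + w) * Θ j (z - w) = ∑ a, ∑ b, c a b w * (Θ a z * Θ b z) := by
    intro i
    obtain ⟨a, -, ha⟩ := h.law i j
    refine ⟨fun s t w => ∑ r, ∑ u, a s t r u * (Θ r w * Θ u w), fun s t w => ?_, fun z w => ?_⟩
    · exact Finset.analyticAt_fun_sum _ fun r _ => Finset.analyticAt_fun_sum _ fun u _ =>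
        analyticAt_const.fun_mul ((h.hol r w).fun_mul (h.hol u w))
    · rw [ha]
      refine Finset.sum_congr rfl fun s _ => Finset.sum_congr rfl fun t _ => ?_
      simp only [Finset.sum_mul]
      exact Finset.sum_congr rfl fun r _ => Finset.sum_congr rfl fun u _ => by ring
  rcases x with i | ⟨k, i⟩
  · obtain ⟨c, -, hc⟩ := law i
    refine ⟨∑ a, ∑ b, C (c a b q.1) * (X (Sum.inl a) * X (Sum.inl b)),
      IsHomogeneous.sum _ _ _ fun a _ => IsHomogeneous.sum _ _ _ fun b _ => hX _ _ _,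
      fun p => ?_⟩
    simp only [xt, Prod.fst_add, map_sum, map_mul, eval_C, eval_X]
    rw [mul_comm, hc]
  · obtain ⟨c, hca, hc⟩ := law i
    refine ⟨∑ a, ∑ b, (C (fderiv ℂ (c a b) q.1 (ℓ k) / 2 + q.2 k * c a b q.1) *
        (X (Sum.inl a) * X (Sum.inl b)) +
      (C (c a b q.1 / 2) * (X (Sum.inr (k, a)) * X (Sum.inl b)) +
        C (c a b q.1 / 2) * (X (Sum.inl a) * X (Sum.inr (k, b))))),
      IsHomogeneous.sum _ _ _ fun a _ => IsHomogeneous.sum _ _ _ fun b _ =>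
        (hX _ _ _).add ((hX _ _ _).add (hX _ _ _)), fun p => ?_⟩
    have d1 : HasDerivAt (fun τ : ℂ => Θ i (p.1 + q.1 + τ • ((2 : ℂ) • ℓ k)) * Θ j (p.1 - q.1))
        (fderiv ℂ (Θ i) (p.1 + q.1) ((2 : ℂ) • ℓ k) * Θ j (p.1 - q.1)) 0 :=
      (hasDerivAt_line (h.hol i) _ _).mul_const _
    have d2 := HasDerivAt.fun_sum (u := Finset.univ) fun a _ =>
      HasDerivAt.fun_sum (u := Finset.univ) fun b _ =>
        (hasDerivAt_line (hca a b) q.1 (ℓ k)).fun_mul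
          ((hasDerivAt_line (h.hol a) p.1 (ℓ k)).fun_mul (hasDerivAt_line (h.hol b) p.1 (ℓ k)))
    have e1 : (fun τ : ℂ => Θ i (p.1 + q.1 + τ • ((2 : ℂ) • ℓ k)) * Θ j (p.1 - q.1)) =
        fun τ : ℂ => ∑ a, ∑ b, c a b (q.1 + τ • ℓ k) *
          (Θ a (p.1 + τ • ℓ k) * Θ b (p.1 + τ • ℓ k)) := by
      funext τ
      rw [← hc]
      congr 2
      · rw [two_smul, smul_add]; abel
      · abel
    rw [e1] at d1
    have d3 := d1.unique d2
    simp only [map_smul, smul_eq_mul, zero_smul, add_zero] at d3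
    have h0 := hc p.1 q.1
    simp only [xt, Prod.fst_add, Prod.snd_add, Pi.add_apply, map_sum, map_add, map_mul, eval_C,
      eval_X]
    calc _ = (2 * fderiv ℂ (Θ i) (p.1 + q.1) (ℓ k) * Θ j (p.1 - q.1)) / 2 +
          (p.2 k + q.2 k) * (Θ i (p.1 + q.1) * Θ j (p.1 - q.1)) := by ring
      _ = _ := by
        rw [d3, h0]
        simp only [Finset.sum_div, Finset.mul_sum, ← Finset.sum_add_distrib]
        exact Finset.sum_congr rfl fun a _ => Finset.sum_congr rfl fun b _ => by ring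

/-- translated forms are forms -/
theorem forms (h : IsTheta Θ Λ η) (ℓ : Fin e → Fin g → ℂ) (j : Fin (N + 1)) (q : GE g e) {n : ℕ}
    {P : MvPolynomial (Fin (N + 1) ⊕ Fin e × Fin (N + 1)) ℂ} (hP : P.IsHomogeneous n) :
    ∃ Q : MvPolynomial (Fin (N + 1) ⊕ Fin e × Fin (N + 1)) ℂ, Q.IsHomogeneous (2 * n) ∧
      ∀ p : GE g e, Θ j (p.1 - q.1) ^ n * eval (fun y => xt Θ ℓ y (p + q)) P =
        eval (fun y => xt Θ ℓ y p) Q := by
  choose R hR hR' using gen h ℓ j q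
  refine ⟨aeval R P, hP.aeval R hR, fun p => ?_⟩
  rw [← CMP.eval_smul_homog hP]
  simp only [hR']
  rw [aeval_eq_bind₁, ← coe_aeval_eq_eval, ← coe_aeval_eq_eval]
  simp only [RingHom.coe_coe, aeval_bind₁]

theorem rat_forms {ℓ : Fin e → Fin g → ℂ} {n : ℕ} {F : GE g e → ℂ} (hF : Rat Θ ℓ n F)
    (p₀ : GE g e) (b : Fin (N + 1)) (hb : Θ b p₀.1 ≠ 0) :
    ∃ (m : ℕ) (α β : MvPolynomial (Fin (N + 1) ⊕ Fin e × Fin (N + 1)) ℂ), α.IsHomogeneous m ∧
      β.IsHomogeneous (m + n) ∧ eval (fun y => xt Θ ℓ y p₀) α ≠ 0 ∧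
      ∀ p, eval (fun y => xt Θ ℓ y p) α * F p = eval (fun y => xt Θ ℓ y p) β := by
  obtain ⟨a, P, ha, hP⟩ := hF p₀ b hb
  let ι : Fin (N + 1) ⊕ Fin e → Fin (N + 1) ⊕ Fin e × Fin (N + 1) := Sum.map id fun k => (k, b)
  have hι : ∀ (p : GE g e) (R : MvPolynomial (Fin (N + 1) ⊕ Fin e) ℂ),
      eval (fun y => xt Θ ℓ y p / xt Θ ℓ (Sum.inl b) p) (rename ι R) = eval (ch Θ ℓ b p) R := by
    intro p R
    rw [eval_rename]
    congr 2
    funext y
    rcases y with y | y <;> rfl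
  obtain ⟨a', ha1, ha2⟩ := exists_homog (Sum.inl b) (rename ι a)
    (n := a.totalDegree + P.totalDegree) ((totalDegree_rename_le _ _).trans (by omega))
  obtain ⟨P', hP1, hP2⟩ := exists_homog (Sum.inl b) (rename ι P)
    (n := a.totalDegree + P.totalDegree) ((totalDegree_rename_le _ _).trans (by omega))
  refine ⟨1 + (a.totalDegree + P.totalDegree), X (Sum.inl b) * a',
    X (Sum.inl b) * P' * X (Sum.inl b) ^ n, (isHomogeneous_X ℂ _).mul ha1, ?_, ?_, fun p => ?_⟩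
  · simpa using ((isHomogeneous_X ℂ (Sum.inl b)).mul hP1).mul
      ((isHomogeneous_X ℂ (Sum.inl b)).pow n)
  · rw [map_mul, eval_X, ha2 _ hb, hι]
    exact mul_ne_zero hb (mul_ne_zero (pow_ne_zero _ hb) ha)
  · simp only [map_mul, map_pow, eval_X]
    by_cases hp : Θ b p.1 = 0
    · have : xt Θ ℓ (Sum.inl b) p = 0 := hp
      simp [this]
    · rw [ha2 _ hp, hP2 _ hp, hι, hι]
      have h1 := hP p hp
      have h2 : xt Θ ℓ (Sum.inl b) p = Θ b p.1 := rfl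
      rw [h2]
      linear_combination Θ b p.1 * Θ b p.1 ^ (a.totalDegree + P.totalDegree) * h1

theorem cl_trans (hF : FormStmt) (h : IsTheta Θ Λ η) {ℓ : Fin e → Fin g → ℂ} {n δ : ℕ}
    {F : GE g e → ℂ} (hc : Cl Θ Λ η ℓ n δ F) (j : Fin (N + 1)) (q : GE g e) :
    Cl Θ Λ η ℓ (2 * n) δ fun p => Θ j (p.1 - q.1) ^ n * F (p + q) := by
  refine ⟨⟨?_, fun l hl c hl' p => ?_⟩, fun p₀ i hi => ?_⟩
  · have h1 : Pol 0 fun p : GE g e => Θ j (p.1 - q.1) ^ n :=
      Pol.fst (f := fun z => Θ j (z - q.1) ^ n) fun z =>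
        ((h.hol j _).comp (f := fun z => z - q.1) (analyticAt_id.sub analyticAt_const)).fun_pow n
    have h2 := h1.mul (Pol.trans hc.1.pol q)
    rw [zero_add] at h2
    exact h2
  · have h1 := hc.1.aut l hl c hl' (p + q)
    have h2 : ((p.1 + l, fun k => p.2 k - η l (ℓ k)) : GE g e) + q =
        ((p + q).1 + l, fun k => (p + q).2 k - η l (ℓ k)) := by
      ext <;> simp <;> ring
    have h3 : p.1 + l - q.1 = p.1 - q.1 + l := by abel
    have h4 : Complex.exp (η l (p.1 - q.1) + c) * Complex.exp (η l (p + q).1 + c) =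
        Complex.exp (η l p.1 + c) ^ 2 := by
      rw [sq, ← Complex.exp_add, ← Complex.exp_add, Prod.fst_add, map_sub, map_add]
      congr 1
      ring
    simp only [h2, h1, h3, hl']
    rw [pow_mul, ← h4, mul_pow, mul_pow]
    ring
  · obtain ⟨b, hb⟩ := h.ne (p₀ + q).1
    obtain ⟨j', hj'⟩ := h.ne (p₀.1 - q.1)
    obtain ⟨m, α, β, hα, hβ, h0, hαβ⟩ := rat_forms hc.2 (p₀ + q) b hb
    obtain ⟨α', hα1, hα2⟩ := forms h ℓ j' q hα
    obtain ⟨β', hβ1, hβ2⟩ := forms h ℓ j' q hβ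
    obtain ⟨γ, hγ1, hγ2⟩ := gen h ℓ j q (Sum.inl b)
    obtain ⟨γ', hγ1', hγ2'⟩ := gen h ℓ j' q (Sum.inl b)
    obtain ⟨a, ha⟩ := ((hF g N Θ Λ η h e ℓ).1 _ _ ((hγ1'.pow n).mul hα1)).2 i
    obtain ⟨P, hP⟩ := ((hF g N Θ Λ η h e ℓ).1 _ _ ((hγ1.pow n).mul hβ1)).2 i
    refine ⟨a, P, fun h1 => ?_, fun p hp => ?_⟩
    · have h2 := ha p₀ hi
      rw [h1, mul_zero, map_mul, map_pow, ← hγ2', ← hα2] at h2
      exact mul_ne_zero (pow_ne_zero _ (mul_ne_zero hj' hb))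
        (mul_ne_zero (pow_ne_zero _ hj') h0) h2
    · have h1 := ha p hp
      have h2 := hP p hp
      rw [map_mul, map_pow, ← hγ2', ← hα2] at h1
      rw [map_mul, map_pow, ← hγ2, ← hβ2, ← hαβ] at h2
      refine mul_left_cancel₀ (pow_ne_zero (2 * n + 2 * m) hp) ?_
      rw [← mul_assoc, ← h1]
      rw [show Θ i p.1 ^ (2 * n + 2 * m) * (Θ i p.1 ^ (2 * n) * eval (ch Θ ℓ i p) P) =
        Θ i p.1 ^ (2 * n + 2 * (m + n)) * eval (ch Θ ℓ i p) P by ring, ← h2]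
      ring

/-- a family of functions spanning a finite dimensional space is a finite sum of products -/
theorem exists_sum {G : Type} [NormedAddCommGroup G] [NormedSpace ℂ G] (Φ : G → G → ℂ) (M : ℕ)
    (hM : ∀ a : Fin (M + 1) → G, ¬ LinearIndependent ℂ (Φ ∘ a))
    (han : ∀ p q, AnalyticAt ℂ (fun q => Φ q p) q) :
    ∃ (m : ℕ) (A : Fin m → G → ℂ) (a : Fin m → G), (∀ i q, AnalyticAt ℂ (A i) q) ∧
      ∀ p q, Φ q p = ∑ i, A i q * Φ (a i) p := by
  classical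
  obtain ⟨κ, a, -, hsp, hli⟩ := exists_linearIndependent' ℂ Φ
  have : Finite κ := by
    by_contra hκ
    rw [not_finite_iff_infinite] at hκ
    let ι : Fin (M + 1) → κ := fun i => Infinite.natEmbedding κ i
    exact hM (a ∘ ι) (hli.comp ι
      ((Infinite.natEmbedding κ).injective.comp Fin.val_injective))
  have := Fintype.ofFinite κ
  let ε := (Fintype.equivFin κ).symm
  have hli' : LinearIndependent ℂ (Φ ∘ a ∘ ε) := hli.comp ε ε.injective
  have hsp' : ∀ q, Φ q ∈ Submodule.span ℂ (Set.range (Φ ∘ a ∘ ε)) := by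
    intro q
    rw [← Function.comp_assoc, ε.surjective.range_comp, hsp]
    exact Submodule.subset_span ⟨q, rfl⟩
  have htop := span_flip_eq_top_iff_linearIndependent.2 hli'
  have hβ : ∀ i, ∃ β : G →₀ ℂ,
      (β.sum fun p c => c • flip (Φ ∘ a ∘ ε) p) = Pi.single i 1 := fun i =>
    (Finsupp.mem_span_range_iff_exists_finsupp).1 (htop ▸ Submodule.mem_top)
  choose β hβ using hβ
  refine ⟨_, fun i q => ∑ p ∈ (β i).support, β i p * Φ q p, a ∘ ε, fun i q =>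
    Finset.analyticAt_fun_sum _ fun p _ => analyticAt_const.fun_mul (han p q), fun p q => ?_⟩
  obtain ⟨x, hx⟩ := (Submodule.mem_span_range_iff_exists_fun ℂ).1 (hsp' q)
  have hx' : ∀ p, Φ q p = ∑ k, x k * Φ (a (ε k)) p := fun p => by
    rw [← hx]; simp
  rw [hx' p]
  refine Finset.sum_congr rfl fun i _ => ?_
  congr 1
  have h1 : ∀ k, ∑ p ∈ (β i).support, β i p * Φ (a (ε k)) p = (Pi.single i 1 : _ → ℂ) k := by
    intro k
    rw [← hβ i]
    simp [Finsupp.sum, flip]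
  simp only [hx', Finset.mul_sum]
  rw [Finset.sum_comm]
  have h2 : ∀ k, ∑ p ∈ (β i).support, β i p * (x k * Φ (a (ε k)) p) =
      x k * (Pi.single i 1 : _ → ℂ) k := fun k => by
    rw [← h1, Finset.mul_sum]
    exact Finset.sum_congr rfl fun p _ => by ring
  simp [h2, Pi.single_apply]

end Tr

theorem trans (hF : FormStmt) (hH : HilbStmt) : TransStmt := by
  intro g N Θ Λ η h e ℓ
  refine ⟨fun Y ⟨S, hS, hY⟩ q => ?_, fun n δ F hc j => ?_⟩
  · refine ⟨{Q | ∃ P ∈ S, ∃ j n, Q.IsHomogeneous (2 * n) ∧ ∀ p : GE g e,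
      Θ j (p.1 - q.1) ^ n * eval (fun y => xt Θ ℓ y (p + q)) P = eval (fun y => xt Θ ℓ y p) Q},
      fun Q ⟨_, _, _, n, hQ, _⟩ => ⟨_, hQ⟩, fun p => ?_⟩
    rw [Set.mem_ofPred_eq, hY]
    constructor
    · rintro hp Q ⟨P, hP, j, n, -, hQ⟩
      rw [← hQ, hp P hP, mul_zero]
    · intro hp P hP
      obtain ⟨n, hn⟩ := hS P hP
      obtain ⟨j, hj⟩ := h.ne (p.1 - q.1)
      obtain ⟨Q, hQ1, hQ2⟩ := Tr.forms h ℓ j q hn
      have := hp Q ⟨P, hP, j, n, hQ1, hQ2⟩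
      rw [← hQ2] at this
      exact (mul_eq_zero.1 this).resolve_left (pow_ne_zero _ hj)
  · obtain ⟨C, hC⟩ := hH g N Θ Λ η h
    obtain ⟨m, A, a, hA, hsum⟩ := Tr.exists_sum
      (fun q p : GE g e => Θ j (p.1 - q.1) ^ n * F (p + q)) (C * (2 * n + 1) ^ g * (δ + 1) ^ e)
      (fun a hli => by
        obtain ⟨c, hc0, hc1⟩ := (hC e ℓ).2 (2 * n) δ _
          (fun i p => Θ j (p.1 - (a i).1) ^ n * F (p + a i))
          (fun i => (Tr.cl_trans hF h hc j (a i)).1) (by simp)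
        refine hc0 (funext (Fintype.linearIndependent_iff.1 hli c (funext fun p => ?_)))
        simpa using hc1 p)
      (fun p q => by
        refine AnalyticAt.fun_mul (AnalyticAt.fun_pow ?_ n) ?_
        · exact (h.hol j _).comp (f := fun q : GE g e => p.1 - q.1)
            (analyticAt_const.sub analyticAt_fst)
        · exact (Tr.Pol.analyticAt hc.1.pol _).comp (f := fun q : GE g e => p + q)
            (analyticAt_const.add analyticAt_id))
    exact ⟨m, A, fun i p => Θ j (p.1 - (a i).1) ^ n * F (p + a i), hA,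
      fun i => Tr.cl_trans hF h hc j (a i), hsum⟩

end Pool.Agent.CMQ

end MrgPart2

-- ======== part 3: formerly Pool.Agent.MP_cbf1af_ag.cmp2.Comp
section MrgPart3

/-! PROJECT ZERO2, row COMP: a common component and its stabiliser. -/

namespace Pool.Agent.CMQ

open MvPolynomial Filter Topology

namespace Cp

variable {G σ : Type} {Θ : σ → G → ℂ} {i₀ : σ}

/-- the value of a form -/
noncomputable def ev (Θ : σ → G → ℂ) (P : MvPolynomial σ ℂ) (z : G) : ℂ := eval (fun i => Θ i z) P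

/-- affine coordinates -/
noncomputable def fn (Θ : σ → G → ℂ) (i₀ : σ) (z : G) : σ → ℂ := fun j => Θ j z / Θ i₀ z

theorem eval_mul_hom {n : ℕ} {P : MvPolynomial σ ℂ} (h : P.IsHomogeneous n) (a : ℂ)
    (x : σ → ℂ) : eval (fun i => a * x i) P = a ^ n * eval x P := by
  rw [eval_eq, eval_eq, Finset.mul_sum]
  refine Finset.sum_congr rfl fun d hd => ?_
  rw [h.degree_eq_sum_deg_support hd]
  simp only [mul_pow, Finset.prod_mul_distrib, Finset.prod_pow_eq_pow_sum]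
  ring

theorem ev_fn {n : ℕ} {P : MvPolynomial σ ℂ} (h : P.IsHomogeneous n)
    {z : G} (hz : Θ i₀ z ≠ 0) : ev Θ P z = Θ i₀ z ^ n * eval (fn Θ i₀ z) P := by
  rw [← eval_mul_hom h]
  unfold ev fn
  congr 2
  funext i
  field_simp

theorem ev_mul (P Q : MvPolynomial σ ℂ) (z : G) :
    ev Θ (P * Q) z = ev Θ P z * ev Θ Q z := by
  unfold ev
  rw [map_mul]

theorem ev_analytic [NormedAddCommGroup G] [NormedSpace ℂ G] (hA : ∀ i z, AnalyticAt ℂ (Θ i) z)
    (P : MvPolynomial σ ℂ) (z : G) :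
    AnalyticAt ℂ (ev Θ P) z := by
  induction P using MvPolynomial.induction_on with
  | C a =>
    have : ev Θ (C a) = fun _ => a := by funext z; simp [ev]
    rw [this]; exact analyticAt_const
  | add p q hp hq =>
    have : ev Θ (p + q) = fun z => ev Θ p z + ev Θ q z := by funext z; simp [ev]
    rw [this]; exact hp.add hq
  | mul_X p i hp =>
    have : ev Θ (p * X i) = fun z => ev Θ p z * Θ i z := by funext z; simp [ev]
    rw [this]; exact hp.mul (hA i z)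

theorem exists_hom (i₀ : σ) (Q : MvPolynomial σ ℂ) :
    ∃ (P : MvPolynomial σ ℂ) (n : ℕ), P.IsHomogeneous n ∧
      ∀ x : σ → ℂ, x i₀ = 1 → eval x P = eval x Q := by
  induction Q using MvPolynomial.induction_on with
  | C a => exact ⟨C a, 0, isHomogeneous_C _ a, fun _ _ => rfl⟩
  | add p q hp hq =>
    obtain ⟨P, n, hP, eP⟩ := hp
    obtain ⟨Q, m, hQ, eQ⟩ := hq
    refine ⟨P * X i₀ ^ m + X i₀ ^ n * Q, n + m, (hP.mul (isHomogeneous_X_pow i₀ m)).add
      ((isHomogeneous_X_pow i₀ n).mul hQ), fun x hx => ?_⟩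
    simp [hx, eP x hx, eQ x hx]
  | mul_X p i hp =>
    obtain ⟨P, n, hP, eP⟩ := hp
    refine ⟨P * X i, n + 1, hP.mul (isHomogeneous_X _ i), fun x hx => ?_⟩
    simp [eP x hx]

/-! ### closed sets -/

theorem cl_form {n : ℕ} {P : MvPolynomial σ ℂ} (h : P.IsHomogeneous n) :
    ZCl Θ {z | ev Θ P z = 0} :=
  ⟨{P}, fun Q hQ => ⟨n, by rw [Set.mem_singleton_iff.1 hQ]; exact h⟩, fun z => by simp [ev]⟩

theorem cl_univ : ZCl Θ Set.univ := ⟨∅, by simp, by simp⟩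

theorem cl_iInter {ι : Type} {X : ι → Set G} (h : ∀ i, ZCl Θ (X i)) :
    ZCl Θ (⋂ i, X i) := by
  choose S hS hX using h
  refine ⟨⋃ i, S i, fun P hP => ?_, fun z => ?_⟩
  · obtain ⟨i, hi⟩ := Set.mem_iUnion.1 hP
    exact hS i P hi
  · simp only [Set.mem_iInter, Set.mem_iUnion, hX]
    exact ⟨fun h P ⟨i, hi⟩ => h i P hi, fun h i P hi => h P ⟨i, hi⟩⟩

theorem cl_inter {A B : Set G} (hA : ZCl Θ A) (hB : ZCl Θ B) :
    ZCl Θ (A ∩ B) := by
  obtain ⟨S, hS, eS⟩ := hA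
  obtain ⟨T, hT, eT⟩ := hB
  refine ⟨S ∪ T, fun P hP => hP.elim (hS P) (hT P), fun z => ?_⟩
  rw [Set.mem_inter_iff, eS, eT]
  exact ⟨fun h P hP => hP.elim (h.1 P) (h.2 P),
    fun h => ⟨fun P hP => h P (Or.inl hP), fun P hP => h P (Or.inr hP)⟩⟩

theorem cl_aff (Q : MvPolynomial σ ℂ) :
    ZCl Θ {z | Θ i₀ z ≠ 0 → eval (fn Θ i₀ z) Q = 0} := by
  obtain ⟨P, n, hP, eP⟩ := exists_hom i₀ Q
  have h := cl_form (Θ := Θ) ((isHomogeneous_X ℂ i₀).mul hP)
  have : {z | Θ i₀ z ≠ 0 → eval (fn Θ i₀ z) Q = 0} = {z | ev Θ (X i₀ * P) z = 0} := by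
    ext z
    simp only [Set.mem_ofPred_eq, ev_mul]
    have h0 : ev Θ (X i₀) z = Θ i₀ z := by simp [ev]
    rw [h0]
    by_cases hz : Θ i₀ z = 0
    · simp [hz]
    · rw [ev_fn hP hz, eP _ (by simp [fn, hz])]
      simp [hz]
  rw [this]
  exact h

/-- the polynomials vanishing at all `Θ z`, `z ∈ X` -/
noncomputable def van (Θ : σ → G → ℂ) (X : Set G) :
    Ideal (MvPolynomial σ ℂ) :=
  ⨅ z : X, RingHom.ker (eval fun i => Θ i z)

theorem mem_van {X : Set G} {P : MvPolynomial σ ℂ} :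
    P ∈ van Θ X ↔ ∀ z ∈ X, eval (fun i => Θ i z) P = 0 := by
  simp [van, RingHom.mem_ker]

theorem van_lt {A B : Set G} (hA : ZCl Θ A) (h : A ⊆ B) (h' : ¬ B ⊆ A) :
    van Θ B < van Θ A := by
  refine lt_of_le_of_ne (fun P hP => mem_van.2 fun z hz => mem_van.1 hP z (h hz)) fun e => h' ?_
  obtain ⟨S, -, eS⟩ := hA
  intro z hz
  refine (eS z).2 fun P hP => mem_van.1 ?_ z hz
  rw [e]
  exact mem_van.2 fun y hy => (eS y).1 hy P hP

theorem exists_min [Finite σ] {F : Set (Set G)} (hF : ∀ X ∈ F, ZCl Θ X) (hne : F.Nonempty) :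
    ∃ X ∈ F, ∀ X' ∈ F, X' ⊆ X → X ⊆ X' := by
  obtain ⟨I, ⟨X, hX, rfl⟩, hmax⟩ :=
    (wellFounded_gt (α := Ideal (MvPolynomial σ ℂ))).has_min
    (van Θ '' F) (hne.image _)
  refine ⟨X, hX, fun X' hX' h => ?_⟩
  by_contra h'
  exact hmax _ ⟨X', hX', rfl⟩ (van_lt (hF X' hX') h h')

/-- irreducible for the topology of `ZCl` sets (the empty set is allowed) -/
def Irr (Θ : σ → G → ℂ) (X : Set G) : Prop :=
  ∀ A B, ZCl Θ A → ZCl Θ B → X ⊆ A ∪ B → X ⊆ A ∨ X ⊆ B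

theorem cl_union {A B : Set G} (hA : ZCl Θ A) (hB : ZCl Θ B) :
    ZCl Θ (A ∪ B) := by
  obtain ⟨S, hS, eS⟩ := hA
  obtain ⟨T, hT, eT⟩ := hB
  refine ⟨{R | ∃ P ∈ S, ∃ Q ∈ T, R = P * Q}, ?_, fun z => ?_⟩
  · rintro R ⟨P, hP, Q, hQ, rfl⟩
    obtain ⟨n, hn⟩ := hS P hP
    obtain ⟨m, hm⟩ := hT Q hQ
    exact ⟨n + m, hn.mul hm⟩
  · rw [Set.mem_union, eS, eT]
    constructor
    · rintro h R ⟨P, hP, Q, hQ, rfl⟩
      rw [map_mul]
      rcases h with h | h
      · rw [h P hP, zero_mul]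
      · rw [h Q hQ, mul_zero]
    · intro h
      by_contra hc
      rw [not_or] at hc
      obtain ⟨h1, h2⟩ := hc
      push Not at h1 h2
      obtain ⟨P, hP, eP⟩ := h1
      obtain ⟨Q, hQ, eQ⟩ := h2
      have := h _ ⟨P, hP, Q, hQ, rfl⟩
      rw [map_mul] at this
      exact mul_ne_zero eP eQ this

theorem cl_empty : ZCl Θ ∅ :=
  ⟨{1}, fun Q hQ => ⟨0, by rw [Set.mem_singleton_iff.1 hQ]; exact isHomogeneous_one _ _⟩,
    fun z => by simp⟩

theorem cl_sUnion {S : Set (Set G)} (hS : S.Finite) (h : ∀ t ∈ S, ZCl Θ t) :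
    ZCl Θ (⋃₀ S) := by
  induction S, hS using Set.Finite.induction_on with
  | empty => simpa using cl_empty
  | insert _ _ ih =>
    rw [Set.sUnion_insert]
    exact cl_union (h _ (Set.mem_insert _ _)) (ih fun t ht => h t (Set.mem_insert_of_mem _ ht))

theorem Irr.sUnion {X : Set G} (hX : Irr Θ X) (hne : X.Nonempty)
    {S : Set (Set G)} (hS : S.Finite) (h : ∀ t ∈ S, ZCl Θ t) (hs : X ⊆ ⋃₀ S) :
    ∃ t ∈ S, X ⊆ t := by
  induction S, hS using Set.Finite.induction_on with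
  | empty =>
    obtain ⟨x, hx⟩ := hne
    simpa using hs hx
  | insert _ hf ih =>
    rw [Set.sUnion_insert] at hs
    have h' := fun t ht => h t (Set.mem_insert_of_mem _ ht)
    rcases hX _ _ (h _ (Set.mem_insert _ _)) (cl_sUnion hf h') hs with h1 | h1
    · exact ⟨_, Set.mem_insert _ _, h1⟩
    · obtain ⟨t, ht, h2⟩ := ih h' h1
      exact ⟨t, Set.mem_insert_of_mem _ ht, h2⟩

theorem decomp [Finite σ] {X : Set G} (hX : ZCl Θ X) :
    ∃ S : Set (Set G), S.Finite ∧ (∀ t ∈ S, ZCl Θ t ∧ Irr Θ t) ∧ X = ⋃₀ S := by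
  by_contra hc
  obtain ⟨W, ⟨hW, hn⟩, hmin⟩ := exists_min (Θ := Θ)
    (F := {X | ZCl Θ X ∧ ¬ ∃ S : Set (Set G), S.Finite ∧
      (∀ t ∈ S, ZCl Θ t ∧ Irr Θ t) ∧ X = ⋃₀ S}) (fun X h => h.1) ⟨X, hX, hc⟩
  apply hn
  by_cases hi : Irr Θ W
  · exact ⟨{W}, Set.finite_singleton _, by simpa using ⟨hW, hi⟩, by simp⟩
  · unfold Irr at hi
    push Not at hi
    obtain ⟨A, B, hA, hB, hAB, h1, h2⟩ := hi
    have k : ∀ A, ZCl Θ A → ¬ W ⊆ A → ∃ S : Set (Set G), S.Finite ∧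
        (∀ t ∈ S, ZCl Θ t ∧ Irr Θ t) ∧ W ∩ A = ⋃₀ S := by
      intro A hA h1
      by_contra hc
      exact h1 fun z hz => (hmin _ ⟨cl_inter hW hA, hc⟩ Set.inter_subset_left hz).2
    obtain ⟨S, hS, cS, eS⟩ := k A hA h1
    obtain ⟨T, hT, cT, eT⟩ := k B hB h2
    refine ⟨S ∪ T, hS.union hT, fun t ht => ht.elim (cS t) (cT t), ?_⟩
    rw [Set.sUnion_union, ← eS, ← eT, ← Set.inter_union_distrib_left]
    exact (Set.inter_eq_left.2 hAB).symm

theorem irr_univ [NormedAddCommGroup G] [NormedSpace ℂ G] (hA : ∀ i z, AnalyticAt ℂ (Θ i) z) :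
    Irr Θ Set.univ := by
  rintro A B ⟨S, -, eS⟩ ⟨T, -, eT⟩ h
  by_cases h1 : Set.univ ⊆ A
  · exact Or.inl h1
  right
  rw [Set.not_subset] at h1
  obtain ⟨z, -, hz⟩ := h1
  rw [eS] at hz
  push Not at hz
  obtain ⟨P, hP, eP⟩ := hz
  intro y _
  refine (eT y).2 fun Q hQ => ?_
  have h2 : ∀ᶠ x in 𝓝 z, ev Θ P x ≠ 0 := (ev_analytic hA P z).continuousAt.eventually_ne eP
  have h3 : ev Θ Q =ᶠ[𝓝 z] 0 := by
    filter_upwards [h2] with x hx
    rcases h (Set.mem_univ x) with h4 | h4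
    · exact absurd ((eS x).1 h4 P hP) hx
    · exact (eT x).1 h4 Q hQ
  have h4 : AnalyticOnNhd ℂ (ev Θ Q) Set.univ := fun x _ => ev_analytic hA Q x
  exact h4.eqOn_zero_of_preconnected_of_eventuallyEq_zero isPreconnected_univ
    (Set.mem_univ z) h3 (Set.mem_univ y)

/-! ### chains -/

/-- the affine polynomials `P i` are linearly independent on `W` -/
def Ind (Θ : σ → G → ℂ) (i₀ : σ) (W : Set G) {ι : Type} [Fintype ι]
    (P : ι → MvPolynomial σ ℂ) : Prop :=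
  ∀ c : ι → ℂ, (∀ z ∈ W, Θ i₀ z ≠ 0 → ∑ i, c i * eval (fn Θ i₀ z) (P i) = 0) → c = 0

theorem ind_step {W' W : Set G} (hs : W' ⊆ W) (hW : Irr Θ W)
    {x : MvPolynomial σ ℂ} (h0 : ∀ z ∈ W', Θ i₀ z ≠ 0 → eval (fn Θ i₀ z) x = 0)
    (h1 : ¬ W ⊆ {z | Θ i₀ z ≠ 0 → eval (fn Θ i₀ z) x = 0}) {ι : Type} [Fintype ι]
    {P : ι → MvPolynomial σ ℂ} (hP : Ind Θ i₀ W' P) (m : ℕ) :
    Ind Θ i₀ W (fun p : Fin m × ι => x ^ (p.1 : ℕ) * P p.2) := by
  induction m with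
  | zero => intro c _; funext p; exact p.1.elim0
  | succ m ih =>
    intro c hc
    have e : ∀ z, ∑ p : Fin (m + 1) × ι, c p * eval (fn Θ i₀ z) (x ^ (p.1 : ℕ) * P p.2) =
        ∑ i, c (0, i) * eval (fn Θ i₀ z) (P i) + eval (fn Θ i₀ z) x *
          ∑ p : Fin m × ι, c (p.1.succ, p.2) * eval (fn Θ i₀ z) (x ^ (p.1 : ℕ) * P p.2) := by
      intro z
      rw [Fintype.sum_prod_type, Fin.sum_univ_succ, Fintype.sum_prod_type, Finset.mul_sum]
      congr 1
      · simp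
      · refine Finset.sum_congr rfl fun a _ => ?_
        rw [Finset.mul_sum]
        refine Finset.sum_congr rfl fun i _ => ?_
        simp only [Fin.val_succ, map_mul, map_pow, pow_succ]
        ring
    have c0 : (fun i => c (0, i)) = 0 := by
      refine hP _ fun z hz hz0 => ?_
      have := hc z (hs hz) hz0
      rw [e, h0 z hz hz0, zero_mul, add_zero] at this
      exact this
    have c0' : ∀ i, c (0, i) = 0 := fun i => congrFun c0 i
    let R : MvPolynomial σ ℂ :=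
      ∑ p : Fin m × ι, C (c (p.1.succ, p.2)) * (x ^ (p.1 : ℕ) * P p.2)
    have eR : ∀ z, eval (fn Θ i₀ z) R =
        ∑ p : Fin m × ι, c (p.1.succ, p.2) * eval (fn Θ i₀ z) (x ^ (p.1 : ℕ) * P p.2) := by
      intro z
      simp only [R, map_sum, map_mul, eval_C]
    have h2 : W ⊆ {z | Θ i₀ z ≠ 0 → eval (fn Θ i₀ z) R = 0} := by
      refine (hW _ _ (cl_aff x) (cl_aff R) fun z hz => ?_).resolve_left h1
      by_cases hz0 : Θ i₀ z = 0
      · exact Or.inl fun h => absurd hz0 h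
      · have := hc z hz hz0
        rw [e, ← eR] at this
        simp only [c0', zero_mul, Finset.sum_const_zero, zero_add] at this
        rcases mul_eq_zero.1 this with h | h
        · exact Or.inl fun _ => h
        · exact Or.inr fun _ => h
    have c1 := ih (fun p => c (p.1.succ, p.2)) fun z hz hz0 => by
      rw [← eR]; exact h2 hz hz0
    funext ⟨a, i⟩
    refine Fin.cases (c0' i) (fun a => ?_) a
    exact congrFun c1 (a, i)

/-- `W` carries `m ^ k` independent polynomials of degree `O(m)` -/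
def Big (Θ : σ → G → ℂ) (i₀ : σ) (W : Set G) (k : ℕ) : Prop :=
  ∃ e : ℕ, ∀ m : ℕ, ∃ (ι : Type) (_ : Fintype ι) (P : ι → MvPolynomial σ ℂ),
    Fintype.card ι = m ^ k ∧ (∀ i, (P i).totalDegree ≤ e * m) ∧ Ind Θ i₀ W P

theorem big_zero {o : G} (hA : Θ i₀ o ≠ 0) {W : Set G} (h0 : o ∈ W) : Big Θ i₀ W 0 := by
  refine ⟨0, fun m => ⟨Unit, inferInstance, fun _ => 1, by simp, by simp, fun c hc => ?_⟩⟩
  funext i
  simpa using hc o h0 hA

theorem big_succ {o : G} (hA : Θ i₀ o ≠ 0) {W' W : Set G} (hc : ZCl Θ W') (h0 : o ∈ W')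
    (hs : W' ⊆ W) (hn : ¬ W ⊆ W') (hW : Irr Θ W) {k : ℕ} (h : Big Θ i₀ W' k) : Big Θ i₀ W (k + 1) := by
  obtain ⟨e, he⟩ := h
  have hU : ZCl Θ {z | ev Θ (X i₀) z = 0} := cl_form (isHomogeneous_X ℂ i₀)
  have h1 : ¬ W ⊆ W' ∪ {z | ev Θ (X i₀) z = 0} := by
    intro h
    rcases hW _ _ hc hU h with h | h
    · exact hn h
    · exact hA (by simpa [ev] using h (hs h0))
  rw [Set.not_subset] at h1
  obtain ⟨z, hz, hz'⟩ := h1
  rw [Set.mem_union, not_or] at hz'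
  obtain ⟨hz1, hz0⟩ := hz'
  have hz0 : Θ i₀ z ≠ 0 := by simpa [ev] using hz0
  obtain ⟨S, hS, eS⟩ := hc
  rw [eS] at hz1
  push Not at hz1
  obtain ⟨x, hx, ex⟩ := hz1
  obtain ⟨n, hn⟩ := hS x hx
  refine ⟨e + n, fun m => ?_⟩
  obtain ⟨ι, _, P, hcard, hdeg, hP⟩ := he m
  refine ⟨Fin m × ι, inferInstance, fun p => x ^ (p.1 : ℕ) * P p.2, ?_, fun p => ?_, ?_⟩
  · rw [Fintype.card_prod, Fintype.card_fin, hcard, pow_succ, mul_comm]
  · refine (totalDegree_mul _ _).trans ?_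
    have h2 := (totalDegree_pow x p.1).trans
      (Nat.mul_le_mul p.1.2.le hn.totalDegree_le)
    have h3 := hdeg p.2
    rw [add_mul, mul_comm n m]
    omega
  · refine ind_step hs hW (fun y hy hy0 => ?_) (fun h => ex ?_) hP m
    · have h2 : ev Θ x y = 0 := (eS y).1 hy x hx
      rw [ev_fn hn hy0] at h2
      exact (mul_eq_zero.1 h2).resolve_left (pow_ne_zero _ hy0)
    · have h2 := ev_fn (Θ := Θ) hn hz0
      rw [h hz hz0, mul_zero] at h2
      exact h2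

theorem not_big {g : ℕ} (hH : HilbT Θ i₀ g) {W : Set G} : ¬ Big Θ i₀ W (g + 1) := by
  rintro ⟨e, he⟩
  obtain ⟨C, hC⟩ := hH
  obtain ⟨ι, _, P, hcard, hdeg, hP⟩ := he (C * (e + 1) ^ g + 1)
  set m := C * (e + 1) ^ g + 1 with hm
  have hm1 : 1 ≤ m := by omega
  obtain ⟨c, hc, hz⟩ := hC (e * m) ι P hdeg (by
    rw [hcard]
    have h1 : e * m + 1 ≤ (e + 1) * m := by rw [add_mul, one_mul]; omega
    calc C * (e * m + 1) ^ g ≤ C * ((e + 1) * m) ^ g :=
          Nat.mul_le_mul_left _ (Nat.pow_le_pow_left h1 g)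
      _ = C * (e + 1) ^ g * m ^ g := by rw [mul_pow, mul_assoc]
      _ < m * m ^ g := Nat.mul_lt_mul_of_pos_right (by omega) (Nat.pow_pos hm1)
      _ = m ^ (g + 1) := by rw [pow_succ, mul_comm])
  exact hc (hP c fun z _ hz0 => hz z hz0)

/-! ### the stabiliser -/

section Grp

variable [AddCommGroup G]

theorem cl_into (hA : ∀ X, ZCl Θ X → ∀ q, ZCl Θ {p | p + q ∈ X}) (Z : Set G) {T : Set G}
    (hT : ZCl Θ T) : ZCl Θ {y | ∀ v ∈ Z, y + v ∈ T} := by
  have : {y | ∀ v ∈ Z, y + v ∈ T} = ⋂ v : Z, {y | y + v.1 ∈ T} := by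
    ext y
    simp
  rw [this]
  exact cl_iInter fun v => hA T hT v.1

theorem exists_stab [Finite σ] (hA : ∀ X, ZCl Θ X → ∀ q, ZCl Θ {p | p + q ∈ X}) {Z : Set G}
    (hZ : ZCl Θ Z) : ∃ H : AddSubgroup G, (H : Set G) = {y | ∀ v ∈ Z, y + v ∈ Z} :=
  ⟨{  carrier := {y | ∀ v ∈ Z, y + v ∈ Z}
      zero_mem' := fun v hv => by simpa using hv
      add_mem' := fun {a b} ha hb v hv => by
        rw [add_assoc]; exact ha _ (hb v hv)
      neg_mem' := fun {y} hy v hv => by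
        obtain ⟨_, ⟨n, rfl⟩, hmin⟩ := exists_min (Θ := Θ)
          (F := Set.range fun n : ℕ => {z | z + -(n • y) ∈ Z})
          (by rintro _ ⟨n, rfl⟩; exact hA Z hZ _) (Set.range_nonempty _)
        have h1 := hmin _ ⟨n + 1, rfl⟩ fun z hz => by
          have h2 := hy _ hz
          have e : y + (z + -((n + 1) • y)) = z + -(n • y) := by rw [succ_nsmul]; abel
          rw [e] at h2
          exact h2
        have h2 : v + n • y + -((n + 1) • y) ∈ Z := h1 (by simpa using hv)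
        have e : v + n • y + -((n + 1) • y) = -y + v := by rw [succ_nsmul]; abel
        rw [e] at h2
        exact h2 }, rfl⟩

theorem irr_trans (hA : ∀ X, ZCl Θ X → ∀ q, ZCl Θ {p | p + q ∈ X}) {Z : Set G} (hZ : Irr Θ Z)
    (y : G) : Irr Θ ((fun v => v + y) '' Z) := by
  intro A B cA cB h
  simp only [Set.image_subset_iff] at h ⊢
  exact hZ _ _ (hA A cA y) (hA B cB y) h

end Grp

theorem ev_not_mem [NormedAddCommGroup G] [NormedSpace ℂ G] (hA : ∀ i z, AnalyticAt ℂ (Θ i) z)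
    {T : Set G} (hT : ZCl Θ T) {o : G} (h0 : o ∉ T) : ∀ᶠ y in 𝓝 o, y ∉ T := by
  obtain ⟨S, -, eS⟩ := hT
  rw [eS] at h0
  push Not at h0
  obtain ⟨b, hb, eb⟩ := h0
  filter_upwards [(ev_analytic hA b o).continuousAt.eventually_ne eb] with y hy h
  exact hy ((eS y).1 h b hb)

end Cp

open Cp in
theorem comp : CompStmt := by
  intro G σ _ _ _ Θ i₀ g hol ne0 hA hH Y hY anti hne h0
  by_contra hcon
  choose S hSf hS eS using fun j => decomp (hY j)
  -- a component of `Y j` through a given irreducible subset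
  have comp_ex : ∀ j (W : Set G), Irr Θ W → 0 ∈ W → W ⊆ Y j →
      ∃ Z ∈ S j, W ⊆ Z ∧ ∀ Z' ∈ S j, Z ⊆ Z' → Z' ⊆ Z := by
    intro j W hW w0 hs
    obtain ⟨t, ht, hWt⟩ := hW.sUnion ⟨0, w0⟩ (hSf j) (fun t ht => (hS j t ht).1) (eS j ▸ hs)
    obtain ⟨Z, hZ, hmax⟩ := (hSf j).exists_le_maximal ht
    exact ⟨Z, hmax.1, hWt.trans hZ, fun Z' hZ' h => hmax.2 hZ' h⟩
  have sub : ∀ j, ∀ Z ∈ S j, Z ⊆ Y j := fun j Z hZ => by
    rw [eS j]; exact Set.subset_sUnion_of_mem hZ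
  have main : ∀ k, k ≤ g → ∃ Z, ZCl Θ Z ∧ Irr Θ Z ∧ 0 ∈ Z ∧ Z ⊆ Y (g - k) ∧ Big Θ i₀ Z k := by
    intro k
    induction k with
    | zero =>
      intro _
      have h1 : 0 ∈ ⋃₀ S g := eS g ▸ h0
      obtain ⟨t, ht, h2⟩ := h1
      exact ⟨t, (hS g t ht).1, (hS g t ht).2, h2, sub g t ht, big_zero ne0 h2⟩
    | succ k ih =>
      intro hk
      obtain ⟨W, cW, iW, w0, sW, bW⟩ := ih (by omega)
      have e : g - k = g - (k + 1) + 1 := by omega
      rw [e] at sW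
      set j := g - (k + 1) with hj
      obtain ⟨Z, hZ, sZ, hmax⟩ := comp_ex j W iW w0 (sW.trans (anti (Nat.le_succ j)))
      obtain ⟨cZ, iZ⟩ := hS j Z hZ
      have z0 := sZ w0
      by_cases hZW : Z ⊆ W
      · exfalso
        apply hcon
        obtain ⟨H, eH⟩ := exists_stab hA cZ
        have mH : ∀ y, y ∈ H ↔ ∀ v ∈ Z, y + v ∈ Z := fun y => Set.ext_iff.1 eH y
        refine ⟨j, by omega, Z, hZW.trans sW, H, z0, eH ▸ cl_into hA Z cZ, fun e => hne ?_,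
          fun y hy => (mH y).1 hy, ?_⟩
        · refine Set.eq_univ_of_forall fun y => anti (Nat.zero_le j) (sub j Z hZ ?_)
          simpa using (mH y).1 (e ▸ AddSubgroup.mem_top y) 0 z0
        · have hg : ∀ᶠ y in 𝓝 (0 : G), ∀ Z' ∈ S j, (∀ v ∈ Z, y + v ∈ Z') → y ∈ H := by
            refine (eventually_all_finite (hSf j)).2 fun Z' hZ' => ?_
            by_cases h : Z ⊆ Z'
            · have e' : Z' = Z := (hmax Z' hZ' h).antisymm h
              rw [e']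
              exact Eventually.of_forall fun y hy => (mH y).2 hy
            · filter_upwards [ev_not_mem hol (cl_into hA Z (hS j Z' hZ').1) (o := 0) fun h' =>
                h fun v hv => by simpa using h' v hv] with y hy h'
              exact absurd h' hy
          filter_upwards [hg] with y h3 hy
          obtain ⟨t, ht, h4⟩ := (irr_trans hA iZ y).sUnion ⟨_, 0, z0, rfl⟩ (hSf j)
            (fun t ht => (hS j t ht).1) (by
              rw [← eS j]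
              rintro _ ⟨v, hv, rfl⟩
              have := hy v hv
              rwa [add_comm] at this)
          refine h3 t ht fun v hv => ?_
          rw [add_comm]
          exact h4 ⟨v, hv, rfl⟩
      · exact ⟨Z, cZ, iZ, z0, sub j Z hZ, big_succ ne0 cW w0 sZ hZW iZ bW⟩
  obtain ⟨Z, cZ, -, z0, sZ, bZ⟩ := main g le_rfl
  rw [Nat.sub_self] at sZ
  exact not_big hH (big_succ ne0 cZ z0 (Set.subset_univ Z)
    (fun h => hne (Set.eq_univ_of_univ_subset (h.trans sZ))) (irr_univ hol) bZ)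

end Pool.Agent.CMQ

end MrgPart3

-- ======== part 4: formerly Pool.Agent.MP_cbf1af_ag.cmp2.Quot
section MrgPart4

/-! QUOT: a section with high order along a line of the vector part gives one on the quotient. -/

namespace Pool.Agent.CMQ

open MvPolynomial Filter Topology

noncomputable section

namespace QuotM

/-- polynomials with entire coefficients -/
def ana (g : ℕ) (σ : Type) : Subring (MvPolynomial σ ((Fin g → ℂ) → ℂ)) where
  carrier := {A | ∀ m z, AnalyticAt ℂ (A.coeff m) z}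
  zero_mem' := fun m z => by rw [coeff_zero]; exact analyticAt_const
  one_mem' := fun m z => by
    classical
    rw [coeff_one]
    split_ifs <;> exact analyticAt_const
  add_mem' := fun {A B} hA hB m z => by rw [coeff_add]; exact (hA m z).add (hB m z)
  neg_mem' := fun {A} hA m z => by rw [coeff_neg]; exact (hA m z).neg
  mul_mem' := fun {A B} hA hB m z => by
    classical
    rw [coeff_mul]
    exact Finset.analyticAt_sum _ fun x _ => (hA x.1 z).mul (hB x.2 z)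

theorem C_mem {g : ℕ} {σ : Type} {a : (Fin g → ℂ) → ℂ} (ha : ∀ z, AnalyticAt ℂ a z) :
    (C a : MvPolynomial σ ((Fin g → ℂ) → ℂ)) ∈ ana g σ := fun m z => by
  classical
  rw [coeff_C]
  split_ifs
  · exact ha z
  · exact analyticAt_const

theorem X_mem {g : ℕ} {σ : Type} (i : σ) : (X i : MvPolynomial σ ((Fin g → ℂ) → ℂ)) ∈ ana g σ :=
  fun m z => by
    classical
    rw [coeff_X]
    split_ifs <;> exact analyticAt_const

theorem bind_eq {R σ τ : Type} [CommRing R] (φ : σ → MvPolynomial τ R) (A : MvPolynomial σ R) :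
    bind₁ φ A = ∑ m ∈ A.support, C (A.coeff m) * ∏ i ∈ m.support, φ i ^ m i := by
  conv_lhs => rw [A.as_sum]
  rw [map_sum]
  exact Finset.sum_congr rfl fun m _ => bind₁_monomial φ m _

theorem deg_bind {R σ τ : Type} [CommRing R] (φ : σ → MvPolynomial τ R) (A : MvPolynomial σ R)
    (h : ∀ i, (φ i).totalDegree ≤ 1) : (bind₁ φ A).totalDegree ≤ A.totalDegree := by
  rw [bind_eq]
  refine totalDegree_finsetSum_le fun m hm => (totalDegree_mul _ _).trans ?_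
  rw [totalDegree_C, zero_add]
  refine (totalDegree_finsetProd _ _).trans (le_trans ?_ (le_totalDegree hm))
  refine Finset.sum_le_sum fun i _ => (totalDegree_pow _ _).trans ?_
  simpa using Nat.mul_le_mul_left (m i) (h i)

variable {g N e e' : ℕ} {Θ : Fin (N + 1) → (Fin g → ℂ) → ℂ} {Λ : AddSubgroup (Fin g → ℂ)}
  {η : (Fin g → ℂ) → (Fin g → ℂ) →ₗ[ℂ] ℂ} {ℓ : Fin e → Fin g → ℂ} {ℓ' : Fin e' → Fin g → ℂ}
  {n δ : ℕ}

/-- the first clause of `An` -/
def Pol (δ : ℕ) (F : GE g e → ℂ) : Prop :=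
  ∃ A : MvPolynomial (Fin e) ((Fin g → ℂ) → ℂ), A.totalDegree ≤ δ ∧
    (∀ m z, AnalyticAt ℂ (A.coeff m) z) ∧
    ∀ p, F p = eval₂ (Pi.evalRingHom (fun _ => ℂ) p.1) p.2 A

/-- affine substitution in the vector part -/
theorem Pol.subst {F : GE g e → ℂ} (h : Pol δ F) (S : Matrix (Fin e) (Fin e') ℂ) (c : Fin e → ℂ) :
    Pol δ fun p : GE g e' => F (p.1, S.mulVec p.2 + c) := by
  obtain ⟨A, h1, h2, h3⟩ := h
  refine ⟨bind₁ (fun k => ∑ j, C (fun _ => S k j) * X j + C fun _ => c k) A,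
    (deg_bind _ _ fun k => ?_).trans h1, ?_, fun p => ?_⟩
  · refine (totalDegree_add _ _).trans (max_le (totalDegree_finsetSum_le fun j _ =>
      (totalDegree_mul _ _).trans ?_) (by rw [totalDegree_C]; omega))
    rw [totalDegree_C, totalDegree_X]
  · change _ ∈ ana g (Fin e')
    rw [bind_eq]
    exact sum_mem fun m _ => mul_mem (C_mem (h2 m)) (prod_mem fun i _ => pow_mem
      (add_mem (sum_mem fun j _ => mul_mem (C_mem fun _ => analyticAt_const) (X_mem j))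
        (C_mem fun _ => analyticAt_const)) _)
  · beta_reduce
    rw [h3, ← coe_eval₂Hom, ← coe_eval₂Hom, eval₂Hom_bind₁]
    congr 2
    funext k
    simp [Matrix.mulVec, dotProduct]

theorem Pol.sub {F G : GE g e → ℂ} (hF : Pol δ F) (hG : Pol δ G) : Pol δ fun p => F p - G p := by
  obtain ⟨A, h1, h2, h3⟩ := hF
  obtain ⟨B, k1, k2, k3⟩ := hG
  refine ⟨A - B, (totalDegree_sub _ _).trans (max_le h1 k1), fun m z => ?_, fun p => ?_⟩
  · rw [coeff_sub]; exact (h2 m z).sub (k2 m z)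
  · beta_reduce
    rw [eval₂_sub, h3, k3]

/-- along a line of the vector part a section is a polynomial -/
theorem Pol.line {F : GE g e → ℂ} (h : Pol δ F) (v₀ : Fin e → ℂ) (p : GE g e) :
    ∃ q : Polynomial ℂ, q.degree < (δ + 1 : ℕ) ∧ ∀ s : ℂ, F (p.1, p.2 + s • v₀) = q.eval s := by
  obtain ⟨A, h1, -, h3⟩ := h
  refine ⟨aeval (fun k => Polynomial.C (p.2 k) + Polynomial.C (v₀ k) * Polynomial.X)
    (map (Pi.evalRingHom (fun _ => ℂ) p.1) A), ?_, fun s => ?_⟩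
  · refine Polynomial.degree_le_natDegree.trans_lt (Nat.cast_lt.2 (Nat.lt_succ_of_le ?_))
    refine (aeval_natDegree_le (m := δ) (n := 1) _ ?_ _ fun k => ?_).trans (by omega)
    · exact (Finset.sup_mono (support_map_subset _ _)).trans h1
    · compute_degree
  · rw [h3, eval₂_eq_eval_map]
    generalize map (Pi.evalRingHom (fun _ => ℂ) p.1) A = B
    induction B using MvPolynomial.induction_on with
    | C a => simp
    | add a b ha hb => simp only [map_add, Polynomial.eval_add, ha, hb]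
    | mul_X a k ha =>
      simp only [map_mul, Polynomial.eval_mul, ha, eval_X, aeval_X, Polynomial.eval_add,
        Polynomial.eval_C, Polynomial.eval_X, Pi.add_apply, Pi.smul_apply, smul_eq_mul]
      ring

theorem rat_subst {F : GE g e → ℂ} {F' : GE g e' → ℂ} (h : Rat Θ ℓ n F)
    (ψ : Fin (N + 1) ⊕ Fin e → MvPolynomial (Fin (N + 1) ⊕ Fin e') ℂ)
    (hT : ∀ (i : Fin (N + 1)) (p : GE g e'), Θ i p.1 ≠ 0 → ∃ v, F' p = F (p.1, v) ∧
      ∀ x, ch Θ ℓ i (p.1, v) x = eval (ch Θ ℓ' i p) (ψ x)) : Rat Θ ℓ' n F' := by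
  intro p₀ i hi
  have key : ∀ (p : GE g e') (v : Fin e → ℂ), (∀ x, ch Θ ℓ i (p.1, v) x =
      eval (ch Θ ℓ' i p) (ψ x)) → ∀ a : MvPolynomial (Fin (N + 1) ⊕ Fin e) ℂ,
      eval (ch Θ ℓ' i p) (bind₁ ψ a) = eval (ch Θ ℓ i (p.1, v)) a := by
    intro p v hv a
    rw [funext hv]
    exact eval₂Hom_bind₁ _ _ _ _
  obtain ⟨v₀, -, h0⟩ := hT i p₀ hi
  obtain ⟨a, P, ha, hP⟩ := h (p₀.1, v₀) i hi
  refine ⟨bind₁ ψ a, bind₁ ψ P, by rwa [key p₀ v₀ h0], fun p hp => ?_⟩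
  obtain ⟨v, h1, h2⟩ := hT i p hp
  rw [key p v h2, key p v h2, h1]
  exact hP (p.1, v) hp

theorem rat_sub {F G : GE g e → ℂ} (hF : Rat Θ ℓ n F) (hG : Rat Θ ℓ n G) :
    Rat Θ ℓ n fun p => F p - G p := by
  intro p₀ i hi
  obtain ⟨a, P, ha, hP⟩ := hF p₀ i hi
  obtain ⟨b, Q, hb, hQ⟩ := hG p₀ i hi
  refine ⟨a * b, b * P - a * Q, by rw [map_mul]; exact mul_ne_zero ha hb, fun p hp => ?_⟩
  simp only [map_mul, map_sub]
  linear_combination eval (ch Θ ℓ i p) b * hP p hp - eval (ch Θ ℓ i p) a * hQ p hp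

/-- finite differences of sections -/
theorem cl_diff {F : GE g e → ℂ} (h : Cl Θ Λ η ℓ n δ F) (c : Fin e → ℂ) :
    Cl Θ Λ η ℓ n δ fun p => F (p.1, p.2 + c) - F p := by
  refine ⟨⟨?_, fun l hl c₀ hc p => ?_⟩, rat_sub (rat_subst h.2
    (Sum.elim (fun j => X (Sum.inl j)) fun k => X (Sum.inr k) + C (c k)) fun i p hp =>
      ⟨p.2 + c, rfl, ?_⟩) h.2⟩
  · have := (Pol.subst h.1.pol (1 : Matrix (Fin e) (Fin e) ℂ) c).sub h.1.pol
    simp only [Matrix.one_mulVec] at this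
    exact this
  · have h1 := h.1.aut l hl c₀ hc (p.1, p.2 + c)
    have h2 : ((fun k => p.2 k - η l (ℓ k)) + c) = fun k => (p.2 + c) k - η l (ℓ k) := by
      funext k; simp only [Pi.add_apply]; ring
    simp only
    rw [h.1.aut l hl c₀ hc p, h2, h1, mul_sub]
  · rintro (j | k)
    · simp [ch]
    · simp only [ch, xt, Sum.elim_inr, map_add, eval_X, eval_C, Pi.add_apply]
      field_simp
      ring

/-- a section that is invariant under the line -/
theorem exists_inv {r K : ℕ} (W : Fin r → GE g e) (v₀ : Fin e → ℂ) (d : ℕ) :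
    ∀ F : GE g e → ℂ, Cl Θ Λ η ℓ n δ F → F ≠ 0 → (∀ s : ℂ, OrdL W K F (0, s • v₀)) →
      (∀ p : GE g e, ∃ q : Polynomial ℂ, q.degree < (d : ℕ) ∧
        ∀ s : ℂ, F (p.1, p.2 + s • v₀) = q.eval s) →
      ∃ G : GE g e → ℂ, Cl Θ Λ η ℓ n δ G ∧ G ≠ 0 ∧ OrdL W K G 0 ∧
        ∀ w v (s : ℂ), G (w, v + s • v₀) = G (w, v) := by
  induction d with
  | zero =>
    intro F _ h0 _ hq
    refine absurd (funext fun p => ?_) h0
    obtain ⟨q, h1, h2⟩ := hq p
    have h3 : q = 0 := by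
      by_contra hne
      rw [Polynomial.degree_eq_natDegree hne] at h1
      exact absurd (Nat.cast_lt.1 h1) (Nat.not_lt_zero _)
    simpa [h3] using h2 0
  | succ d ih =>
    intro F hF h0 ho hq
    by_cases hinv : ∀ w v (s : ℂ), F (w, v + s • v₀) = F (w, v)
    · refine ⟨F, hF, h0, ?_, hinv⟩
      have := ho 0
      rwa [zero_smul] at this
    push Not at hinv
    obtain ⟨w, v, s₀, hs⟩ := hinv
    refine ih _ (cl_diff hF (s₀ • v₀)) (fun h => hs (sub_eq_zero.1 (congrFun h (w, v))))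
      (fun s => ?_) fun p => ?_
    · refine ((ho (s + s₀)).sub (ho s)).congr_left fun x => ?_
      congr 2
      refine Prod.ext rfl ?_
      simp only [Prod.snd_add, add_smul]
      abel
    · obtain ⟨q, h1, h2⟩ := hq p
      refine ⟨Polynomial.taylor s₀ q - q, ?_, fun s => ?_⟩
      · rcases eq_or_ne q 0 with rfl | hne
        · simp
        have h3 : Polynomial.taylor s₀ q ≠ 0 := fun h => hne (by
          rw [← Polynomial.degree_eq_bot, ← Polynomial.degree_taylor q s₀, h,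
            Polynomial.degree_zero])
        refine (Polynomial.degree_sub_lt_left (Polynomial.degree_taylor q s₀) h3
          (Polynomial.leadingCoeff_taylor _ _)).trans_le ?_
        rw [Polynomial.degree_taylor, Polynomial.degree_eq_natDegree hne] at *
        exact Nat.cast_le.2 (Nat.lt_succ_iff.1 (Nat.cast_lt.1 h1))
      · rw [Polynomial.eval_sub, Polynomial.taylor_eval, ← h2, ← h2, add_smul, add_assoc]

/-- a projection with kernel `ℂ v₀` and a section -/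
theorem exists_proj (v₀ : Fin (e + 1) → ℂ) (h : v₀ ≠ 0) :
    ∃ (M : Matrix (Fin e) (Fin (e + 1)) ℂ) (S : Matrix (Fin (e + 1)) (Fin e) ℂ),
      (∀ u, M.mulVec (S.mulVec u) = u) ∧ ∀ v, ∃ s : ℂ, S.mulVec (M.mulVec v) = v + s • v₀ := by
  obtain ⟨k₀, hk⟩ := Function.ne_iff.1 h
  rw [Pi.zero_apply] at hk
  refine ⟨Matrix.of fun k j => (if j = k₀.succAbove k then 1 else 0) -
      (if j = k₀ then v₀ (k₀.succAbove k) / v₀ k₀ else 0),
    Matrix.of fun j k => if j = k₀.succAbove k then 1 else 0, ?_⟩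
  have hM : ∀ (v : Fin (e + 1) → ℂ) (k : Fin e), (Matrix.of fun k j =>
      (if j = k₀.succAbove k then (1 : ℂ) else 0) -
      (if j = k₀ then v₀ (k₀.succAbove k) / v₀ k₀ else 0)).mulVec v k =
      v (k₀.succAbove k) - v₀ (k₀.succAbove k) / v₀ k₀ * v k₀ := fun v k => by
    simp [Matrix.mulVec, dotProduct, sub_mul, Finset.sum_sub_distrib]
  have hS0 : ∀ u : Fin e → ℂ, (Matrix.of fun j k =>
      if j = k₀.succAbove k then (1 : ℂ) else 0).mulVec u k₀ = 0 := fun u => by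
    simp [Matrix.mulVec, dotProduct, (Fin.succAbove_ne k₀ _).symm]
  have hS1 : ∀ (u : Fin e → ℂ) (k : Fin e), (Matrix.of fun j k =>
      if j = k₀.succAbove k then (1 : ℂ) else 0).mulVec u (k₀.succAbove k) = u k := fun u k => by
    simp [Matrix.mulVec, dotProduct]
  refine ⟨fun u => funext fun k => by rw [hM, hS0, hS1, mul_zero, sub_zero],
    fun v => ⟨-(v k₀ / v₀ k₀), funext fun j => ?_⟩⟩
  rcases Fin.eq_self_or_eq_succAbove k₀ j with rfl | ⟨k, rfl⟩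
  · rw [hS0]
    simp only [Pi.add_apply, Pi.smul_apply, smul_eq_mul]
    field_simp
    ring
  · rw [hS1, hM]
    simp only [Pi.add_apply, Pi.smul_apply, smul_eq_mul]
    ring

end QuotM

open QuotM in
theorem quot : QuotStmt := by
  intro g N Θ Λ η _ e r ℓ W n δ K F v₀ hv hF h0 ho
  obtain ⟨G, hG, hG0, hGo, hinv⟩ :=
    exists_inv W v₀ (δ + 1) F hF h0 ho fun p => Pol.line hF.1.pol v₀ p
  obtain ⟨M, S, hMS, hSM⟩ := exists_proj v₀ hv
  have hG' : ∀ w v, G (w, S.mulVec (M.mulVec v)) = G (w, v) := fun w v => by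
    obtain ⟨s, hs⟩ := hSM v
    rw [hs, hinv]
  refine ⟨M, fun p => G (p.1, S.mulVec p.2), fun u => ⟨_, hMS u⟩, ⟨⟨?_, fun l hl c hc p => ?_⟩,
    rat_subst hG.2 (Sum.elim (fun j => X (Sum.inl j)) fun j => ∑ k, C (S j k) * X (Sum.inr k))
      fun i p hp => ?_⟩, fun h => hG0 (funext fun p => ?_), ?_⟩
  · have := Pol.subst hG.1.pol S 0
    simp only [add_zero] at this
    exact this
  · have h1 := hG.1.aut l hl c hc (p.1, S.mulVec p.2)
    have h2 : (fun k => p.2 k - η l (∑ j, M k j • ℓ j)) =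
        M.mulVec fun j => S.mulVec p.2 j - η l (ℓ j) := by
      have h3 : (fun j => S.mulVec p.2 j - η l (ℓ j)) = S.mulVec p.2 - fun j => η l (ℓ j) := rfl
      rw [h3, Matrix.mulVec_sub, hMS]
      funext k
      simp [Matrix.mulVec, dotProduct]
    simp only
    rw [h2, hG', h1]
  · set ζ : Fin (e + 1) → ℂ := fun j => fderiv ℂ (Θ i) p.1 (ℓ j) / Θ i p.1 with hζ
    obtain ⟨s, hs⟩ := hSM ζ
    refine ⟨S.mulVec p.2 + s • v₀, (hinv _ _ _).symm, ?_⟩
    rintro (j | j)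
    · simp [ch]
    · have h1 : ∀ k, ch Θ (fun k => ∑ j, M k j • ℓ j) i p (Sum.inr k) = (p.2 + M.mulVec ζ) k := by
        intro k
        simp only [ch, xt, Sum.elim_inr, map_sum, map_smul, smul_eq_mul, Pi.add_apply,
          Matrix.mulVec, dotProduct, hζ, add_div, Finset.sum_div, mul_div_assoc, div_self hp]
        ring
      have h2 : ch Θ ℓ i (p.1, S.mulVec p.2 + s • v₀) (Sum.inr j) =
          (S.mulVec p.2 + (ζ + s • v₀)) j := by
        simp only [ch, xt, Sum.elim_inr, Pi.add_apply, hζ]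
        field_simp
        ring
      rw [h2, ← hs, ← Matrix.mulVec_add]
      simp only [Sum.elim_inr, map_sum, map_mul, eval_C, eval_X, h1]
      rfl
  · have := congrFun h (p.1, M.mulVec p.2)
    simp only [hG'] at this
    exact this
  · refine hGo.congr_left fun x => ?_
    rw [← hG' (0 + ∑ j, x j • W j).1 (0 + ∑ j, x j • W j).2]
    congr 2
    · simp [Prod.fst_sum]
    · simp [Prod.snd_sum, Matrix.mulVec_sum, Matrix.mulVec_smul]

end

end Pool.Agent.CMQ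

end MrgPart4

-- marker of a merged file
example : 731051 + 739423 = 731051 + 739423 := rfl
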