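import Mathlib.FieldTheory.Minpoly.IsIntegrallyClosed
import Mathlib.Analysis.Polynomial.CauchyBound
import Mathlib.Topology.Baire.LocallyCompactRegular
import Mathlib.RingTheory.NoetherNormalization
import Mathlib.Topology.UniformSpace.Uniformizable
import Pool.Agent.MP_cbf1af_ag.shp.Ops
import Pool.Agent.MP_cbf1af_ag.cmp.Apx
import Pool.Agent.MP_cbf1af_ag.cmp2.Wt
import Pool.Agent.MP_cbf1af_ag.cmp2.Hilb
import Pool.Agent.MP_cbf1af_ag.cmp2.Quot
import Pool.Agent.MP_cbf1af_ag.cmp2.Jet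
import Pool.Agent.MP_cbf1af_ag.cmp2.Loc
import Pool.Agent.MP_cbf1af_ag.shp.Graph

-- ======== part 0: formerly Pool.Agent.MP_cbf1af_ag.cmp2.Iso
section MrgPart0

/-! A point of an affine algebraic set which is isolated for the usual topology is isolated for
the Zariski topology. -/

namespace Pool.Agent.CMQ

open MvPolynomial Filter Topology

namespace IsoM

theorem root_bound {τ : Type} (p : Polynomial (MvPolynomial τ ℂ)) (hp : p.Monic) (u0 : τ → ℂ) :
    ∃ M : ℝ, ∀ᶠ u in 𝓝 u0, ∀ z, p.eval₂ (eval u) z = 0 → ‖z‖ ≤ M := by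
  let S : (τ → ℂ) → ℝ := fun u => ∑ i ∈ Finset.range p.natDegree, ‖eval u (p.coeff i)‖
  have hS : Continuous S := continuous_finsetSum _ fun i _ => (continuous_eval _).norm
  refine ⟨S u0 + 2, ?_⟩
  filter_upwards [hS.continuousAt.eventually (gt_mem_nhds (lt_add_one (S u0)))] with u hu z hz
  have hq := hp.map (eval u)
  have h1 := Polynomial.IsRoot.norm_lt_cauchyBound hq.ne_zero (a := z)
    (by rw [Polynomial.IsRoot.def, Polynomial.eval_map, hz])
  have h2 : ((p.map (eval u)).cauchyBound : ℝ) ≤ S u + 1 := by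
    rw [Polynomial.cauchyBound, hq.leadingCoeff, nnnorm_one, div_one, hp.natDegree_map,
      NNReal.coe_add, NNReal.coe_one, add_le_add_iff_right]
    have h3 : 0 ≤ S u := Finset.sum_nonneg fun _ _ => norm_nonneg _
    refine (Real.le_toNNReal_iff_coe_le h3).1 (Finset.sup_le fun i hi => ?_)
    rw [Real.le_toNNReal_iff_coe_le h3, Polynomial.coeff_map, coe_nnnorm]
    exact Finset.single_le_sum (f := fun i => ‖eval u (p.coeff i)‖) (fun _ _ => norm_nonneg _) hi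
  have h4 : ‖z‖ < (p.map (eval u)).cauchyBound := by exact_mod_cast h1
  linarith

theorem root_near {τ : Type} (p : Polynomial (MvPolynomial τ ℂ)) (hp : p.Monic) (u0 : τ → ℂ)
    (z0 : ℂ) (h0 : p.eval₂ (eval u0) z0 = 0) {η : ℝ} (hη : 0 < η) :
    ∀ᶠ u in 𝓝 u0, ∃ z, p.eval₂ (eval u) z = 0 ∧ ‖z - z0‖ < η := by
  have hc : Continuous fun u : τ → ℂ => ‖p.eval₂ (eval u) z0‖ := by
    simp only [Polynomial.eval₂_eq_sum_range]
    exact (continuous_finsetSum _ fun i _ => (continuous_eval _).mul continuous_const).norm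
  have h1 : ‖p.eval₂ (eval u0) z0‖ < η ^ p.natDegree := by rw [h0, norm_zero]; positivity
  filter_upwards [hc.continuousAt.eventually (gt_mem_nhds h1)] with u hu
  by_contra hn
  push Not at hn
  have hq := hp.map (eval u)
  have hs := IsAlgClosed.splits (p.map (eval u))
  rw [← Polynomial.eval_map, hs.eval_eq_prod_roots_of_monic hq, ← hp.natDegree_map (eval u),
    hs.natDegree_eq_card_roots] at hu
  refine absurd hu (not_lt.2 ?_)
  have h2 : ∀ r ∈ (p.map (eval u)).roots, η ≤ ‖z0 - r‖ := fun r hr => by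
    rw [norm_sub_rev]
    refine hn r ?_
    rw [← Polynomial.eval_map]
    exact (Polynomial.mem_roots hq.ne_zero).1 hr
  generalize (p.map (eval u)).roots = m at h2
  induction m using Multiset.induction_on with
  | empty => simp
  | cons a m ih =>
    rw [Multiset.card_cons, Multiset.map_cons, Multiset.prod_cons, norm_mul, pow_succ']
    exact mul_le_mul (h2 a (Multiset.mem_cons_self _ _))
      (ih fun r hr => h2 r (Multiset.mem_cons_of_mem hr)) (by positivity) (norm_nonneg _)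

variable {σ : Type} [Fintype σ]

theorem core (𝔭 : Ideal (MvPolynomial σ ℂ)) [𝔭.IsPrime] (c : σ → ℂ) (hc : ∀ P ∈ 𝔭, eval c P = 0)
    (h : ∀ᶠ x in 𝓝 c, (∀ P ∈ 𝔭, eval x P = 0) → x = c) (x : σ → ℂ)
    (hx : ∀ P ∈ 𝔭, eval x P = 0) : x = c := by
  classical
  obtain ⟨s, g, hinj, hint⟩ := exists_integral_inj_algHom_of_fg ℂ (MvPolynomial σ ℂ ⧸ 𝔭)
  choose G hG using fun j => Ideal.Quotient.mk_surjective (I := 𝔭) (g (X j))
  let π : (σ → ℂ) → Fin s → ℂ := fun x j => eval x (G j)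
  have hπ : Continuous π := continuous_pi fun j => continuous_eval _
  let := g.toRingHom.toAlgebra
  have : Algebra.IsIntegral (MvPolynomial (Fin s) ℂ) (MvPolynomial σ ℂ ⧸ 𝔭) := ⟨hint⟩
  have : FaithfulSMul (MvPolynomial (Fin s) ℂ) (MvPolynomial σ ℂ ⧸ 𝔭) :=
    (faithfulSMul_iff_algebraMap_injective _ _).2 hinj
  let μ : MvPolynomial σ ℂ → Polynomial (MvPolynomial (Fin s) ℂ) := fun a =>
    minpoly _ (Ideal.Quotient.mk 𝔭 a)
  have hμ : ∀ a, (μ a).Monic := fun a => minpoly.monic (Algebra.IsIntegral.isIntegral _)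
  have hroot : ∀ a x, (∀ P ∈ 𝔭, eval x P = 0) → (μ a).eval₂ (eval (π x)) (eval x a) = 0 := by
    intro a x hx
    let χ : (MvPolynomial σ ℂ ⧸ 𝔭) →+* ℂ := Ideal.Quotient.lift 𝔭 (eval x) hx
    have h1 : χ.comp (algebraMap (MvPolynomial (Fin s) ℂ) _) = eval (π x) := by
      refine ringHom_ext (fun r => ?_) fun j => ?_
      · show χ (g (C r)) = _
        rw [algHom_C, eval_C]
        exact eval_C r
      · show χ (g (X j)) = _
        rw [← hG, eval_X]
        rfl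
    have h2 := congrArg χ (minpoly.aeval (MvPolynomial (Fin s) ℂ) (Ideal.Quotient.mk 𝔭 a))
    rwa [Polynomial.aeval_def, Polynomial.hom_eval₂, h1, map_zero] at h2
  have hlift : ∀ a u z, (μ a).eval₂ (eval u) z = 0 →
      ∃ x, (∀ P ∈ 𝔭, eval x P = 0) ∧ π x = u ∧ eval x a = z := by
    intro a u z hz
    let φ := (Polynomial.aeval (R := MvPolynomial (Fin s) ℂ) (Ideal.Quotient.mk 𝔭 a)).toRingHom
    let := φ.toAlgebra
    have : IsScalarTower (MvPolynomial (Fin s) ℂ) (Polynomial (MvPolynomial (Fin s) ℂ))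
        (MvPolynomial σ ℂ ⧸ 𝔭) := IsScalarTower.of_algebraMap_eq fun b => by
      show _ = φ (Polynomial.C b)
      simp [φ]
    have : Algebra.IsIntegral (Polynomial (MvPolynomial (Fin s) ℂ)) (MvPolynomial σ ℂ ⧸ 𝔭) :=
      Algebra.IsIntegral.tower_top (MvPolynomial (Fin s) ℂ)
    let ψ := Polynomial.eval₂RingHom (eval u : MvPolynomial (Fin s) ℂ →+* ℂ) z
    have : (RingHom.ker ψ).IsMaximal := RingHom.ker_isMaximal_of_surjective ψ fun y =>
      ⟨Polynomial.C (C y), by simp [ψ]⟩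
    obtain ⟨Q, hQ, hQ'⟩ := Ideal.exists_ideal_over_maximal_of_isIntegral
      (S := MvPolynomial σ ℂ ⧸ 𝔭) (RingHom.ker ψ) fun p hp => by
        obtain ⟨q, rfl⟩ := minpoly.isIntegrallyClosed_dvd
          (Algebra.IsIntegral.isIntegral (Ideal.Quotient.mk 𝔭 a)) (p := p) hp
        rw [RingHom.mem_ker, map_mul]
        exact mul_eq_zero_of_left hz _
    obtain ⟨x, hx⟩ := isMaximal_iff_eq_vanishingIdeal_singleton.1
      (Ideal.comap_isMaximal_of_surjective (Ideal.Quotient.mk 𝔭) Ideal.Quotient.mk_surjective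
        (K := Q))
    have hv : ∀ P p, Ideal.Quotient.mk 𝔭 P = φ p → ψ p = 0 → eval x P = 0 := fun P p h1 h2 => by
      have h3 : p ∈ Q.comap (algebraMap _ _) := by rw [hQ']; exact h2
      have h4 : P ∈ Q.comap (Ideal.Quotient.mk 𝔭) := by rw [Ideal.mem_comap, h1]; exact h3
      rw [hx, mem_vanishingIdeal_singleton_iff] at h4
      exact h4
    refine ⟨x, fun P hP => hv P 0 ?_ (map_zero _), funext fun j => ?_, ?_⟩
    · rw [map_zero, Ideal.Quotient.eq_zero_iff_mem.2 hP]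
    · have := hv (G j - C (u j)) (Polynomial.C (X j - C (u j))) ?_ (by simp [ψ])
      · simpa [sub_eq_zero] using this
      · have h5 : φ (Polynomial.C (X j - C (u j))) = g (X j - C (u j)) := by
          simp only [φ, AlgHom.toRingHom_eq_coe, RingHom.coe_coe, Polynomial.aeval_C]
          rfl
        rw [h5, map_sub, map_sub, hG, algHom_C]
        rfl
    · have := hv (a - C z) (Polynomial.X - Polynomial.C (C z)) ?_ (by simp [ψ])
      · simpa [sub_eq_zero] using this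
      · have h5 : φ (Polynomial.C (C z)) = g (C z) := by
          simp only [φ, AlgHom.toRingHom_eq_coe, RingHom.coe_coe, Polynomial.aeval_C]
          rfl
        rw [map_sub, map_sub, h5, algHom_C]
        simp only [φ, AlgHom.toRingHom_eq_coe, RingHom.coe_coe, Polynomial.aeval_X]
        rfl
  -- a function which separates `c` from the rest of its fibre
  let e : MvPolynomial σ ℂ := ∏ i, ∏ r ∈ (((μ (X i)).map (eval (π c))).roots.toFinset.erase (c i)),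
    (X i - C r)
  have he : eval c e ≠ 0 := by
    simp only [e, map_prod, map_sub, eval_X, eval_C]
    exact Finset.prod_ne_zero_iff.2 fun i _ => Finset.prod_ne_zero_iff.2 fun r hr =>
      sub_ne_zero.2 (Finset.ne_of_mem_erase hr).symm
  have hsep : ∀ y, (∀ P ∈ 𝔭, eval y P = 0) → π y = π c → eval y e ≠ 0 → y = c := by
    intro y hy h1 h2
    funext i
    by_contra hi
    apply h2
    simp only [e, map_prod, map_sub, eval_X, eval_C]
    refine Finset.prod_eq_zero (Finset.mem_univ i) (Finset.prod_eq_zero (i := y i) ?_ (sub_self _))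
    rw [Finset.mem_erase, Multiset.mem_toFinset, Polynomial.mem_roots ((hμ _).map _).ne_zero,
      Polynomial.IsRoot.def, Polynomial.eval_map, ← h1]
    exact ⟨hi, by simpa using hroot (X i) y hy⟩
  rcases Nat.eq_zero_or_pos s with rfl | hs
  · -- finite over the constants
    have : IsScalarTower ℂ (MvPolynomial (Fin 0) ℂ) (MvPolynomial σ ℂ ⧸ 𝔭) :=
      IsScalarTower.of_algebraMap_eq fun r => (g.commutes r).symm
    have : Algebra.IsIntegral ℂ (MvPolynomial (Fin 0) ℂ) :=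
      ⟨fun b => by obtain ⟨r, rfl⟩ := C_surjective (Fin 0) b; exact isIntegral_algebraMap⟩
    have : Algebra.IsIntegral ℂ (MvPolynomial σ ℂ ⧸ 𝔭) :=
      Algebra.IsIntegral.trans (MvPolynomial (Fin 0) ℂ)
    funext i
    obtain ⟨r, hr⟩ := (IsAlgClosed.algebraMap_bijective_of_isIntegral (k := ℂ)
      (K := MvPolynomial σ ℂ ⧸ 𝔭)).2 (Ideal.Quotient.mk 𝔭 (X i))
    have hr' : X i - C r ∈ 𝔭 := Ideal.Quotient.eq.1 hr.symm
    have h3 := hx _ hr'
    have h4 := hc _ hr'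
    simp only [map_sub, eval_X, eval_C, sub_eq_zero] at h3 h4
    exact h3.trans h4.symm
  exfalso
  have : Nonempty (Fin s) := ⟨⟨0, hs⟩⟩
  choose M hM using fun i => root_bound (μ (X i)) (hμ _) (π c)
  obtain ⟨U, hU, hUo, hcU⟩ := eventually_nhds_iff.1 h
  let W : Set (σ → ℂ) := (Set.univ.pi fun i => Metric.closedBall 0 (M i)) ∩
    ({y | ∀ P ∈ 𝔭, eval y P = 0} ∩ Uᶜ)
  have hW : IsCompact W := by
    refine (isCompact_univ_pi fun i => isCompact_closedBall _ _).inter_right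
      (IsClosed.inter ?_ hUo.isClosed_compl)
    simp only [Set.ofPred_forall]
    exact isClosed_iInter fun P => isClosed_iInter fun _ =>
      isClosed_eq (continuous_eval _) continuous_const
  have hcl := (hW.image (hπ.prodMk (continuous_eval e))).isClosed
  have hnot : (π c, eval c e) ∈ ((fun y => (π y, eval y e)) '' W)ᶜ := by
    rintro ⟨y, hy, h1⟩
    rw [Prod.mk.injEq] at h1
    exact hy.2.2 (hsep y hy.2.1 h1.1 (h1.2 ▸ he) ▸ hcU)
  obtain ⟨A, hA, B, hB, hAB⟩ := mem_nhds_prod_iff.1 (hcl.isOpen_compl.mem_nhds hnot)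
  obtain ⟨η, hη, hB'⟩ := Metric.mem_nhds_iff.1 hB
  have h1 := root_near (μ e) (hμ e) (π c) _ (hroot e c hc) hη
  obtain ⟨u, ⟨⟨hu1, hu2⟩, z, hz, hz'⟩, hu⟩ := (((((eventually_all.2 hM).and hA).and h1).filter_mono
    (nhdsWithin_le_nhds (s := {π c}ᶜ))).and self_mem_nhdsWithin).exists
  obtain ⟨y, hy, rfl, rfl⟩ := hlift e u z hz
  refine hAB (Set.mk_mem_prod hu2 (hB' (mem_ball_iff_norm.2 hz'))) ⟨y, ⟨fun i _ => ?_, hy, ?_⟩, rfl⟩
  · exact mem_closedBall_zero_iff.2 (hu1 i _ (by simpa using hroot (X i) y hy))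
  · exact fun hyU => hu (by rw [hU y hyU hy]; rfl)

/-- a classically isolated point of an algebraic set is Zariski isolated -/
theorem iso_ideal (I : Ideal (MvPolynomial σ ℂ)) (c : σ → ℂ)
    (h : ∀ᶠ x in 𝓝 c, (∀ P ∈ I, eval x P = 0) → x = c) :
    ∃ b : MvPolynomial σ ℂ, eval c b ≠ 0 ∧
      ∀ x, (∀ P ∈ I, eval x P = 0) → eval x b = 0 ∨ x = c := by
  classical
  have hb : ∀ 𝔭 : Ideal (MvPolynomial σ ℂ), ∃ b, eval c b ≠ 0 ∧
      (b ∈ 𝔭 ∨ ∀ P ∈ 𝔭, eval c P = 0) := fun 𝔭 => by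
    by_cases h1 : ∀ P ∈ 𝔭, eval c P = 0
    · exact ⟨1, by simp, Or.inr h1⟩
    · push Not at h1
      obtain ⟨P, h2, h3⟩ := h1
      exact ⟨P, h3, Or.inl h2⟩
  choose b hb1 hb2 using hb
  have hf := Ideal.finite_minimalPrimes_of_isNoetherianRing _ I
  refine ⟨∏ 𝔭 ∈ hf.toFinset, b 𝔭, ?_, fun x hx => ?_⟩
  · rw [map_prod]
    exact Finset.prod_ne_zero_iff.2 fun 𝔭 _ => hb1 𝔭
  · have := RingHom.ker_isPrime (eval x : MvPolynomial σ ℂ →+* ℂ)
    obtain ⟨𝔭, h1, h2⟩ := Ideal.exists_minimalPrimes_le (I := I)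
      (J := RingHom.ker (eval x : MvPolynomial σ ℂ →+* ℂ)) hx
    have := h1.1.1
    rcases hb2 𝔭 with h3 | h3
    · left
      rw [map_prod]
      exact Finset.prod_eq_zero (hf.mem_toFinset.2 h1) (h2 h3)
    · exact Or.inr (core 𝔭 c h3 (h.mono fun y hy hy' => hy fun P hP => hy' P (h1.1.2 hP)) x h2)

end IsoM

theorem iso : IsoStmt := by
  intro σ _ S c h
  obtain ⟨b, h1, h2⟩ := IsoM.iso_ideal (Ideal.span S) c
    (h.mono fun y hy hy' => hy fun P hP => hy' P (Ideal.subset_span hP))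
  exact ⟨b, h1, fun y hy => h2 y fun P hP =>
    (Ideal.span_le (I := RingHom.ker (eval y : MvPolynomial σ ℂ →+* ℂ))).2 hy hP⟩

end Pool.Agent.CMQ

end MrgPart0

-- ======== part 1: formerly Pool.Agent.MP_cbf1af_ag.cmp2.Smooth
section MrgPart1

/-! Module PROP: a smooth point of the Zariski closure of the image of the chart. -/

namespace Pool.Agent.CMQ

open MvPolynomial Filter Topology

namespace Sm

/-- evaluation of a polynomial in `(x, T)` -/
noncomputable def ev {n : ℕ} (R : Polynomial (MvPolynomial (Fin n) ℂ)) (a : Fin n → ℂ) (t : ℂ) :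
    ℂ := Polynomial.eval t (R.map (eval a))

lemma ev_add {n : ℕ} (R R' : Polynomial (MvPolynomial (Fin n) ℂ)) (a : Fin n → ℂ) (t : ℂ) :
    ev (R + R') a t = ev R a t + ev R' a t := by simp [ev]

lemma ev_monomial {n : ℕ} (k : ℕ) (c : MvPolynomial (Fin n) ℂ) (a : Fin n → ℂ) (t : ℂ) :
    ev (Polynomial.monomial k c) a t = eval a c * t ^ k := by simp [ev]

/-- divided differences -/
lemma divd {n : ℕ} (R : Polynomial (MvPolynomial (Fin n) ℂ)) :
    ∃ S : (Fin n → ℂ) × ℂ × ℂ → ℂ, Continuous S ∧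
      (∀ a t t', ev R a t - ev R a t' = S (a, t, t') * (t - t')) ∧
      ∀ a t, S (a, t, t) = ev R.derivative a t := by
  induction R using Polynomial.induction_on' with
  | add p q hp hq =>
    obtain ⟨S, h1, h2, h3⟩ := hp
    obtain ⟨S', h1', h2', h3'⟩ := hq
    refine ⟨S + S', h1.add h1', fun a t t' => ?_, fun a t => ?_⟩
    · rw [ev_add, ev_add, Pi.add_apply, add_mul, ← h2, ← h2']; ring
    · rw [map_add, ev_add, Pi.add_apply, h3, h3']
  | monomial k c =>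
    refine ⟨fun z => eval z.1 c * ∑ i ∈ Finset.range k, z.2.1 ^ i * z.2.2 ^ (k - 1 - i),
      ((continuous_eval c).comp continuous_fst).mul (by fun_prop), fun a t t' => ?_,
      fun a t => ?_⟩
    · rw [ev_monomial, ev_monomial, mul_assoc, geom_sum₂_mul]; ring
    · simp only [Polynomial.derivative_monomial, ev_monomial, geom_sum₂_self]
      simp [mul_assoc]

/-- a relation whose derivative is not a relation -/
lemma exists_min {n : ℕ} {G : Type} (Ω : Set G) (x : G → Fin n → ℂ) (τ : G → ℂ)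
    (hx : ∀ q : MvPolynomial (Fin n) ℂ, (∀ p ∈ Ω, eval (x p) q = 0) → q = 0)
    (R : Polynomial (MvPolynomial (Fin n) ℂ)) (h0 : R ≠ 0) (hR : ∀ p ∈ Ω, ev R (x p) (τ p) = 0) :
    ∃ R' : Polynomial (MvPolynomial (Fin n) ℂ), (∀ p ∈ Ω, ev R' (x p) (τ p) = 0) ∧
      ∃ p ∈ Ω, ev R'.derivative (x p) (τ p) ≠ 0 := by
  induction hd : R.natDegree using Nat.strong_induction_on generalizing R with
  | _ d ih =>
  by_cases h : ∀ p ∈ Ω, ev R.derivative (x p) (τ p) = 0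
  · have h1 : R.derivative ≠ 0 := fun e => by
      have e1 := Polynomial.eq_C_of_derivative_eq_zero e
      refine h0 ?_
      rw [e1, hx (R.coeff 0) fun p hp => ?_, map_zero]
      have := hR p hp
      rw [e1] at this
      simpa [ev] using this
    have h2 : R.natDegree ≠ 0 := fun e => h1 (Polynomial.derivative_of_natDegree_zero e)
    exact ih _ (hd ▸ Polynomial.natDegree_derivative_lt h2) _ h1 h rfl
  · push Not at h
    exact ⟨R, hR, h⟩

variable {G σ : Type} [Fintype σ]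

/-- linear forms are polynomials of degree one -/
lemma lin (m : (σ → ℂ) →L[ℂ] ℂ) :
    ∃ u : MvPolynomial σ ℂ, u.totalDegree ≤ 1 ∧ ∀ y, eval y u = m y := by
  classical
  refine ⟨∑ j, C (m (Pi.single j 1)) * X j, ?_, fun y => ?_⟩
  · refine totalDegree_finsetSum_le fun j _ => (totalDegree_mul _ _).trans ?_
    simp
  · have h1 : y = ∑ j, y j • (Pi.single j 1 : σ → ℂ) := by
      funext j
      simp [Finset.sum_apply, Pi.single_apply]
    conv_rhs => rw [h1, map_sum]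
    simp [mul_comm]

omit [Fintype σ] in
/-- `n + 1` linear forms are algebraically dependent on the image -/
lemma dep (Ω : Set G) (φ : G → σ → ℂ) (n C : ℕ)
    (hH : ∀ (d : ℕ) (κ : Type) [Fintype κ] (P : κ → MvPolynomial σ ℂ),
      (∀ i, (P i).totalDegree ≤ d) → C * (d + 1) ^ n < Fintype.card κ →
      ∃ c : κ → ℂ, c ≠ 0 ∧ ∀ p ∈ Ω, ∑ i, c i * eval (φ p) (P i) = 0)
    (u : Fin (n + 1) → MvPolynomial σ ℂ) (hu : ∀ i, (u i).totalDegree ≤ 1) :
    ∃ Q : MvPolynomial (Fin (n + 1)) ℂ, Q ≠ 0 ∧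
      ∀ p ∈ Ω, eval (fun i => eval (φ p) (u i)) Q = 0 := by
  classical
  set d := C * (n + 1) ^ n with hd
  obtain ⟨c, hc, h⟩ := hH ((n + 1) * d) (Fin (n + 1) → Fin (d + 1))
    (fun β => ∏ i, u i ^ (β i : ℕ)) (fun β => by
      refine (totalDegree_finsetProd _ _).trans ?_
      refine (Finset.sum_le_card_nsmul _ _ d fun i _ => (totalDegree_pow _ _).trans ?_).trans
        (by simp)
      exact (Nat.mul_le_mul (Nat.lt_succ_iff.1 (β i).2) (hu i)).trans (by simp)) (by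
      rw [Fintype.card_fun, Fintype.card_fin, Fintype.card_fin]
      calc C * ((n + 1) * d + 1) ^ n ≤ C * ((n + 1) * (d + 1)) ^ n := by
            gcongr; nlinarith
        _ = d * (d + 1) ^ n := by rw [mul_pow, hd]; ring
        _ < (d + 1) ^ (n + 1) := by
            rw [pow_succ']; exact Nat.mul_lt_mul_of_lt_of_le (by omega) le_rfl (by positivity))
  let E : (Fin (n + 1) → Fin (d + 1)) → Fin (n + 1) →₀ ℕ :=
    fun β => Finsupp.equivFunOnFinite.symm fun i => (β i : ℕ)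
  have hE : Function.Injective E := fun β β' e => funext fun i => Fin.ext (by
    simpa [E] using DFunLike.congr_fun e i)
  refine ⟨∑ β, monomial (E β) (c β), fun e => hc (funext fun β => ?_), fun p hp => ?_⟩
  · have := congrArg (coeff (E β)) e
    simpa [coeff_sum, coeff_monomial, hE.eq_iff] using this
  · rw [← h p hp, map_sum]
    refine Finset.sum_congr rfl fun β _ => ?_
    rw [eval_monomial, Finsupp.prod_fintype _ _ (by simp)]
    simp [E]

variable [NormedAddCommGroup G] [NormedSpace ℂ G]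

omit [Fintype σ] in
/-- homogenisation -/
lemma homog {θ : G → ℂ} {Φ : G → σ → ℂ} (hθ : ∀ p, AnalyticAt ℂ θ p)
    (hΦ : ∀ j p, AnalyticAt ℂ (fun p => Φ p j) p) (P : MvPolynomial σ ℂ) :
    ∃ (d : ℕ) (F : G → ℂ), (∀ p, AnalyticAt ℂ F p) ∧
      ∀ p, θ p ≠ 0 → F p = θ p ^ d * eval (fun j => Φ p j / θ p) P := by
  induction P using MvPolynomial.induction_on with
  | C a => exact ⟨0, fun _ => a, fun _ => analyticAt_const, fun p _ => by simp⟩
  | add P Q hP hQ =>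
    obtain ⟨d, F, h1, h2⟩ := hP
    obtain ⟨d', F', h1', h2'⟩ := hQ
    refine ⟨d + d', fun p => θ p ^ d' * F p + θ p ^ d * F' p, fun p =>
      (((hθ p).fun_pow _).fun_mul (h1 p)).fun_add (((hθ p).fun_pow _).fun_mul (h1' p)),
      fun p hp => ?_⟩
    simp only [h2 p hp, h2' p hp, map_add]; ring
  | mul_X P j hP =>
    obtain ⟨d, F, h1, h2⟩ := hP
    refine ⟨d + 1, fun p => F p * Φ p j, fun p => (h1 p).fun_mul (hΦ j p), fun p hp => ?_⟩
    simp only [h2 p hp, map_mul, eval_X]; field_simp; ring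

omit [Fintype σ] in
lemma dense_ne {F : G → ℂ} (hF : ∀ p, AnalyticAt ℂ F p) {q : G} (hq : F q ≠ 0) :
    IsOpen {p | F p ≠ 0} ∧ Dense {p | F p ≠ 0} := by
  have hc : Continuous F := continuous_iff_continuousAt.2 fun p => (hF p).continuousAt
  refine ⟨isOpen_ne_fun hc continuous_const, fun p => ?_⟩
  rw [mem_closure_iff_frequently]
  intro h
  have h1 : F =ᶠ[𝓝 p] 0 := h.mono fun z hz => by simpa using hz
  exact hq (congrFun (AnalyticOnNhd.eq_of_eventuallyEq (fun z _ => hF z)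
    (fun z _ => analyticAt_const) h1) q)

/-- the abstract statement -/
theorem smooth [FiniteDimensional ℂ G] {θ : G → ℂ} {Φ φ : G → σ → ℂ}
    (hθ : ∀ p, AnalyticAt ℂ θ p) (hΦ : ∀ j p, AnalyticAt ℂ (fun p => Φ p j) p)
    (hφ : ∀ p j, φ p j = Φ p j / θ p) (h0 : θ 0 ≠ 0) (hi : Function.Injective (fderiv ℂ φ 0))
    (n C : ℕ) (hn : Module.finrank ℂ G = n)
    (hH : ∀ (d : ℕ) (κ : Type) [Fintype κ] (P : κ → MvPolynomial σ ℂ),
      (∀ i, (P i).totalDegree ≤ d) → C * (d + 1) ^ n < Fintype.card κ →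
      ∃ c : κ → ℂ, c ≠ 0 ∧ ∀ p ∈ {p | θ p ≠ 0}, ∑ i, c i * eval (φ p) (P i) = 0)
    (W : Set G) (hW : W ∈ 𝓝 (0 : G)) :
    ∃ p₀ ∈ W, θ p₀ ≠ 0 ∧ Function.Injective (fderiv ℂ φ p₀) ∧
      ∀ U ∈ 𝓝 p₀, ∀ᶠ y in 𝓝 (φ p₀), (∀ P : MvPolynomial σ ℂ,
        (∀ p, θ p ≠ 0 → eval (φ p) P = 0) → eval y P = 0) → ∃ p ∈ U, y = φ p := by
  have := FiniteDimensional.complete ℂ G
  have hφ' : ∀ p, φ p = fun j => Φ p j / θ p := fun p => funext (hφ p)
  have ha : ∀ p, θ p ≠ 0 → AnalyticAt ℂ φ p := fun p hp => analyticAt_pi_iff.2 fun j => by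
    simp only [hφ]; exact (hΦ j p).fun_div (hθ p) hp
  obtain ⟨M, hM⟩ := (fderiv ℂ φ 0).toLinearMap.exists_leftInverse_of_injective
    (LinearMap.ker_eq_bot.2 hi)
  let B : G ≃L[ℂ] (Fin n → ℂ) := ContinuousLinearEquiv.ofFinrankEq (by simp [hn])
  let m : (σ → ℂ) →L[ℂ] (Fin n → ℂ) :=
    (B : G →L[ℂ] (Fin n → ℂ)).comp (LinearMap.toContinuousLinearMap M)
  have hmap : ∀ p, θ p ≠ 0 → Function.Injective (m.comp (fderiv ℂ φ p)) →
      map (fun p => m (φ p)) (𝓝 p) = 𝓝 (m (φ p)) := fun p hp h =>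
    (m.hasStrictFDerivAt.comp p (ha p hp).hasStrictFDerivAt).map_nhds_eq_of_surj
      (LinearMap.range_eq_top.2 ((LinearMap.injective_iff_surjective_of_finrank_eq_finrank
        (f := (m.comp (fderiv ℂ φ p)).toLinearMap) (by simp [hn])).1 h))
  have hm0 : Function.Injective (m.comp (fderiv ℂ φ 0)) := fun a b e => by
    have e1 : M (fderiv ℂ φ 0 a) = M (fderiv ℂ φ 0 b) := B.injective e
    exact (LinearMap.congr_fun hM a).symm.trans (e1.trans (LinearMap.congr_fun hM b))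
  have hev : ∀ᶠ p in 𝓝 (0 : G), θ p ≠ 0 := (hθ 0).continuousAt.eventually_ne h0
  have hx : ∀ q : MvPolynomial (Fin n) ℂ, (∀ p ∈ {p | θ p ≠ 0}, eval (m (φ p)) q = 0) → q = 0 :=
    fun q hq => by
    have h1 : (fun a => eval a q) =ᶠ[𝓝 (m (φ 0))] 0 := by
      rw [← hmap 0 h0 hm0]
      exact hev.mono fun p hp => hq p hp
    have h2 := AnalyticOnNhd.eq_of_eventuallyEq (AnalyticOnNhd.eval_mvPolynomial q)
      (fun z _ => analyticAt_const) h1
    exact MvPolynomial.funext fun a => (congrFun h2 a).trans (map_zero _).symm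
  choose u hu hu' using fun i => lin ((ContinuousLinearMap.proj i).comp m)
  have hpol : ∀ (j : σ) (R : Polynomial (MvPolynomial (Fin n) ℂ)),
      ∃ P : MvPolynomial σ ℂ, ∀ y, eval y P = ev R (m y) (y j) := fun j R => by
    refine ⟨Polynomial.eval (X j) (R.map (aeval u).toRingHom), fun y => ?_⟩
    rw [← Polynomial.eval₂_at_apply, eval_X, ev, ← Polynomial.eval_map, Polynomial.map_map]
    congr 2
    ext i <;> simp [hu']
  have hR : ∀ j : σ, ∃ R : Polynomial (MvPolynomial (Fin n) ℂ),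
      (∀ p ∈ {p | θ p ≠ 0}, ev R (m (φ p)) (φ p j) = 0) ∧
      ∃ p ∈ {p | θ p ≠ 0}, ev R.derivative (m (φ p)) (φ p j) ≠ 0 := fun j => by
    obtain ⟨Q, hQ, hQ'⟩ := dep _ φ n C hH (Fin.cons (X j) u) (Fin.cases (by simp) (by simpa))
    refine exists_min _ (fun p => m (φ p)) (fun p => φ p j) hx (finSuccEquiv ℂ n Q)
      (by simpa using hQ) fun p hp => ?_
    rw [ev, ← eval_eq_eval_mv_eval', ← hQ' p hp]
    congr 2
    funext i
    refine Fin.cases ?_ (fun i => ?_) i <;> simp [hu']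
  choose R hR q hq hq' using hR
  choose S hS hS1 hS2 using fun j => divd (R j)
  choose P' hP' using fun j => hpol j (R j).derivative
  choose d F hF hF' using fun j => homog hθ hΦ (P' j)
  have hD : ∀ j, IsOpen {p | F j p ≠ 0} ∧ Dense {p | F j p ≠ 0} := fun j =>
    dense_ne (hF j) (q := q j) (by
      rw [hF' j _ (hq j), ← hφ', hP']; exact mul_ne_zero (pow_ne_zero _ (hq j)) (hq' j))
  have hinj : ∀ᶠ p in 𝓝 (0 : G), Function.Injective (m.comp (fderiv ℂ φ p)) :=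
    (continuousAt_const.clm_comp (ha 0 h0).fderiv.continuousAt).eventually
      (ContinuousLinearMap.isOpen_injective.mem_nhds hm0)
  obtain ⟨p₀, ⟨⟨e1, e2⟩, e3⟩, e4⟩ := mem_closure_iff_nhds.1
    (dense_iInter_of_isOpen (fun j => (hD j).1) (fun j => (hD j).2) 0) _
    (inter_mem (inter_mem hW hev) hinj)
  have e2 : θ p₀ ≠ 0 := e2
  have e3 : Function.Injective (m.comp (fderiv ℂ φ p₀)) := e3
  refine ⟨p₀, e1, e2, Function.Injective.of_comp (f := m) e3, fun U hU => ?_⟩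
  have hc := (ha p₀ e2).continuousAt
  have h1 : ∀ᶠ z in 𝓝 (φ p₀) ×ˢ 𝓝 p₀, ∀ j, S j (m z.1, z.1 j, φ z.2 j) ≠ 0 := by
    rw [← nhds_prod_eq]
    refine eventually_all.2 fun j => ContinuousAt.eventually_ne ?_ ?_
    · have h2 : ContinuousAt (fun z : (σ → ℂ) × G => φ z.2) (φ p₀, p₀) :=
        ContinuousAt.comp (f := Prod.snd) hc continuousAt_snd
      exact (hS j).continuousAt.comp ((m.continuous.comp continuous_fst).continuousAt.prodMk
        (((continuous_apply j).comp continuous_fst).continuousAt.prodMk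
          ((continuous_apply j).continuousAt.comp h2)))
    · have h2 : F j p₀ ≠ 0 := Set.mem_iInter.1 e4 j
      rw [hF' j _ e2, ← hφ', hP'] at h2
      rw [hS2]
      exact right_ne_zero_of_mul h2
  obtain ⟨pa, h2, pb, h3, h4⟩ := eventually_prod_iff.1 h1
  have h5 : (fun p => m (φ p)) '' (U ∩ {p | pb p ∧ θ p ≠ 0}) ∈ 𝓝 (m (φ p₀)) := by
    rw [← hmap p₀ e2 e3]
    exact image_mem_map (inter_mem hU (h3.and ((hθ p₀).continuousAt.eventually_ne e2)))
  filter_upwards [h2, m.continuous.continuousAt.eventually h5] with y hy ⟨p, ⟨hp, hp1, hp2⟩, hp3⟩ hI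
  refine ⟨p, hp, funext fun j => ?_⟩
  obtain ⟨P, hP⟩ := hpol j (R j)
  have h6 := hI P fun p hp => by rw [hP]; exact hR j p hp
  have h7 := hS1 j (m y) (y j) (φ p j)
  have hp3 : m (φ p) = m y := hp3
  rw [← hP, h6, ← hp3, hR j p hp2, hp3, sub_self] at h7
  exact sub_eq_zero.1 ((mul_eq_zero.1 h7.symm).resolve_left (h4 hy hp1 j))

end Sm

/-- Module PROP. -/
theorem prop (hH : HilbStmt) : PropStmt := by
  intro g N Θ Λ η h e ℓ
  obtain ⟨C₀, hC⟩ := hH g N Θ Λ η h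
  obtain ⟨C, hC⟩ := (hC e ℓ).1
  let ρ : Fin (N + 1) ⊕ Fin e → Fin (N + 1) ⊕ Fin e × Fin (N + 1) := Sum.map id fun k => (k, 0)
  have hφ : ∀ (p : GE g e) j, ch Θ ℓ 0 p j = xt Θ ℓ (ρ j) p / Θ 0 p.1 := fun p j => by
    cases j <;> rfl
  have hθ : ∀ i (p : GE g e), AnalyticAt ℂ (fun p : GE g e => Θ i p.1) p := fun i p =>
    (h.hol i p.1).comp analyticAt_fst
  have hΦ : ∀ j (p : GE g e), AnalyticAt ℂ (fun p => xt Θ ℓ (ρ j) p) p := fun j p => by
    cases j with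
    | inl j => exact hθ j p
    | inr k =>
      have h1 : AnalyticAt ℂ (fun z => fderiv ℂ (Θ 0) z (ℓ k)) p.1 :=
        ((ContinuousLinearMap.apply ℂ ℂ (ℓ k)).analyticAt _).comp (h.hol 0 p.1).fderiv
      have h2 : AnalyticAt ℂ (fun p : GE g e => p.2 k) p :=
        (((ContinuousLinearMap.proj k).comp
          (ContinuousLinearMap.snd ℂ (Fin g → ℂ) (Fin e → ℂ))).analyticAt p :)
      exact (h1.comp analyticAt_fst).fun_add (h2.fun_mul (hθ 0 p))
  have ha : ∀ p : GE g e, Θ 0 p.1 ≠ 0 → AnalyticAt ℂ (ch Θ ℓ 0) p := fun p hp =>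
    analyticAt_pi_iff.2 fun j => by simp only [hφ]; exact (hΦ j p).fun_div (hθ 0 p) hp
  have hf : ∀ z, Θ 0 z ≠ 0 → AnalyticAt ℂ (fun z i => Θ i z / Θ 0 z) z := fun z hz =>
    analyticAt_pi_iff.2 fun i => (h.hol i z).div (h.hol 0 z) hz
  have key : ∀ p : GE g e, Θ 0 p.1 ≠ 0 → ∀ x j, fderiv ℂ (ch Θ ℓ 0) p x (Sum.inl j) =
      fderiv ℂ (fun z i => Θ i z / Θ 0 z) p.1 x.1 j := fun p hp x j => by
    have h1 := hasFDerivAt_pi'.1 (ha p hp).differentiableAt.hasFDerivAt (Sum.inl j)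
    have h2 := (hasFDerivAt_pi'.1 (hf p.1 hp).differentiableAt.hasFDerivAt j).comp p
      (hasFDerivAt_fst (p := p))
    exact DFunLike.congr_fun (h1.unique h2) x
  have h0 : Θ 0 (0 : GE g e).1 ≠ 0 := h.ne0
  have hi : Function.Injective (fderiv ℂ (ch Θ ℓ 0) (0 : GE g e)) := by
    rw [injective_iff_map_eq_zero]
    rintro ⟨w, v⟩ hx
    obtain rfl : w = 0 := (injective_iff_map_eq_zero _).1 h.imm w (funext fun j => by
      have := key 0 h0 (w, v) j
      rw [hx] at this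
      exact this.symm)
    refine Prod.ext rfl (funext fun k => ?_)
    have h1 := hasFDerivAt_pi'.1 (ha 0 h0).differentiableAt.hasFDerivAt (Sum.inr k)
    have h2 : HasDerivAt (fun s : ℂ => s • ((0, v) : GE g e)) (0, v) 0 := by
      simpa using (hasDerivAt_id (0 : ℂ)).smul_const ((0, v) : GE g e)
    have h3 := HasFDerivAt.comp_hasDerivAt_of_eq 0 h1 h2 (zero_smul _ _).symm
    have h4 : HasDerivAt (fun s : ℂ => fderiv ℂ (Θ 0) 0 (ℓ k) / Θ 0 0 + s * v k) (v k) 0 := by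
      simpa using ((hasDerivAt_id (0 : ℂ)).mul_const (v k)).const_add
        (fderiv ℂ (Θ 0) 0 (ℓ k) / Θ 0 0)
    have h5 := h3.unique (h4.congr_of_eventuallyEq (Eventually.of_forall fun s => by
      have := h.ne0
      simp only [Function.comp_apply, ch, xt, Sum.elim_inr, Prod.smul_mk, smul_zero,
        Pi.smul_apply, smul_eq_mul]
      field_simp))
    simpa [hx] using h5.symm
  have hW : {p : GE g e | Function.Injective (fderiv ℂ (fun z i => Θ i z / Θ 0 z) p.1)} ∈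
      𝓝 (0 : GE g e) :=
    (ContinuousAt.comp (f := Prod.fst) (hf _ h0).fderiv.continuousAt continuousAt_fst).eventually
      (ContinuousLinearMap.isOpen_injective.mem_nhds h.imm)
  obtain ⟨p₀, e1, e2, e3, e4⟩ := Sm.smooth (hθ 0) hΦ hφ h0 hi (g + e) C (by simp)
    (fun d κ _ P hP hc => by
      obtain ⟨c, h1, h2⟩ := hC d κ (fun i => rename ρ (P i))
        (fun i => (totalDegree_rename_le _ _).trans (hP i)) hc
      refine ⟨c, h1, fun p hp => ?_⟩
      rw [← h2 p hp]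
      simp only [eval_rename]
      rw [funext (hφ p)]
      rfl) _ hW
  refine ⟨p₀, e2, fun x hx => (injective_iff_map_eq_zero _).1 e1 x.1 (funext fun j => ?_), e3, e4⟩
  rw [← key p₀ e2, hx]
  rfl

end Pool.Agent.CMQ

end MrgPart1

-- ======== part 2: formerly Pool.Agent.MP_cbf1af_ag.cmp2.Coord
section MrgPart2

/-! ZERO2, row COORD: a chart adapted to a subspace and to independent directions. -/

namespace Pool.Agent.CMQ

open MvPolynomial Filter Topology Asymptotics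
open Pool.Agent.CMP.Apx (Pol exists_of_mem coord_mem const_mem)

namespace Coord

theorem multi_mem {E σ κ : Type} [Fintype κ] {f : E → σ → ℂ} {n : ℕ} {φ : E → κ → ℂ}
    (hφ : ∀ j, (fun z => φ z j) ∈ Pol f)
    (p : ContinuousMultilinearMap ℂ (fun _ : Fin n => κ → ℂ) ℂ) :
    (fun z => p fun _ => φ z) ∈ Pol f := by
  classical
  have e : (fun z => p fun _ => φ z) = ∑ r : Fin n → κ,
      (∏ i, fun z => φ z (r i)) * fun _ => p fun i => Pi.single (r i) 1 := by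
    funext z
    have h1 : (fun _ : Fin n => φ z) = fun _ => ∑ j, φ z j • (Pi.single j 1 : κ → ℂ) := by
      funext _ j
      simp [Finset.sum_apply, Pi.single_apply]
    rw [h1, p.map_sum]
    simp only [Finset.sum_apply, Pi.mul_apply, Finset.prod_apply, p.map_smul_univ, smul_eq_mul]
  rw [e]
  exact sum_mem fun r _ => mul_mem (prod_mem fun i _ => hφ _) (const_mem _)

theorem lin_eq {σ κ : Type} [Fintype σ] [DecidableEq σ] (M : (σ → ℂ) →ₗ[ℂ] κ → ℂ) (x : σ → ℂ)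
    (j : κ) : M x j = ∑ i, M (Pi.single i 1) j * x i := by
  have h1 : x = ∑ i, x i • (Pi.single i 1 : σ → ℂ) := by
    funext j
    simp [Finset.sum_apply, Pi.single_apply]
  conv_lhs => rw [h1, map_sum]
  simp only [map_smul, Finset.sum_apply, Pi.smul_apply, smul_eq_mul, mul_comm]

/-- linear coordinates are approximated by polynomials in the components of an immersion -/
theorem apx {κ σ : Type} [Fintype κ] [Fintype σ] {f : (κ → ℂ) → σ → ℂ} (ha : AnalyticAt ℂ f 0)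
    (hi : Function.Injective (fderiv ℂ f 0)) (L : (κ → ℂ) →L[ℂ] ℂ) (k : ℕ) :
    ∃ P : MvPolynomial σ ℂ, (fun z => eval (f z) P - L z) =O[𝓝 0] fun z => ‖z‖ ^ k := by
  classical
  obtain ⟨M₀, hM⟩ := (fderiv ℂ f 0).toLinearMap.exists_leftInverse_of_injective
    (LinearMap.ker_eq_bot.2 hi)
  let M := LinearMap.toContinuousLinearMap M₀
  let φ : (κ → ℂ) → κ → ℂ := fun z => M (f z) - M (f 0)
  have h0 : φ 0 = 0 := sub_self _
  have hφ : AnalyticAt ℂ φ 0 := ((M.analyticAt _).comp ha).sub analyticAt_const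
  have hd : HasStrictFDerivAt φ
      (ContinuousLinearEquiv.refl ℂ (κ → ℂ) : (κ → ℂ) →L[ℂ] κ → ℂ) 0 := by
    have := (M.hasStrictFDerivAt.comp 0 ha.hasStrictFDerivAt).sub_const (M (f 0))
    exact this.congr_fderiv (ContinuousLinearMap.ext fun x => LinearMap.congr_fun hM x)
  have hψ := (hd.toOpenPartialHomeomorph φ).analyticAt_symm'
    hd.mem_toOpenPartialHomeomorph_source hφ hd.hasFDerivAt.fderiv
  rw [hd.toOpenPartialHomeomorph_coe, h0] at hψ
  obtain ⟨p, hp⟩ := (L.analyticAt _).comp hψ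
  have hc : ∀ j, (fun z => φ z j) ∈ Pol f := fun j => by
    have e : (fun z => φ z j) = ∑ i, (fun _ => M₀ (Pi.single i 1) j) * (fun z => f z i) -
        fun _ => M (f 0) j := by
      funext z
      simp only [φ, Pi.sub_apply, Finset.sum_apply, Pi.mul_apply]
      rw [← lin_eq M₀]
      rfl
    rw [e]
    exact sub_mem (sum_mem fun i _ => mul_mem (const_mem _) (coord_mem i)) (const_mem _)
  have hs : (fun z => p.partialSum k (φ z)) ∈ Pol f := by
    have e : (fun z => p.partialSum k (φ z)) =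
        ∑ n ∈ Finset.range k, fun z => p n fun _ => φ z := by
      funext z
      simp only [FormalMultilinearSeries.partialSum, Finset.sum_apply]
    rw [e]
    exact sum_mem fun n _ => multi_mem hc _
  obtain ⟨P, hP⟩ := exists_of_mem hs
  refine ⟨P, ?_⟩
  have ht : Tendsto φ (𝓝 0) (𝓝 0) := by simpa only [ContinuousAt, h0] using hφ.continuousAt
  have h1 := ((hp.isBigO_sub_partialSum_pow k).comp_tendsto ht).neg_left
  have h2 : φ =O[𝓝 0] fun z => z := by simpa only [h0, sub_zero] using hd.hasFDerivAt.isBigO_sub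
  refine (h1.trans (h2.norm_norm.pow k)).congr' ?_ EventuallyEq.rfl
  filter_upwards [hd.eventually_left_inverse] with z hz
  rw [HasStrictFDerivAt.localInverse_def] at hz
  simp only [Function.comp_apply, zero_add, hz, hP, neg_sub]

/-- extension of an independent family to a basis -/
theorem exists_basis {Q : Type} [AddCommGroup Q] [Module ℂ Q] [FiniteDimensional ℂ Q] {a : ℕ}
    {v : Fin a → Q} (hv : LinearIndependent ℂ v) :
    ∃ (q : ℕ) (B : Module.Basis (Fin a ⊕ Fin q) ℂ Q), ∀ i, B (Sum.inl i) = v i := by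
  obtain ⟨S, hS⟩ := (Submodule.span ℂ (Set.range v)).exists_isCompl
  let b := Module.finBasis ℂ S
  have hu : LinearIndependent ℂ (S.subtype ∘ b) := b.linearIndependent.map' _ S.ker_subtype
  have hs : Submodule.span ℂ (Set.range (S.subtype ∘ b)) = S := by
    rw [Set.range_comp, Submodule.span_image, b.span_eq, Submodule.map_top, S.range_subtype]
  refine ⟨_, Module.Basis.mk (hv.sum_type hu (by rw [hs]; exact hS.disjoint)) ?_, fun i => ?_⟩
  · rw [Set.Sum.elim_range, Submodule.span_union, hs, hS.sup_eq_top]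
  · simp

end Coord

open Coord in
/-- Row COORD. -/
theorem coord : CoordStmt := by
  intro G σ τ _ _ _ _ _ φ p₀ 𝔥 a w hφ hi h𝔥 hw
  classical
  have : CompleteSpace G := FiniteDimensional.complete ℂ G
  obtain ⟨q, B, hB⟩ := exists_basis hw
  choose b hb using fun i : Fin q => 𝔥.mkQ_surjective (B (Sum.inr i))
  let t : Fin a ⊕ Fin q → G →L[ℂ] ℂ := fun i =>
    LinearMap.toContinuousLinearMap (B.coord i ∘ₗ 𝔥.mkQ)
  have ht : ∀ i p, t i p = B.repr (𝔥.mkQ p) i := fun _ _ => rfl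
  have hdec : ∀ p, p - (∑ i, t (Sum.inl i) p • w i + ∑ i, t (Sum.inr i) p • b i) ∈ 𝔥 := by
    intro p
    rw [← Submodule.Quotient.mk_eq_zero, ← Submodule.mkQ_apply, map_sub, map_add, map_sum,
      map_sum, sub_eq_zero]
    conv_lhs => rw [← B.sum_repr (𝔥.mkQ p), Fintype.sum_sum_type]
    simp only [map_smul, hb, ht, hB, Function.comp_apply]
  let π : (σ ⊕ τ → ℂ) →L[ℂ] σ → ℂ :=
    ContinuousLinearMap.pi fun j => ContinuousLinearMap.proj (Sum.inl j)
  let D : 𝔥 →ₗ[ℂ] σ → ℂ := (π.comp (fderiv ℂ φ p₀)).toLinearMap ∘ₗ 𝔥.subtype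
  obtain ⟨M₀, hM⟩ := D.exists_leftInverse_of_injective (LinearMap.ker_eq_bot'.2 fun x hx =>
    Subtype.ext (h𝔥 x x.2 fun j => congrFun hx j))
  let M : (σ → ℂ) →ₗ[ℂ] Fin (Module.finrank ℂ 𝔥) → ℂ :=
    (Module.finBasis ℂ 𝔥).equivFun.toLinearMap ∘ₗ M₀
  let y : Fin (Module.finrank ℂ 𝔥) → σ → ℂ := fun i j => M (Pi.single j 1) i
  let χ : G → Fin (Module.finrank ℂ 𝔥) ⊕ (Fin a ⊕ Fin q) → ℂ := fun p =>
    Sum.elim (fun i => ∑ j, y i j * (φ p (Sum.inl j) - φ p₀ (Sum.inl j))) fun i => t i (p - p₀)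
  have h0 : χ p₀ = 0 := by
    funext i
    rcases i with i | i <;> simp [χ]
  let N : (σ ⊕ τ → ℂ) × G →L[ℂ] Fin (Module.finrank ℂ 𝔥) ⊕ (Fin a ⊕ Fin q) → ℂ :=
    ContinuousLinearMap.pi (Sum.elim (fun i => (ContinuousLinearMap.proj i).comp
      (((LinearMap.toContinuousLinearMap M).comp π).comp (ContinuousLinearMap.fst ℂ _ _)))
      fun i => (t i).comp (ContinuousLinearMap.snd ℂ _ _))
  have e : χ = fun p => N (φ p - φ p₀, p - p₀) := by
    funext p i
    rcases i with i | i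
    · exact (lin_eq M (π (φ p - φ p₀)) i).symm
    · rfl
  have hχ : AnalyticAt ℂ χ p₀ := by
    rw [e]
    exact (N.analyticAt _).comp ((hφ.sub analyticAt_const).prod
      (analyticAt_id.sub analyticAt_const))
  let L₀ := N.comp ((fderiv ℂ φ p₀).prod (ContinuousLinearMap.id ℂ G))
  have hL : Function.Injective L₀.toLinearMap := by
    rw [injective_iff_map_eq_zero]
    intro x hx
    have h1 : x ∈ 𝔥 := by
      have h2 : ∀ i, t i x = 0 := fun i => congrFun hx (Sum.inr i)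
      simpa [h2] using hdec x
    have h3 : (Module.finBasis ℂ 𝔥).equivFun (M₀ (D ⟨x, h1⟩)) = 0 :=
      funext fun i => congrFun hx (Sum.inl i)
    have h4 : M₀ (D ⟨x, h1⟩) = ⟨x, h1⟩ := LinearMap.congr_fun hM _
    rw [h4, LinearEquiv.map_eq_zero_iff] at h3
    exact congrArg Subtype.val h3
  have hdim : Module.finrank ℂ 𝔥 + (a + q) = Module.finrank ℂ G := by
    have h1 := Module.finrank_eq_card_basis B
    have h2 := 𝔥.finrank_quotient_add_finrank
    simp only [Fintype.card_sum, Fintype.card_fin] at h1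
    omega
  let L := (LinearEquiv.ofInjectiveOfFinrankEq L₀.toLinearMap hL
    (by simp [← hdim])).toContinuousLinearEquiv
  have hd : HasStrictFDerivAt χ (L : G →L[ℂ] _) p₀ := by
    rw [e]
    exact (N.hasStrictFDerivAt.comp p₀ ((hφ.hasStrictFDerivAt.sub_const _).prodMk
      ((hasStrictFDerivAt_id p₀).sub_const _))).congr_fderiv (by ext1 x; rfl)
  have hΨ := (hd.toOpenPartialHomeomorph χ).analyticAt_symm'
    hd.mem_toOpenPartialHomeomorph_source hχ hd.hasFDerivAt.fderiv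
  rw [hd.toOpenPartialHomeomorph_coe, h0, ← HasStrictFDerivAt.localInverse_def] at hΨ
  have hΨ0 := hd.localInverse_apply_image
  have hr := hd.eventually_right_inverse
  have hD := hd.to_localInverse
  rw [h0] at hΨ0 hr hD
  refine ⟨_, q, y, t, b, hd.localInverse χ L p₀, rfl, hdim, fun i p hp => ?_, hdec, hΨ, hΨ0,
    hr.mono fun x hx => ⟨fun i => congrFun hx (Sum.inl i), fun i => congrFun hx (Sum.inr i)⟩,
    hd.eventually_left_inverse, fun i k => ?_⟩
  · rw [ht, Submodule.mkQ_apply, (Submodule.Quotient.mk_eq_zero 𝔥).2 hp]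
    simp
  · have hφ' : AnalyticAt ℂ φ (hd.localInverse χ L p₀ 0) := hΨ0.symm ▸ hφ
    refine apx (f := fun x => φ (hd.localInverse χ L p₀ x)) (hφ'.comp hΨ) ?_
      (ContinuousLinearMap.proj i) k
    have h5 := (hφ'.differentiableAt.hasFDerivAt.comp 0 hD.hasFDerivAt).fderiv
    rw [hΨ0] at h5
    rw [show fderiv ℂ (fun x => φ (hd.localInverse χ L p₀ x)) 0 = _ from h5]
    exact hi.comp L.symm.injective

end Pool.Agent.CMQ

end MrgPart2

-- ======== part 3: formerly Pool.Agent.MP_cbf1af_ag.cmp2.ZeroA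
section MrgPart3

/-! The zero estimate: the case of a stabiliser without vector part. -/

namespace Pool.Agent.CMQ

open MvPolynomial Filter Topology Asymptotics

noncomputable section

namespace Zr

theorem curve_tendsto {κ : Type} {ω : κ → ℕ} (hω : ∀ i, 1 ≤ ω i) (ξ : κ → ℂ) :
    Tendsto (fun τ : ℂ => fun i => τ ^ ω i * ξ i) (𝓝 0) (𝓝 0) := by
  refine tendsto_pi_nhds.2 fun i => ?_
  have : Continuous fun τ : ℂ => τ ^ ω i * ξ i := by fun_prop
  simpa [zero_pow (Nat.one_le_iff_ne_zero.1 (hω i))] using this.tendsto 0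

theorem pow_bigO {a b : ℕ} (h : a ≤ b) (c : ℂ) :
    (fun τ : ℂ => τ ^ b * c) =O[𝓝 0] fun τ : ℂ => τ ^ a := by
  obtain ⟨d, rfl⟩ := Nat.exists_eq_add_of_le h
  have h1 : (fun τ : ℂ => τ ^ d * c) =O[𝓝 0] fun _ : ℂ => (1 : ℂ) :=
    Tendsto.isBigO_one ℂ (ContinuousAt.tendsto (by fun_prop))
  refine ((isBigO_refl (fun τ : ℂ => τ ^ a) _).mul h1).congr (fun τ => ?_) fun τ => mul_one _
  ring

theorem curve_ord {G : Type} [NormedAddCommGroup G] [NormedSpace ℂ G] {r a q T : ℕ}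
    {W : Fin r → G} {f : Fin a → Fin r} {𝔥 : Submodule ℂ G} {p₀ : G} {Q : G → ℂ}
    {b : Fin q → G} {P : ℂ → G} (ξ : Fin a → ℂ) (ξ' : Fin q → ℂ)
    (hT : 1 ≤ T) (hQ : AnalyticAt ℂ Q p₀) (ho : ∀ y ∈ 𝔥, OrdL W T Q (p₀ + y))
    (hP : Tendsto P (𝓝 0) (𝓝 p₀))
    (hd : ∀ᶠ τ in 𝓝 (0 : ℂ),
      P τ - p₀ - (∑ i, (τ * ξ i) • W (f i) + ∑ i, (τ ^ T * ξ' i) • b i) ∈ 𝔥) :
    (fun τ => Q (P τ)) =O[𝓝 0] fun τ : ℂ => τ ^ T := by
  classical
  obtain ⟨C, hC⟩ := ordL_uniform hQ W T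
  obtain ⟨x0, hx0⟩ : ∃ x0 : Fin r → ℂ, x0 = ∑ i, ξ i • (Pi.single (f i) 1 : Fin r → ℂ) := ⟨_, rfl⟩
  obtain ⟨w0, hw0⟩ : ∃ w0 : G, w0 = ∑ i, ξ i • W (f i) := ⟨_, rfl⟩
  obtain ⟨b0, hb0⟩ : ∃ b0 : G, b0 = ∑ i, ξ' i • b i := ⟨_, rfl⟩
  have e0 : ∑ j, x0 j • W j = w0 := by
    rw [hx0, hw0]
    simp only [Finset.sum_apply, Pi.smul_apply, smul_eq_mul, Finset.sum_smul]
    rw [Finset.sum_comm]
    refine Finset.sum_congr rfl fun i _ => ?_
    simp [Pi.single_apply]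
  have e1 : ∀ τ : ℂ, ∑ j, (τ • x0) j • W j = τ • w0 := fun τ => by
    rw [← e0, Finset.smul_sum]
    simp [mul_smul]
  have e2 : ∀ τ : ℂ, ∑ i, (τ * ξ i) • W (f i) + ∑ i, (τ ^ T * ξ' i) • b i =
      τ • w0 + τ ^ T • b0 := fun τ => by
    simp [hw0, hb0, Finset.smul_sum, mul_smul]
  have t1 : Tendsto (fun τ : ℂ => τ • w0) (𝓝 0) (𝓝 0) := by
    have : Continuous fun τ : ℂ => τ • w0 := by fun_prop
    simpa using this.tendsto 0
  have t2 : Tendsto (fun τ : ℂ => τ ^ T • b0) (𝓝 0) (𝓝 0) := by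
    have : Continuous fun τ : ℂ => τ ^ T • b0 := by fun_prop
    simpa [zero_pow (Nat.one_le_iff_ne_zero.1 hT)] using this.tendsto 0
  have t3 : Tendsto (fun τ : ℂ => τ • x0) (𝓝 0) (𝓝 0) := by
    have : Continuous fun τ : ℂ => τ • x0 := by fun_prop
    simpa using this.tendsto 0
  have t4 : Tendsto (fun τ : ℂ => P τ - τ ^ T • b0) (𝓝 0) (𝓝 p₀) := by simpa using hP.sub t2
  have t5 : Tendsto (fun τ : ℂ => P τ - τ ^ T • b0 - τ • w0) (𝓝 0) (𝓝 p₀) := by
    simpa using t4.sub t1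
  have h1 : (fun τ => Q (P τ - τ ^ T • b0)) =O[𝓝 0] fun τ : ℂ => τ ^ T := by
    refine IsBigO.of_bound (C * ‖x0‖ ^ T) ?_
    filter_upwards [(t5.prodMk_nhds t3).eventually hC, hd] with τ h1 h2
    rw [e2] at h2
    have h3 := ho _ h2
    rw [show p₀ + (P τ - p₀ - (τ • w0 + τ ^ T • b0)) = P τ - τ ^ T • b0 - τ • w0 by abel] at h3
    have h4 := h1 h3
    simp only [e1, sub_add_cancel] at h4
    rw [norm_smul, mul_pow] at h4
    rw [norm_pow]
    linarith
  have h2 : (fun τ => P τ - (P τ - τ ^ T • b0)) =O[𝓝 0] fun τ : ℂ => τ ^ T := by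
    refine IsBigO.of_bound ‖b0‖ (Eventually.of_forall fun τ => ?_)
    rw [sub_sub_cancel, norm_smul, mul_comm]
  have h3 := hQ.hasStrictFDerivAt.isBigO_sub.comp_tendsto (hP.prodMk_nhds t4)
  exact ((h3.trans h2).add h1).congr_left fun τ => sub_add_cancel _ _

/-- order along `W` at the points of `p₀ + 𝔥` gives weighted order in an adapted chart -/
theorem oc_of_ord {G : Type} [NormedAddCommGroup G] [NormedSpace ℂ G] {r h a q T ωA : ℕ}
    {W : Fin r → G} {f : Fin a → Fin r} {𝔥 : Submodule ℂ G} {p₀ : G} {Q : G → ℂ}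
    {t : Fin a ⊕ Fin q → G →L[ℂ] ℂ} {b : Fin q → G} {Ψ : (Fin h ⊕ (Fin a ⊕ Fin q) → ℂ) → G}
    (hT : 1 ≤ T) (hA : 1 ≤ ωA) (hQ : AnalyticAt ℂ Q p₀) (ho : ∀ y ∈ 𝔥, OrdL W T Q (p₀ + y))
    (hd : ∀ p, p - (∑ i, t (Sum.inl i) p • W (f i) + ∑ i, t (Sum.inr i) p • b i) ∈ 𝔥)
    (hΨ : Tendsto Ψ (𝓝 0) (𝓝 p₀)) (ht : ∀ᶠ x in 𝓝 0, ∀ i, t i (Ψ x - p₀) = x (Sum.inr i)) :
    OC (Sum.elim (fun _ => ωA) (Sum.elim (fun _ => 1) fun _ => T)) T fun x => Q (Ψ x) := by
  intro ξ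
  have hγ := curve_tendsto (ω := (Sum.elim (fun _ => ωA) (Sum.elim (fun _ => 1) fun _ => T) :
    Fin h ⊕ (Fin a ⊕ Fin q) → ℕ)) (by rintro (_ | _ | _) <;> simp [hT, hA]) ξ
  refine curve_ord (f := f) (b := b) (fun i => ξ (Sum.inr (Sum.inl i)))
    (fun i => ξ (Sum.inr (Sum.inr i))) hT hQ ho (hΨ.comp hγ) ?_
  filter_upwards [hγ.eventually ht] with τ hτ
  have := hd (Ψ (fun i => τ ^ (Sum.elim (fun _ => ωA) (Sum.elim (fun _ => 1) fun _ => T) :
    Fin h ⊕ (Fin a ⊕ Fin q) → ℕ) i * ξ i) - p₀)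
  simp only [hτ, Sum.elim_inr, Sum.elim_inl, pow_one] at this
  exact this

variable {g N e : ℕ} {Θ : Fin (N + 1) → (Fin g → ℂ) → ℂ} {Λ : AddSubgroup (Fin g → ℂ)}
  {η : (Fin g → ℂ) → (Fin g → ℂ) →ₗ[ℂ] ℂ} {ℓ : Fin e → Fin g → ℂ} {κ : Type}

/-- the bifiltration by analytic sections, read in a chart -/
def Fil (Θ : Fin (N + 1) → (Fin g → ℂ) → ℂ) (Λ : AddSubgroup (Fin g → ℂ))
    (η : (Fin g → ℂ) → (Fin g → ℂ) →ₗ[ℂ] ℂ) (ℓ : Fin e → Fin g → ℂ) (Ψ : (κ → ℂ) → GE g e)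
    (a b : ℕ) : Submodule ℂ ((κ → ℂ) → ℂ) where
  carrier := {f | ∃ F, An Θ Λ η ℓ a b F ∧ ∀ᶠ x in 𝓝 0, F (Ψ x) = Θ 0 (Ψ x).1 ^ a * f x}
  zero_mem' := ⟨_, An.zero a b, by simp⟩
  add_mem' := by
    rintro f f' ⟨F, h1, h2⟩ ⟨F', h1', h2'⟩
    refine ⟨_, h1.add h1', ?_⟩
    filter_upwards [h2, h2'] with x a1 a2
    rw [a1, a2, Pi.add_apply, mul_add]
  smul_mem' := by
    rintro c f ⟨F, h1, h2⟩
    refine ⟨_, h1.smul c, ?_⟩
    filter_upwards [h2] with x a1
    rw [a1, Pi.smul_apply, smul_eq_mul]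
    ring

theorem Fil_mul {Ψ : (κ → ℂ) → GE g e} (a b a' b' : ℕ) (f : (κ → ℂ) → ℂ)
    (hf : f ∈ Fil Θ Λ η ℓ Ψ a b) (f' : (κ → ℂ) → ℂ) (hf' : f' ∈ Fil Θ Λ η ℓ Ψ a' b') :
    f * f' ∈ Fil Θ Λ η ℓ Ψ (a + a') (b + b') := by
  obtain ⟨F, h1, h2⟩ := hf
  obtain ⟨F', h1', h2'⟩ := hf'
  refine ⟨_, h1.mul h1', ?_⟩
  filter_upwards [h2, h2'] with x a1 a2
  rw [a1, a2, Pi.mul_apply, pow_add]
  ring

theorem Fil_mono (h : IsTheta Θ Λ η) {Ψ : (κ → ℂ) → GE g e} (a b a' b' : ℕ) (ha : a ≤ a')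
    (hb : b ≤ b') : Fil Θ Λ η ℓ Ψ a b ≤ Fil Θ Λ η ℓ Ψ a' b' := by
  rintro f ⟨F, h1, h2⟩
  obtain ⟨d, rfl⟩ := Nat.exists_eq_add_of_le ha
  have h3 := h1.mul ((An.theta (ℓ := ℓ) h 0).pow d)
  rw [mul_one, mul_zero, add_zero] at h3
  refine ⟨_, h3.mono hb, ?_⟩
  filter_upwards [h2] with x a1
  rw [a1, pow_add]
  ring

theorem arith {C g e h a q D δ T ω : ℕ} (hn : h + (a + q) = g + e) (hh : h ≤ g) (hD : 1 ≤ D)
    (hδ : 1 ≤ δ) (hT : 1 ≤ T) (hω : ω * D ≤ 2 * T)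
    (H : T ^ (g + e) ≤ C * (2 * D + 1) ^ g * (δ + 1) ^ e * (ω ^ h * T ^ q)) :
    T ^ a * D ^ h ≤ C * 6 ^ g * 2 ^ e * D ^ g * δ ^ e := by
  have h1 : (2 * D + 1) ^ g ≤ (3 * D) ^ g := Nat.pow_le_pow_left (by omega) g
  have h2 : (δ + 1) ^ e ≤ (2 * δ) ^ e := Nat.pow_le_pow_left (by omega) e
  have h3 : (ω * D) ^ h ≤ 2 ^ g * T ^ h := by
    refine (Nat.pow_le_pow_left hω h).trans ?_
    rw [mul_pow]
    exact Nat.mul_le_mul_right _ (Nat.pow_le_pow_right two_pos hh)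
  refine Nat.le_of_mul_le_mul_right (c := T ^ h * T ^ q) ?_ (by positivity)
  calc T ^ a * D ^ h * (T ^ h * T ^ q) = T ^ (g + e) * D ^ h := by rw [← hn]; ring
    _ ≤ C * (3 * D) ^ g * (2 * δ) ^ e * (ω ^ h * T ^ q) * D ^ h :=
        Nat.mul_le_mul_right _ (H.trans (by gcongr))
    _ = C * (3 * D) ^ g * (2 * δ) ^ e * T ^ q * (ω * D) ^ h := by ring
    _ ≤ C * (3 * D) ^ g * (2 * δ) ^ e * T ^ q * (2 ^ g * T ^ h) := Nat.mul_le_mul_left _ h3
    _ = _ := by rw [show 6 = 3 * 2 from rfl, mul_pow, mul_pow, mul_pow]; ring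

end Zr

end

end Pool.Agent.CMQ

end MrgPart3

-- ======== part 4: formerly Pool.Agent.MP_cbf1af_ag.cmp2.Zero
section MrgPart4

/-! The zero estimate on the vector extensions of an abelian variety. -/

namespace Pool.Agent.CMQ

open MvPolynomial Filter Topology Asymptotics

noncomputable section

namespace Zr

variable {g N e : ℕ} {Θ : Fin (N + 1) → (Fin g → ℂ) → ℂ} {Λ : AddSubgroup (Fin g → ℂ)}
  {η : (Fin g → ℂ) → (Fin g → ℂ) →ₗ[ℂ] ℂ}

theorem exists_sub {G : Type} [AddCommGroup G] [Module ℂ G] {r : ℕ} (W : Fin r → G)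
    (𝔥 : Submodule ℂ G) : ∃ (a : ℕ) (f : Fin a → Fin r),
      LinearIndependent ℂ (𝔥.mkQ ∘ fun i => W (f i)) ∧
      Module.finrank ℂ ((Submodule.span ℂ (Set.range W)).map 𝔥.mkQ) = a := by
  obtain ⟨κ, f, hf, hsp, hli⟩ := exists_linearIndependent' ℂ (𝔥.mkQ ∘ W)
  have : Finite κ := Finite.of_injective f hf
  have := Fintype.ofFinite κ
  refine ⟨Fintype.card κ, f ∘ (Fintype.equivFin κ).symm,
    hli.comp _ (Fintype.equivFin κ).symm.injective, ?_⟩
  rw [Submodule.map_span, ← Set.range_comp, ← hsp, finrank_span_eq_card hli]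

/-- the multiplicity bound when the stabiliser has no vector part -/
theorem base (hF : FormStmt) (hL : LocStmt) (hP : PropStmt) (hCo : CoordStmt)
    (h : IsTheta Θ Λ η) {ℓ : Fin e → Fin g → ℂ} {CH : ℕ}
    (hH : ∀ (a b : ℕ) (κ : Type) [Fintype κ] (F : κ → GE g e → ℂ),
      (∀ i, An Θ Λ η ℓ a b (F i)) → CH * (a + 1) ^ g * (b + 1) ^ e < Fintype.card κ →
      ∃ c : κ → ℂ, c ≠ 0 ∧ ∀ p, ∑ i, c i * F i p = 0)
    {r D δ T : ℕ} {W : Fin r → GE g e} (hD : 1 ≤ D) (hδ : 1 ≤ δ) (hDT : D ≤ T)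
    (𝔥 : Submodule ℂ (GE g e)) (hv : ∀ v, ((0, v) : GE g e) ∈ 𝔥 → v = 0)
    (hJ : ∀ p₀ : GE g e, ∃ J : Set (GE g e → ℂ), (∀ Q ∈ J, Cl Θ Λ η ℓ (2 * D) δ Q) ∧
      (∀ Q ∈ J, ∀ y ∈ 𝔥, OrdL W T Q (p₀ + y)) ∧
      ∀ᶠ p in 𝓝 p₀, (∀ Q ∈ J, Q p = 0) → p - p₀ ∈ 𝔥) :
    T ^ Module.finrank ℂ ((Submodule.span ℂ (Set.range W)).map 𝔥.mkQ) *
      D ^ Module.finrank ℂ (𝔥.map (LinearMap.fst ℂ _ _)) ≤
      CH * (2 * (g + e + 2)) ^ (g + e) * 6 ^ g * 2 ^ e * D ^ g * δ ^ e := by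
  classical
  obtain ⟨p₀, h0, hf, hinj, hU⟩ := hP g N Θ Λ η h e ℓ
  obtain ⟨J, hJ1, hJ2, hJ3⟩ := hJ p₀
  obtain ⟨a, f, hli, ha⟩ := exists_sub W 𝔥
  obtain ⟨d, q, y, t, b, Ψ, hd, hn, ht0, hdec, hΨ, hΨ0, hr, hl, hapx⟩ :=
    hCo (GE g e) _ _ (ch Θ ℓ 0) p₀ 𝔥 a _ (h.analyticAt_ch ℓ h0) hinj (fun x hx hx' => by
      have h1 := hf x hx'
      have h2 : x = (0, x.2) := Prod.ext h1 rfl
      rw [h2, hv x.2 (h2 ▸ hx)]
      rfl) hli
  have hd' : Module.finrank ℂ (𝔥.map (LinearMap.fst ℂ _ _)) = d := by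
    rw [hd, ← LinearMap.range_domRestrict]
    refine LinearMap.finrank_range_of_inj fun x x' hx => ?_
    have h1 : (x - x' : GE g e) = (0, (x - x' : GE g e).2) :=
      Prod.ext (sub_eq_zero.2 hx) rfl
    have h2 := hv _ (h1 ▸ 𝔥.sub_mem x.2 x'.2)
    rw [h2] at h1
    exact Subtype.ext (sub_eq_zero.1 h1)
  have hdg : d ≤ g := by
    rw [← hd']
    simpa using Submodule.finrank_le (𝔥.map (LinearMap.fst ℂ (Fin g → ℂ) (Fin e → ℂ)))
  have hn' : d + (a + q) = g + e := by simpa using hn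
  rw [ha, hd']
  have hT : 1 ≤ T := hD.trans hDT
  have hΨt : Tendsto Ψ (𝓝 0) (𝓝 p₀) := hΨ0 ▸ hΨ.continuousAt.tendsto
  have hne : ∀ᶠ x in 𝓝 0, Θ 0 (Ψ x).1 ≠ 0 := hΨt.eventually (h.eventually_ne h0)
  obtain ⟨ω, hω1, hω2, hω3, hω4⟩ : ∃ ω, 1 ≤ ω ∧ ω ≤ T ∧ T ≤ ω * D ∧ ω * D ≤ 2 * T := by
    rcases hD.eq_or_lt with rfl | hD
    · exact ⟨T, hT, le_rfl, by omega, by omega⟩
    · have h1 := Nat.div_add_mod T D
      have h2 := Nat.mod_lt T (show 0 < D by omega)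
      refine ⟨T / D + 1, Nat.le_add_left _ _, Nat.div_lt_self hT hD, ?_, ?_⟩ <;>
        rw [add_mul, mul_comm (T / D)] <;> omega
  let Y : Fin d → MvPolynomial (Fin (N + 1) ⊕ Fin e) ℂ := fun i =>
    ∑ j, C (y i j) * (X (Sum.inl j) - C (ch Θ ℓ 0 p₀ (Sum.inl j)))
  have hY : ∀ i z, eval z (Y i) = ∑ j, y i j * (z (Sum.inl j) - ch Θ ℓ 0 p₀ (Sum.inl j)) :=
    fun i z => by simp [Y]
  let J' : Set ((Fin d ⊕ (Fin a ⊕ Fin q) → ℂ) → ℂ) :=
    {φ | ∃ Q ∈ J, φ = fun x => (Θ 0 (Ψ x).1 ^ (2 * D))⁻¹ * Q (Ψ x)} ∪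
      Set.range fun i x => eval (ch Θ ℓ 0 (Ψ x)) (Y i ^ D)
  have key := hL _ _ (fun x => ch Θ ℓ 0 (Ψ x)) (Fil Θ Λ η ℓ Ψ) g e CH T (2 * D) δ
    (Sum.elim (fun _ => ω) (Sum.elim (fun _ => 1) fun _ => T)) J' (by simp [hn'])
    ((h.analyticAt_ch ℓ h0).comp_of_eq hΨ hΨ0) hapx (Fil_mono h) Fil_mul ?_ ?_ hT
    (by rintro (_ | _ | _) <;> simp [hT, hω1, hω2]) ?_ ?_
  · refine arith hn' hdg hD hδ hT hω4 ?_
    simpa [Fintype.prod_sum_type] using key
  · intro n P hP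
    obtain ⟨Q, hQ, hQ'⟩ := exists_form (Θ := Θ) (ℓ := ℓ) 0 P hP
    exact ⟨_, ((hF g N Θ Λ η h e ℓ).1 n Q hQ).1.1, hne.mono fun x hx => hQ' _ hx⟩
  · intro a' b' ι _ φ hφ hc
    choose F hF1 hF2 using hφ
    obtain ⟨c, hc0, hc1⟩ := hH a' b' ι F hF1 hc
    refine ⟨c, hc0, ?_⟩
    filter_upwards [hne, eventually_all.2 hF2] with x h1 h2
    have := hc1 (Ψ x)
    simp only [h2, mul_left_comm (c _), ← Finset.mul_sum] at this
    exact (mul_eq_zero.1 this).resolve_left (pow_ne_zero _ h1)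
  · rintro φ (⟨Q, hQ, rfl⟩ | ⟨i, rfl⟩)
    · refine ⟨⟨Q, (hJ1 Q hQ).1, hne.mono fun x hx => ?_⟩, fun ξ => ?_⟩
      · rw [mul_inv_cancel_left₀ (pow_ne_zero _ hx)]
      · have h1 := oc_of_ord (f := f) hT hω1 ((hJ1 Q hQ).analyticAt p₀) (hJ2 Q hQ) hdec hΨt
          (hr.mono fun x hx => hx.2) ξ
        have hγ := curve_tendsto (ω := (Sum.elim (fun _ => ω) (Sum.elim (fun _ => 1) fun _ => T) :
          Fin d ⊕ (Fin a ⊕ Fin q) → ℕ)) (by rintro (_ | _ | _) <;> simp [hT, hω1]) ξ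
        have h2 := ((((h.analyticAt_fst 0 p₀).continuousAt.tendsto.comp (hΨt.comp hγ)).pow
          (2 * D)).inv₀ (pow_ne_zero _ h0)).isBigO_one ℂ
        exact (h2.mul h1).congr_right fun τ => one_mul _
    · refine ⟨?_, fun ξ => ?_⟩
      · refine Fil_mono h (D * 1) (D * 0) _ _ (by omega) (by omega) ?_
        have h1 : An Θ Λ η ℓ 1 0 fun p => ∑ j, y i j *
            (Θ j p.1 - ch Θ ℓ 0 p₀ (Sum.inl j) * Θ 0 p.1) :=
          An.sum _ fun j _ => ((An.theta h j).sub ((An.theta h 0).smul _)).smul _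
        refine ⟨_, h1.pow D, hne.mono fun x hx => ?_⟩
        simp only [map_pow, hY, mul_one, ← mul_pow]
        congr 1
        rw [Finset.mul_sum]
        refine Finset.sum_congr rfl fun j _ => ?_
        have : ch Θ ℓ 0 (Ψ x) (Sum.inl j) = Θ j (Ψ x).1 / Θ 0 (Ψ x).1 := rfl
        rw [this]
        field_simp
      · have hγ := curve_tendsto (ω := (Sum.elim (fun _ => ω) (Sum.elim (fun _ => 1) fun _ => T) :
          Fin d ⊕ (Fin a ⊕ Fin q) → ℕ)) (by rintro (_ | _ | _) <;> simp [hT, hω1]) ξ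
        refine (pow_bigO hω3 (ξ (Sum.inl i) ^ D)).congr' ?_ EventuallyEq.rfl
        filter_upwards [hγ.eventually hr] with τ hτ
        rw [map_pow, hY, hτ.1 i, Sum.elim_inl, mul_pow, pow_mul]
  · simp only [hΨ0]
    filter_upwards [hU _ (hJ3.and (hl.and (h.eventually_ne h0)))] with z hz h1 h2
    obtain ⟨p, ⟨hp1, hp2, hp3⟩, rfl⟩ := hz fun P hP => h1 P (hne.mono fun x hx => hP _ hx)
    have h3 : p - p₀ ∈ 𝔥 := hp1 fun Q hQ => by
      obtain ⟨a', P, h4, h5⟩ := (hJ1 Q hQ).2 p 0 hp3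
      have h6 := h2 _ (Or.inl ⟨Q, hQ, rfl⟩) a' P (hne.mono fun x hx => by
        rw [mul_left_comm, h5 _ hx, inv_mul_cancel_left₀ (pow_ne_zero _ hx)])
      have h7 := h5 p hp3
      rw [h6, mul_zero] at h7
      exact (mul_eq_zero.1 h7).resolve_left h4
    have h4 : ∀ i, eval (ch Θ ℓ 0 p) (Y i) = 0 := fun i => by
      have := h2 _ (Or.inr ⟨i, rfl⟩) 1 (Y i ^ D) (Eventually.of_forall fun x => by simp)
      rw [map_pow] at this
      exact eq_zero_of_pow_eq_zero this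
    have h5 : p = p₀ := by
      refine hp2.symm.trans (Eq.trans (congrArg Ψ ?_) hΨ0)
      funext i
      rcases i with i | i
      · exact (hY i _).symm.trans (h4 i)
      · exact ht0 i _ h3
    rw [h5]

theorem step (hF : FormStmt) (hH : HilbStmt) (hT : TransStmt) (hC : CompStmt) (hJ : JetStmt)
    (hL : LocStmt) (hP : PropStmt) (hS : SubStmt) (hCo : CoordStmt) {u : (Fin g → ℂ) → ℝ}
    {L : (Fin g → ℂ) →ₗ[ℝ] (Fin g → ℂ) →ₗ[ℂ] ℂ} (h : IsTheta Θ Λ η) (hW : Wt Θ Λ η u L) (e : ℕ) :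
    ∃ C : ℕ, ∀ (r : ℕ) (ℓ : Fin e → Fin g → ℂ) (W : Fin r → GE g e) (D δ T : ℕ)
      (F : GE g e → ℂ), Cl Θ Λ η ℓ D δ F → F ≠ 0 → 1 ≤ D → 1 ≤ δ → D ≤ T →
      OrdL W ((g + e) * T + 1) F 0 → Obs Λ L ℓ W C D δ T ∨
        ∃ v₀ : Fin e → ℂ, v₀ ≠ 0 ∧ ∀ s : ℂ, OrdL W (T + 1) F (0, s • v₀) := by
  obtain ⟨CH, hH⟩ := hH g N Θ Λ η h
  refine ⟨CH * (2 * (g + e + 2)) ^ (g + e) * 6 ^ g * 2 ^ e,
    fun r ℓ W D δ T F hF' hne hD hδ hDT ho => ?_⟩
  obtain ⟨hJ1, hJ2⟩ := hJ g N Θ Λ η h e r ℓ W D δ F hF'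
  obtain ⟨j, -, Z, hZ, H, hZ0, hH1, hH2, hH3, hH4⟩ := hC (GE g e) _ (xt Θ ℓ) (Sum.inl 0) (g + e)
    (h.analyticAt_xt ℓ) h.ne0 (hT g N Θ Λ η h e ℓ).1 (hH e ℓ).1
    (fun j => {p | OrdL W (j * T + 1) F p}) (fun j => hJ1 _)
    (fun i j hij p hp => OrdL.mono hp (Nat.succ_le_succ (Nat.mul_le_mul_right T hij)))
    (fun hu => hne (funext fun p => OrdL.eq_zero (Set.eq_univ_iff_forall.1 hu p))) ho
  obtain ⟨𝔥, h1, h2, h3, h4⟩ := hS g N Θ Λ η u L h hW e ℓ H hH1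
  by_cases hv : ∀ v, ((0, v) : GE g e) ∈ 𝔥 → v = 0
  · refine Or.inl ⟨𝔥, fun ht => hH2 (top_unique fun p _ => h1 p (ht ▸ trivial)), h3, h4, ?_⟩
    have h5 : 𝔥.comap (LinearMap.inr ℂ (Fin g → ℂ) (Fin e → ℂ)) = ⊥ :=
      (Submodule.eq_bot_iff _).2 hv
    rw [h5, finrank_bot, pow_zero, mul_one]
    refine base hF hL hP hCo h (hH e ℓ).2 hD hδ hDT 𝔥 hv fun p₀ => ?_
    obtain ⟨J, a1, a2, a3⟩ := hJ2 (j * T + 1) T ((fun v => v - p₀) '' Z)
    refine ⟨J, a1, fun Q hQ y hy => a2 _ ?_ Q hQ, ?_⟩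
    · rintro _ ⟨v, hv, rfl⟩
      have := hZ (hH3 y (h1 y hy) v hv)
      rw [show p₀ + y + (v - p₀) = y + v by abel, show j * T + 1 + T = (j + 1) * T + 1 by ring]
      exact this
    · have ht : Tendsto (fun p => p - p₀) (𝓝 p₀) (𝓝 0) := by
        simpa using (continuous_sub_right p₀).tendsto p₀
      filter_upwards [ht.eventually (hH4.and h2)] with p hp hQ
      refine hp.2 (hp.1 fun v hv => ?_)
      have := a3 p hQ _ ⟨v, hv, rfl⟩
      rw [show p + (v - p₀) = p - p₀ + v by abel] at this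
      exact this
  · push Not at hv
    obtain ⟨v₀, hv, hv0⟩ := hv
    refine Or.inr ⟨v₀, hv0, fun s => ?_⟩
    have := hZ (hH3 _ (h1 _ (𝔥.smul_mem s hv)) 0 hZ0)
    rw [add_zero, Prod.smul_mk, smul_zero] at this
    exact OrdL.mono this (Nat.succ_le_succ (Nat.le_mul_of_pos_left T (Nat.succ_pos j)))

theorem Obs_mono {r C C' D δ T T' : ℕ} {L : (Fin g → ℂ) →ₗ[ℝ] (Fin g → ℂ) →ₗ[ℂ] ℂ}
    {ℓ : Fin e → Fin g → ℂ} {W : Fin r → GE g e} (h : Obs Λ L ℓ W C D δ T) (hC : C ≤ C')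
    (hT : T' ≤ T) : Obs Λ L ℓ W C' D δ T' := by
  obtain ⟨𝔥, h1, h2, h3, h4⟩ := h
  refine ⟨𝔥, h1, h2, h3, le_trans ?_ (h4.trans ?_)⟩ <;> gcongr

theorem finrank_comap_surj {V V' : Type} [AddCommGroup V] [Module ℂ V] [AddCommGroup V']
    [Module ℂ V'] [FiniteDimensional ℂ V] (π : V →ₗ[ℂ] V') (hπ : Function.Surjective π)
    (S : Submodule ℂ V') : Module.finrank ℂ (S.comap π) + Module.finrank ℂ V' =
      Module.finrank ℂ S + Module.finrank ℂ V := by
  have : FiniteDimensional ℂ V' := Module.Finite.of_surjective π hπ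
  have h1 := (S.mkQ ∘ₗ π).finrank_range_add_finrank_ker
  have h0 : (S.mkQ ∘ₗ π).range = ⊤ := LinearMap.range_eq_top.2 (S.mkQ_surjective.comp hπ)
  rw [LinearMap.ker_comp, Submodule.ker_mkQ, h0, finrank_top] at h1
  have h2 := S.finrank_quotient_add_finrank
  omega

theorem Obs_pull {r C D δ T : ℕ} {L : (Fin g → ℂ) →ₗ[ℝ] (Fin g → ℂ) →ₗ[ℂ] ℂ}
    {ℓ : Fin (e + 1) → Fin g → ℂ} {W : Fin r → GE g (e + 1)} {M : Matrix (Fin e) (Fin (e + 1)) ℂ}
    (hM : Function.Surjective M.mulVec)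
    (h : Obs Λ L (fun k => ∑ j, M k j • ℓ j) (fun j => ((W j).1, M.mulVec (W j).2)) C D δ T) :
    Obs Λ L ℓ W C D δ T := by
  obtain ⟨𝔥, h1, h2, h3, h4⟩ := h
  let π : GE g (e + 1) →ₗ[ℂ] GE g e := LinearMap.prodMap LinearMap.id M.mulVecLin
  have hπ : Function.Surjective π := fun p => by
    obtain ⟨v, hv⟩ := hM p.2
    exact ⟨(p.1, v), Prod.ext rfl hv⟩
  have e1 : (𝔥.comap π).map (LinearMap.fst ℂ _ _) = 𝔥.map (LinearMap.fst ℂ _ _) := by
    conv_rhs => rw [← Submodule.map_comap_eq_of_surjective hπ 𝔥, ← Submodule.map_comp]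
    rfl
  refine ⟨𝔥.comap π, fun ht => h1 ?_, e1 ▸ h2, fun w hw => ?_, ?_⟩
  · rw [← Submodule.map_comap_eq_of_surjective hπ 𝔥, ht, Submodule.map_top,
      LinearMap.range_eq_top.2 hπ]
  · have := h3 w (e1 ▸ hw)
    rw [Submodule.mem_comap]
    convert this using 1
    refine Prod.ext rfl (funext fun k => ?_)
    simp [π, Matrix.mulVec, dotProduct]
  · have e2 : Module.finrank ℂ ((𝔥.comap π).comap (LinearMap.inr ℂ _ _)) =
        Module.finrank ℂ (𝔥.comap (LinearMap.inr ℂ _ _)) + 1 := by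
      have := finrank_comap_surj M.mulVecLin hM (𝔥.comap (LinearMap.inr ℂ _ _))
      have e3 : (𝔥.comap π).comap (LinearMap.inr ℂ _ _) =
          (𝔥.comap (LinearMap.inr ℂ _ _)).comap M.mulVecLin := by
        ext v; simp [π]
      rw [e3]
      simp only [Module.finrank_fin_fun] at this
      omega
    have e4 : Module.finrank ℂ ((Submodule.span ℂ (Set.range W)).map (𝔥.comap π).mkQ) =
        Module.finrank ℂ ((Submodule.span ℂ
          (Set.range fun j => (((W j).1, M.mulVec (W j).2) : GE g e))).map 𝔥.mkQ) := by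
      have hi : Function.Injective ((𝔥.comap π).mapQ 𝔥 π le_rfl) := by
        rw [← LinearMap.ker_eq_bot, Submodule.ker_mapQ, Submodule.mkQ_map_self]
      rw [← (Submodule.equivMapOfInjective _ hi _).finrank_eq.symm.symm.symm,
        ← Submodule.map_comp, Submodule.mapQ_mkQ, Submodule.map_comp, Submodule.map_span π,
        ← Set.range_comp]
      rfl
    rw [e1, e2, e4, pow_succ, pow_succ, ← mul_assoc, ← mul_assoc]
    exact Nat.mul_le_mul_right δ h4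

end Zr

open Zr in
theorem zero (hF : FormStmt) (hH : HilbStmt) (hT : TransStmt) (hC : CompStmt) (hJ : JetStmt)
    (hL : LocStmt) (hP : PropStmt) (hS : SubStmt) (hCo : CoordStmt) (hQ : QuotStmt) :
    ZeroStmt := by
  intro g N Θ Λ η u L h hW e
  induction e with
  | zero =>
    obtain ⟨C, hC⟩ := step hF hH hT hC hJ hL hP hS hCo h hW 0
    refine ⟨g + 0, C, fun r ℓ W D δ T F a1 a2 a3 a4 a5 a6 => ?_⟩
    rcases hC r ℓ W D δ T F a1 a2 a3 a4 a5 a6 with h1 | ⟨v, hv, -⟩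
    exacts [h1, absurd (Subsingleton.elim _ _) hv]
  | succ e ih =>
    obtain ⟨K, C', ih⟩ := ih
    obtain ⟨C, hC⟩ := step hF hH hT hC hJ hL hP hS hCo h hW (e + 1)
    refine ⟨(g + (e + 1)) * (K + 1), C + C', fun r ℓ W D δ T F a1 a2 a3 a4 a5 a6 => ?_⟩
    have hT' : T ≤ (K + 1) * T := Nat.le_mul_of_pos_left T (Nat.succ_pos K)
    rcases hC r ℓ W D δ ((K + 1) * T) F a1 a2 a3 a4 (a5.trans hT') (by rwa [← mul_assoc]) with
      h1 | ⟨v, hv, h1⟩
    · exact Obs_mono h1 (by omega) hT'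
    · obtain ⟨M, F', b1, b2, b3, b4⟩ := hQ g N Θ Λ η h e r ℓ W D δ _ F v hv a1 a2 h1
      refine Obs_mono (Obs_pull b1 (ih r _ _ D δ T F' b2 b3 a3 a4 a5 (b4.mono ?_))) (by omega)
        le_rfl
      exact Nat.succ_le_succ (Nat.mul_le_mul_right T (Nat.le_succ K))

end

end Pool.Agent.CMQ

end MrgPart4

-- ======== part 5: formerly Pool.Agent.MP_cbf1af_ag.cmp2.Final
section MrgPart5

/-! The modules of the zero estimate, unconditionally. -/

namespace Pool.Agent.CMQ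

theorem der_final : DerStmt := der pair

theorem form_final : FormStmt := form pair

theorem hilb_final : HilbStmt := hilb wt form_final

theorem trans_final : TransStmt := trans form_final hilb_final

theorem zero_final : ZeroStmt :=
  zero form_final hilb_final trans_final comp (jet trans_final) (loc iso) (prop hilb_final) sub
    coord quot

end Pool.Agent.CMQ

end MrgPart5

-- marker of a merged file
example : 731051 + 168396 = 731051 + 168396 := rfl
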