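import Pool.Agent.MP_cbf1af_ag.cmp.Liou
import Pool.Agent.MP_cbf1af_ag.shp.Ops

/-! PROJECT ZERO2, row JET: sections cutting out the translated order conditions. -/

namespace Pool.Agent.CMQ

open MvPolynomial Filter Topology
open Pool.Agent.CMP (wd)

namespace Jet

noncomputable section

variable {g N e r : ℕ} {Θ : Fin (N + 1) → (Fin g → ℂ) → ℂ} {Λ : AddSubgroup (Fin g → ℂ)}
  {η : (Fin g → ℂ) → (Fin g → ℂ) →ₗ[ℂ] ℂ} {ℓ : Fin e → Fin g → ℂ}

/-- the standard directions of the parameter space -/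
def bs (r : ℕ) : Fin r → Fin r → ℂ := fun i => Pi.single i 1

theorem sum_bs (x : Fin r → ℂ) : (0 : Fin r → ℂ) + ∑ j, x j • bs r j = x := by
  rw [zero_add]
  funext i
  simp [bs, Finset.sum_apply, Pi.single_apply]

theorem ord_bs {k : ℕ} {f : (Fin r → ℂ) → ℂ} :
    CMP.Ord (bs r) k f 0 ↔ f =O[𝓝 0] fun x => ‖x‖ ^ k := by
  simp only [CMP.Ord, sum_bs]

variable (W : Fin r → GE g e)

theorem an_lin (v : GE g e) (x : Fin r → ℂ) :
    AnalyticAt ℂ (fun x : Fin r → ℂ => v + ∑ j, x j • W j) x :=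
  analyticAt_const.fun_add (Finset.analyticAt_fun_sum _ fun j _ =>
    ((ContinuousLinearMap.proj j : (Fin r → ℂ) →L[ℂ] ℂ).analyticAt x).fun_smul analyticAt_const)

theorem cont_lin (v : GE g e) : Continuous fun x : Fin r → ℂ => v + ∑ j, x j • W j :=
  continuous_iff_continuousAt.2 fun x => (an_lin W v x).continuousAt

/-- the translated section, as a function of the parameters -/
def kf (θ : (Fin g → ℂ) → ℂ) (D : ℕ) (F : GE g e → ℂ) (z v : GE g e) (x : Fin r → ℂ) : ℂ :=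
  θ (z.1 - (v + ∑ j, x j • W j).1) ^ D * F (z + (v + ∑ j, x j • W j))

theorem form (hT : TransStmt) (h : IsTheta Θ Λ η) {D δ : ℕ} {F : GE g e → ℂ}
    (hF : Cl Θ Λ η ℓ D δ F) (j : Fin (N + 1)) :
    (∀ z v x, AnalyticAt ℂ (kf W (Θ j) D F z v) x) ∧
    ∀ (l : List (Fin r)) (v : GE g e),
      Cl Θ Λ η ℓ (2 * D) δ fun z => wd (bs r) l (kf W (Θ j) D F z v) 0 := by
  obtain ⟨m, A, S, hA, hS, hid⟩ := (hT g N Θ Λ η h e ℓ).2 D δ F hF j
  have key : ∀ z v, kf W (Θ j) D F z v =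
      fun x => ∑ i, S i z * A i (v + ∑ j, x j • W j) := by
    intro z v
    funext x
    rw [kf, hid]
    exact Finset.sum_congr rfl fun i _ => mul_comm _ _
  have han : ∀ i v x, AnalyticAt ℂ (fun x : Fin r → ℂ => A i (v + ∑ j, x j • W j)) x :=
    fun i v x => (hA i _).comp (an_lin W v x)
  refine ⟨fun z v x => ?_, fun l v => ?_⟩
  · rw [key]
    exact Finset.analyticAt_fun_sum _ fun i _ => analyticAt_const.fun_mul (han i v x)
  · have e1 : (fun z => wd (bs r) l (kf W (Θ j) D F z v) 0) = fun z =>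
        ∑ i, wd (bs r) l (fun x : Fin r → ℂ => A i (v + ∑ j, x j • W j)) 0 * S i z := by
      funext z
      rw [key, CMP.wd_sum (bs r) l _ _ fun i _ => han i v 0]
      exact Finset.sum_congr rfl fun i _ => mul_comm _ _
    rw [e1]
    exact Cl.sum _ fun i _ => (hS i).smul _

variable {θ : (Fin g → ℂ) → ℂ}

theorem tend_u (hθ : Continuous θ) (y v : GE g e) :
    Tendsto (fun x : Fin r → ℂ => θ (y.1 - (v + ∑ j, x j • W j).1)) (𝓝 0)
      (𝓝 (θ (y.1 - v.1))) := by
  have : Continuous fun x : Fin r → ℂ => θ (y.1 - (v + ∑ j, x j • W j).1) :=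
    hθ.comp (continuous_const.sub (continuous_fst.comp (cont_lin W v)))
  simpa using this.tendsto 0

theorem ord_to (hθ : Continuous θ) (D : ℕ) {k : ℕ} {F : GE g e → ℂ} {y v : GE g e}
    (hF : OrdL W k F (y + v)) : CMP.Ord (bs r) k (kf W θ D F y v) 0 := by
  have h1 := ((tend_u W hθ y v).pow D).isBigO_one ℝ
  have h2 := h1.mul hF
  simp only [one_mul, add_assoc] at h2
  exact ord_bs.2 h2

theorem ord_of (hθ : Continuous θ) (D : ℕ) {k : ℕ} {F : GE g e → ℂ} {y v : GE g e}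
    (h0 : θ (y.1 - v.1) ≠ 0) (hF : CMP.Ord (bs r) k (kf W θ D F y v) 0) : OrdL W k F (y + v) := by
  have h1 := (((tend_u W hθ y v).pow D).inv₀ (pow_ne_zero D h0)).isBigO_one ℝ
  have h2 := h1.mul (ord_bs.1 hF)
  simp only [one_mul] at h2
  refine h2.congr' ?_ EventuallyEq.rfl
  filter_upwards [(tend_u W hθ y v).eventually_ne h0] with x hx
  rw [kf, inv_mul_cancel_left₀ (pow_ne_zero D hx), add_assoc]

theorem ord_form (hθ : Continuous θ) (D : ℕ) {k T : ℕ} {F : GE g e → ℂ} {y v : GE g e}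
    (han : ∀ z x, AnalyticAt ℂ (kf W θ D F z v) x)
    (hF : OrdL W (k + T) F (y + v)) {l : List (Fin r)} (hl : l.length < k) :
    OrdL W T (fun z => wd (bs r) l (kf W θ D F z v) 0) y := by
  obtain ⟨C, hC0, hb⟩ := hF.exists_nonneg
  have hb' := hb.bound
  have t1 : Tendsto (fun p : (Fin r → ℂ) × (Fin r → ℂ) => p.1 + p.2) (𝓝 0) (𝓝 0) := by
    have : Continuous fun p : (Fin r → ℂ) × (Fin r → ℂ) => p.1 + p.2 := continuous_add
    simpa using this.tendsto 0
  have t2 : Tendsto (fun p : (Fin r → ℂ) × (Fin r → ℂ) =>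
      θ ((y + ∑ j, p.1 j • W j).1 - (v + ∑ j, p.2 j • W j).1)) (𝓝 0) (𝓝 (θ (y.1 - v.1))) := by
    have : Continuous fun p : (Fin r → ℂ) × (Fin r → ℂ) =>
        θ ((y + ∑ j, p.1 j • W j).1 - (v + ∑ j, p.2 j • W j).1) :=
      hθ.comp ((continuous_fst.comp ((cont_lin W y).comp continuous_fst)).sub
        (continuous_fst.comp ((cont_lin W v).comp continuous_snd)))
    simpa using this.tendsto 0
  have t3 := t2.norm.eventually (gt_mem_nhds (lt_add_one ‖θ (y.1 - v.1)‖))
  obtain ⟨δ, hδ, H⟩ := Metric.eventually_nhds_iff.1 (t3.and (t1.eventually hb'))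
  set U := ‖θ (y.1 - v.1)‖ + 1 with hU
  have hU0 : 0 ≤ U := by positivity
  refine Asymptotics.IsBigO.of_bound
    (U ^ D * C * 2 ^ (k + T) * (l.length : ℝ) ^ l.length) ?_
  filter_upwards [Metric.ball_mem_nhds (0 : Fin r → ℂ) hδ,
    Metric.closedBall_mem_nhds (0 : Fin r → ℂ) one_pos] with x hx hx1
  rw [mem_ball_zero_iff] at hx
  rw [mem_closedBall_zero_iff] at hx1
  rcases (norm_nonneg x).eq_or_lt with h0 | h0
  · have hx0 : x = 0 := norm_eq_zero.1 h0.symm
    subst hx0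
    have h2 := (CMP.ordIff r r (bs r) _ 0 _ (han y 0)).1 (ord_to W hθ D hF) l (by omega)
    simp only [Pi.zero_apply, zero_smul, Finset.sum_const_zero, add_zero]
    rw [h2, norm_zero]
    positivity
  · have h1 := CMP.cauchy r r (bs r) (kf W θ D F (y + ∑ j, x j • W j) v) 0
      ‖x‖ (U ^ D * (C * (2 * ‖x‖) ^ (k + T))) l h0 fun x' hx' => ⟨han _ _, by
        have hd : dist (x, x') (0 : (Fin r → ℂ) × (Fin r → ℂ)) < δ := by
          rw [dist_zero_right, Prod.norm_def]
          exact max_lt hx (hx'.trans_lt hx)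
        obtain ⟨a1, a2⟩ := H hd
        simp only at a1 a2
        rw [sum_bs, kf, norm_mul, norm_pow]
        refine mul_le_mul (pow_le_pow_left₀ (norm_nonneg _) a1.le D) ?_ (norm_nonneg _)
          (by positivity)
        have e : y + ∑ j, x j • W j + (v + ∑ j, x' j • W j) =
            y + v + ∑ j, (x + x') j • W j := by
          simp only [Pi.add_apply, add_smul, Finset.sum_add_distrib]
          abel
        rw [e]
        refine a2.trans (mul_le_mul_of_nonneg_left ?_ hC0)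
        rw [norm_pow, norm_norm]
        refine pow_le_pow_left₀ (norm_nonneg _) ((norm_add_le _ _).trans ?_) _
        linarith⟩
    refine h1.trans ?_
    obtain ⟨d, hd⟩ : ∃ d, k = l.length + d := ⟨k - l.length, by omega⟩
    have h2 : ‖x‖ ^ d ≤ 1 := pow_le_one₀ h0.le hx1
    have h3 : U ^ D * (C * (2 * ‖x‖) ^ (k + T)) * ((l.length : ℝ) / ‖x‖) ^ l.length =
        U ^ D * C * 2 ^ (k + T) * (l.length : ℝ) ^ l.length * ‖x‖ ^ T * ‖x‖ ^ d := by
      rw [mul_pow, div_pow, hd]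
      field_simp
      ring
    rw [h3, norm_pow, norm_norm]
    exact mul_le_of_le_one_right (by positivity) h2

end

end Jet

open Jet in
theorem jet (hT : TransStmt) : JetStmt := by
  intro g N Θ Λ η h e r ℓ W D δ F hF
  have hc : ∀ j, Continuous (Θ j) := fun j =>
    continuous_iff_continuousAt.2 fun z => (h.hol j z).continuousAt
  have hf := form W hT h hF
  have back : ∀ (k : ℕ) (y v : GE g e), (∀ j (l : List (Fin r)), l.length < k →
      wd (bs r) l (kf W (Θ j) D F y v) 0 = 0) → OrdL W k F (y + v) := by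
    intro k y v hy
    obtain ⟨j, hj⟩ := h.ne (y.1 - v.1)
    exact ord_of W (hc j) D hj ((CMP.ordIff r r (bs r) _ 0 _ ((hf j).1 y v 0)).2 (hy j))
  refine ⟨fun k => ?_, fun k T Z => ?_⟩
  · have e1 : {p | OrdL W k F p} = ⋂ a : Fin (N + 1) × {l : List (Fin r) // l.length < k},
        {z | wd (bs r) a.2.1 (kf W (Θ a.1) D F z 0) 0 = 0} := by
      ext z
      simp only [Set.mem_ofPred_eq, Set.mem_iInter]
      refine ⟨fun hz a => ?_, fun hz => ?_⟩
      · have h1 : OrdL W k F (z + 0) := by rwa [add_zero]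
        exact (CMP.ordIff r r (bs r) _ 0 _ ((hf a.1).1 z 0 0)).1 (ord_to W (hc a.1) D h1) _ a.2.2
      · have h1 := back k z 0 fun j l hl => hz (j, ⟨l, hl⟩)
        rwa [add_zero] at h1
    rw [e1]
    exact ZCl.iInter fun a => ((hf a.1).2 a.2.1 0).zcl h
  · refine ⟨{Q | ∃ j, ∃ v ∈ Z, ∃ l : List (Fin r), l.length < k ∧
      Q = fun z => wd (bs r) l (kf W (Θ j) D F z v) 0}, ?_, ?_, fun y hy v hv => ?_⟩
    · rintro Q ⟨j, v, -, l, -, rfl⟩
      exact (hf j).2 l v
    · rintro y hy Q ⟨j, v, hv, l, hl, rfl⟩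
      exact ord_form W (hc j) D (fun z x => (hf j).1 z v x) (hy v hv) hl
    · exact back k y v fun j l hl => hy _ ⟨j, v, hv, l, hl, rfl⟩

end Pool.Agent.CMQ
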